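import Pool.Agent.MP_f22332_lc.H39.Defs

set_option autoImplicit false

namespace Pool.Agent.MP_f22332_lc.H39

open scoped symmDiff
open Set

variable {V ι : Type}

theorem sd_adj {A B : SimpleGraph V} {u v : V} : (A ∆ B).Adj u v ↔ ¬ (A.Adj u v ↔ B.Adj u v) := by
  simp only [symmDiff_def, SimpleGraph.sup_adj, SimpleGraph.sdiff_adj]
  tauto

theorem succ_mod {L s t : ℕ} (hs : s < L) (ht : t < L) :
    (s + 1) % L = t ↔ (s + 1 = t ∨ (s + 1 = L ∧ t = 0)) := by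
  rcases Nat.lt_or_ge (s + 1) L with h | h
  · rw [Nat.mod_eq_of_lt h]; omega
  · rw [show s + 1 = L by omega, Nat.mod_self]; omega

theorem IsCyc.nb {G C : SimpleGraph V} (h : IsCyc G C) (u : V) :
    (∀ v, ¬ C.Adj u v) ∨ ∃ a b, a ≠ b ∧ ∀ v, C.Adj u v ↔ v = a ∨ v = b := by
  obtain ⟨-, L, c, h3, hi, ha⟩ := h
  by_cases e : ∃ t < L, c t = u
  · obtain ⟨t, ht, rfl⟩ := e
    have l1 : (t + 1) % L < L := Nat.mod_lt _ (by omega)
    obtain ⟨p, hp, e⟩ : ∃ p < L, (p + 1) % L = t := by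
      rcases Nat.eq_zero_or_pos t with rfl | h0
      · exact ⟨L - 1, by omega, (succ_mod (by omega) ht).2 (by omega)⟩
      · exact ⟨t - 1, by omega, (succ_mod (by omega) ht).2 (by omega)⟩
    refine Or.inr ⟨c ((t + 1) % L), c p, fun k => ?_, fun v => ?_⟩
    · have k1 := (succ_mod ht hp).1 (hi l1 hp k)
      have k2 := (succ_mod hp ht).1 e
      omega
    · rw [ha]
      constructor
      · rintro ⟨s, hs, k⟩
        have l2 : (s + 1) % L < L := Nat.mod_lt _ (by omega)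
        rcases Sym2.eq_iff.1 k with ⟨k1, k2⟩ | ⟨k1, k2⟩
        · exact Or.inl (by rw [k2, hi ht hs k1])
        · have k3 := (succ_mod hs ht).1 (hi ht l2 k1).symm
          have k4 := (succ_mod hp ht).1 e
          exact Or.inr (by rw [k2, show s = p by omega])
      · rintro (rfl | rfl)
        · exact ⟨t, ht, rfl⟩
        · exact ⟨p, hp, by rw [e, Sym2.eq_swap]⟩
  · refine Or.inl fun v k => ?_
    obtain ⟨s, hs, k⟩ := (ha _ _).1 k
    rcases Sym2.eq_iff.1 k with ⟨k1, -⟩ | ⟨k1, -⟩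
    · exact e ⟨s, hs, k1.symm⟩
    · exact e ⟨_, Nat.mod_lt _ (by omega), k1.symm⟩

theorem IsPM.flip {G M C : SimpleGraph V} (hM : IsPM G M) (hC : IsCyc G C)
    (ha : C.IsAlternating M) : IsPM G (M ∆ C) := by
  refine ⟨symmDiff_le_sup.trans (sup_le hM.1 hC.1), fun v hv => ?_⟩
  obtain ⟨w, hw, hu⟩ := hM.2 v hv
  rcases hC.nb v with h | ⟨a, b, hab, h⟩
  · exact ⟨w, by simp [sd_adj, h, hw], fun x hx => hu x (by simpa [sd_adj, h] using hx)⟩
  · have k := ha hab ((h a).2 (Or.inl rfl)) ((h b).2 (Or.inr rfl))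
    have k' : ∀ x, M.Adj v x ↔ x = w := fun x => ⟨hu x, fun e => e ▸ hw⟩
    simp only [k'] at k
    simp only [sd_adj, h, k']
    by_cases e : a = w
    · exact ⟨b, by grind, fun x hx => by grind⟩
    · exact ⟨a, by grind, fun x hx => by grind⟩

/-- a bipartite graph with oriented faces, a spanning tree and the dual spanning tree -/
structure Dat (V ι : Type) where
  G : SimpleGraph V
  I : Set ι
  len : ι → ℕ
  c : ι → ℕ → V
  lf : V → V → ι
  col : V → Bool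
  root : ι
  frk : ι → ℕ
  par : V → V
  vrk : V → ℕ
  fin : G.support.Finite
  len3 : ∀ f ∈ I, 3 ≤ len f
  inj : ∀ f ∈ I, InjOn (c f) (Iio (len f))
  dart : ∀ f ∈ I, ∀ t < len f, G.Adj (c f t) (c f ((t + 1) % len f)) ∧
    lf (c f t) (c f ((t + 1) % len f)) = f
  idx : ∀ u v, G.Adj u v → lf u v ∈ I ∧ ∃ t < len (lf u v), c (lf u v) t = u ∧
    c (lf u v) ((t + 1) % len (lf u v)) = v
  bip : ∀ u v, G.Adj u v → col u ≠ col v
  tree : ∀ f ∈ I, f ≠ root → frk (lf (c f 1) (c f 0)) < frk f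
  rt : lf (c root 1) (c root 0) ≠ lf (c root 2) (c root 1)
  cot : ∀ u v, G.Adj u v → (lf u v ≠ root ∧ c (lf u v) 0 = u) ∨ (lf v u ≠ root ∧ c (lf v u) 0 = v) ∨
    (par u = v ∧ vrk v < vrk u) ∨ (par v = u ∧ vrk u < vrk v)

namespace Dat

variable (D : Dat V ι)

/-- the edges with exactly one side in `A` -/
def bd (A : Set ι) : SimpleGraph V where
  Adj u v := D.G.Adj u v ∧ ¬ (D.lf u v ∈ A ↔ D.lf v u ∈ A)
  symm := ⟨fun _ _ h => ⟨h.1.symm, fun k => h.2 k.symm⟩⟩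
  loopless := ⟨fun _ h => h.1.ne rfl⟩

/-- the faces -/
def Φ : Set (SimpleGraph V) := (fun f => D.bd {f}) '' D.I

variable {D} {u v w : V} {f g : ι}

theorem bd_adj {A : Set ι} : (D.bd A).Adj u v ↔ D.G.Adj u v ∧ ¬ (D.lf u v ∈ A ↔ D.lf v u ∈ A) :=
  Iff.rfl

theorem bd_sd (A B : Set ι) : D.bd (A ∆ B) = D.bd A ∆ D.bd B := by
  ext u v
  simp only [sd_adj, bd_adj, mem_symmDiff]
  tauto

theorem out_uniq (h : D.G.Adj u v) (h' : D.G.Adj u w) (e : D.lf u v = D.lf u w) : v = w := by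
  obtain ⟨i1, s, hs, e1, e2⟩ := D.idx _ _ h
  obtain ⟨-, t, ht, e3, e4⟩ := D.idx _ _ h'
  rw [← e] at ht e3 e4
  rw [← e2, ← e4, D.inj _ i1 hs ht (e1.trans e3.symm)]

theorem in_uniq (h : D.G.Adj v u) (h' : D.G.Adj w u) (e : D.lf v u = D.lf w u) : v = w := by
  obtain ⟨i1, s, hs, e1, e2⟩ := D.idx _ _ h
  obtain ⟨-, t, ht, e3, e4⟩ := D.idx _ _ h'
  rw [← e] at ht e3 e4
  have l : (t + 1) % D.len (D.lf v u) < _ := Nat.mod_lt _ (by omega)
  have k1 := (succ_mod hs l).1 (D.inj _ i1 (Nat.mod_lt _ (by omega)) l (e2.trans e4.symm))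
  have k2 := (succ_mod ht l).1 rfl
  rw [← e1, ← e3, show s = t by omega]

theorem lf_ne (h : D.G.Adj u v) : D.lf u v ≠ D.lf v u := fun e => by
  obtain ⟨i1, s, hs, e1, e2⟩ := D.idx _ _ h
  obtain ⟨-, t, ht, e3, e4⟩ := D.idx _ _ h.symm
  rw [← e] at ht e3 e4
  have h3 := D.len3 _ i1
  have k1 := (succ_mod hs ht).1 (D.inj _ i1 (Nat.mod_lt _ (by omega)) ht (e2.trans e3.symm))
  have k2 := (succ_mod ht hs).1 (D.inj _ i1 (Nat.mod_lt _ (by omega)) hs (e4.trans e1.symm))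
  omega

theorem face_adj : (D.bd {f}).Adj u v ↔ D.G.Adj u v ∧ (D.lf u v = f ∨ D.lf v u = f) := by
  rw [bd_adj]
  refine and_congr_right fun h => ?_
  have := lf_ne h
  simp only [mem_singleton_iff]
  grind

theorem dart0 (hf : f ∈ D.I) :
    D.G.Adj (D.c f 0) (D.c f 1) ∧ D.lf (D.c f 0) (D.c f 1) = f := by
  have h3 := D.len3 f hf
  have := D.dart f hf 0 (by omega)
  rwa [Nat.mod_eq_of_lt (by omega)] at this

theorem face_cyc (hf : f ∈ D.I) : IsCyc D.G (D.bd {f}) := by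
  refine ⟨fun _ _ h => h.1, D.len f, D.c f, D.len3 f hf, D.inj f hf, fun u v => ?_⟩
  rw [face_adj]
  constructor
  · rintro ⟨h, rfl | rfl⟩
    · obtain ⟨-, t, ht, e1, e2⟩ := D.idx _ _ h
      exact ⟨t, ht, by rw [e1, e2]⟩
    · obtain ⟨-, t, ht, e1, e2⟩ := D.idx _ _ h.symm
      exact ⟨t, ht, by rw [e1, e2, Sym2.eq_swap]⟩
  · rintro ⟨t, ht, k⟩
    obtain ⟨k1, k2⟩ := D.dart f hf t ht
    rcases Sym2.eq_iff.1 k with ⟨rfl, rfl⟩ | ⟨rfl, rfl⟩
    · exact ⟨k1, Or.inl k2⟩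
    · exact ⟨k1.symm, Or.inr k2⟩

theorem face_inj : InjOn (fun f => D.bd {f}) D.I := by
  have key : ∀ f ∈ D.I, ∀ g, f ≠ g → D.bd {f} = D.bd {g} → ∀ u v, D.G.Adj u v → D.lf u v = f →
      D.lf v u = g := fun f _ g hfg e u v h k =>
    ((face_adj.1 (e ▸ face_adj.2 ⟨h, Or.inl k⟩ : (D.bd {g}).Adj u v)).2).resolve_left
      fun k' => hfg (k.symm.trans k')
  have k0 : ∀ f ∈ D.I, ∀ g, f ≠ g → D.bd {f} = D.bd {g} → f ≠ D.root := by
    rintro f hf g hfg e rfl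
    have h3 := D.len3 _ hf
    have d1 := D.dart _ hf 1 (by omega)
    rw [Nat.mod_eq_of_lt (by omega)] at d1
    exact D.rt ((key _ hf g hfg e _ _ (dart0 hf).1 (dart0 hf).2).trans
      (key _ hf g hfg e _ _ d1.1 d1.2).symm)
  intro f hf g hg e
  by_contra hfg
  have a := D.tree f hf (k0 f hf g hfg e)
  have b := D.tree g hg (k0 g hg f (Ne.symm hfg) e.symm)
  rw [key f hf g hfg e _ _ (dart0 hf).1 (dart0 hf).2] at a
  rw [key g hg f (Ne.symm hfg) e.symm _ _ (dart0 hg).1 (dart0 hg).2] at b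
  omega

theorem nb_fin (u : V) (p : V → Prop) : {v | D.G.Adj u v ∧ p v}.Finite :=
  D.fin.subset fun _ h => ⟨u, h.1.symm⟩

theorem out_in (A : Set ι) (u : V) : {v | D.G.Adj u v ∧ D.lf u v ∈ A ∧ D.lf v u ∉ A}.ncard =
    {v | D.G.Adj u v ∧ D.lf v u ∈ A ∧ D.lf u v ∉ A}.ncard := by
  have k : {v | D.G.Adj u v ∧ D.lf u v ∈ A}.ncard = {v | D.G.Adj u v ∧ D.lf v u ∈ A}.ncard := by
    rw [← InjOn.ncard_image (f := fun v => D.lf u v) fun a ha b hb e => out_uniq ha.1 hb.1 e,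
      ← InjOn.ncard_image (f := fun v => D.lf v u) fun a ha b hb e => in_uniq ha.1.symm hb.1.symm e]
    congr 1
    ext f
    constructor
    · rintro ⟨v, ⟨h, hA⟩, rfl⟩
      obtain ⟨i1, t, ht, e1, -⟩ := D.idx _ _ h
      obtain ⟨p, hp, e⟩ : ∃ p < D.len (D.lf u v), (p + 1) % D.len (D.lf u v) = t := by
        rcases Nat.eq_zero_or_pos t with rfl | h0
        · exact ⟨D.len (D.lf u v) - 1, by omega, (succ_mod (by omega) ht).2 (by omega)⟩
        · exact ⟨t - 1, by omega, (succ_mod (by omega) ht).2 (by omega)⟩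
      obtain ⟨k1, k2⟩ := D.dart _ i1 p hp
      rw [e, e1] at k1 k2
      exact ⟨_, ⟨k1.symm, k2.symm ▸ hA⟩, k2⟩
    · rintro ⟨v, ⟨h, hA⟩, rfl⟩
      obtain ⟨i1, t, ht, -, e1⟩ := D.idx _ _ h.symm
      obtain ⟨k1, k2⟩ := D.dart _ i1 _ (Nat.mod_lt (t + 1) (by omega))
      rw [e1] at k1 k2
      exact ⟨_, ⟨k1, k2.symm ▸ hA⟩, k2⟩
  have := (ncard_eq_ncard_iff_ncard_sdiff_eq_ncard_sdiff (nb_fin u _) (nb_fin u _)).1 k
  convert this using 2 <;> ext v <;> simp only [mem_ofPred_eq, mem_sdiff] <;> tauto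

theorem bd_nb (A : Set ι) (u : V) : {v | (D.bd A).Adj u v}.ncard =
    2 * {v | D.G.Adj u v ∧ D.lf u v ∈ A ∧ D.lf v u ∉ A}.ncard := by
  rw [two_mul]
  nth_rewrite 2 [out_in]
  rw [← ncard_union_eq (disjoint_left.2 fun v h h' => h.2.2 h'.2.1) (nb_fin u _) (nb_fin u _)]
  congr 1
  ext v
  simp only [bd_adj, mem_ofPred_eq, mem_union]
  tauto

theorem exists_bd {C : SimpleGraph V} (hC : IsCyc D.G C) : ∃ A ⊆ D.I, C = D.bd A := by
  have k : ∀ N, ∃ A ⊆ D.I, (∀ f ∈ A, D.frk f < N) ∧ ∀ f ∈ D.I, f ≠ D.root → D.frk f < N →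
      ¬ (C ∆ D.bd A).Adj (D.c f 0) (D.c f 1) := by
    intro N
    induction N with
    | zero => exact ⟨∅, by simp⟩
    | succ N ih =>
      obtain ⟨A, h1, h2, h3⟩ := ih
      refine ⟨A ∪ {f ∈ D.I | D.frk f = N ∧ (C ∆ D.bd A).Adj (D.c f 0) (D.c f 1)},
        union_subset h1 fun f hf => hf.1, ?_, fun f hf hr hN => ?_⟩
      · rintro f (hf | hf)
        · exact (h2 f hf).trans N.lt_succ_self
        · exact hf.2.1 ▸ N.lt_succ_self
      have a := D.tree f hf hr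
      have b := h3 f hf hr
      have c := h2 f
      have d : D.frk (D.lf (D.c f 1) (D.c f 0)) ≠ N := by omega
      simp only [sd_adj, bd_adj, (dart0 hf).1, (dart0 hf).2, mem_union, mem_ofPred_eq, hf, d] at b ⊢
      grind
  obtain ⟨N, hN⟩ : ∃ N, ∀ u v, D.G.Adj u v → D.frk (D.lf u v) < N := by
    obtain ⟨N, hN⟩ := ((D.fin.prod D.fin).image fun p => D.frk (D.lf p.1 p.2)).bddAbove
    exact ⟨N + 1, fun u v h => Nat.lt_succ_of_le (hN ⟨(u, v), ⟨⟨v, h⟩, ⟨u, h.symm⟩⟩, rfl⟩)⟩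
  obtain ⟨A, h1, -, h3⟩ := k N
  refine ⟨A, h1, symmDiff_eq_bot.1 ?_⟩
  have hG : ∀ u v, (C ∆ D.bd A).Adj u v → D.G.Adj u v := fun u v h =>
    (symmDiff_le_sup.trans (sup_le hC.1 fun _ _ h => h.1) : C ∆ D.bd A ≤ D.G) h
  have h4 : ∀ u v, (C ∆ D.bd A).Adj u v → D.lf u v ≠ D.root → D.c (D.lf u v) 0 ≠ u := by
    intro u v h hr e
    have i1 := (D.idx _ _ (hG u v h)).1
    refine h3 _ i1 hr (hN _ _ (hG u v h)) ?_
    have d := dart0 i1
    rw [e] at d ⊢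
    rwa [out_uniq d.1 (hG u v h) d.2]
  have h5 : ∀ u v, (C ∆ D.bd A).Adj u v → (D.par u = v ∧ D.vrk v < D.vrk u) ∨
      (D.par v = u ∧ D.vrk u < D.vrk v) := fun u v h =>
    ((D.cot u v (hG u v h)).resolve_left fun k => h4 u v h k.1 k.2).resolve_left
      fun k => h4 v u h.symm k.1 k.2
  by_contra hne
  obtain ⟨u, v, h⟩ := SimpleGraph.ne_bot_iff_exists_adj.1 hne
  obtain ⟨x, ⟨y, hx⟩, hm⟩ := exists_max_image (C ∆ D.bd A).support D.vrk
    (D.fin.subset fun x ⟨y, h⟩ => ⟨y, hG _ _ h⟩) ⟨u, v, h⟩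
  replace hx : (C ∆ D.bd A).Adj x y := hx
  have h6 : ∀ z, (C ∆ D.bd A).Adj x z ↔ z = y := fun z => by
    refine ⟨fun hz => ?_, fun e => e ▸ hx⟩
    have a := hm y ⟨x, hx.symm⟩
    have b := hm z ⟨x, hz.symm⟩
    have := h5 _ _ hx
    have := h5 _ _ hz
    grind
  have e1 : Even {z | C.Adj x z}.ncard := by
    rcases hC.nb x with h | ⟨a, b, hab, h⟩
    · simp [h]
    · rw [show {z | C.Adj x z} = {a, b} from Set.ext h, ncard_pair hab]; simp
  have e2 : Even {z | (D.bd A).Adj x z}.ncard := by rw [bd_nb]; simp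
  have f1 : {z | C.Adj x z}.Finite := (nb_fin x fun _ => True).subset fun _ h => ⟨hC.1 h, trivial⟩
  have f2 : {z | (D.bd A).Adj x z}.Finite := nb_fin x _
  simp only [sd_adj] at h6
  by_cases e : C.Adj x y
  · rw [show {z | C.Adj x z} = insert y {z | (D.bd A).Adj x z} by ext z; simp; grind,
      ncard_insert_of_notMem (by simp; grind) f2] at e1
    grind
  · rw [show {z | (D.bd A).Adj x z} = insert y {z | C.Adj x z} by ext z; simp; grind,
      ncard_insert_of_notMem (by simpa using e) f1] at e2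
    grind

theorem count {A : Set ι} (hA : A ⊆ D.I) (u v : V) :
    {F ∈ (fun f => D.bd {f}) '' A | F.Adj u v}.ncard =
      {f ∈ A | D.G.Adj u v ∧ (D.lf u v = f ∨ D.lf v u = f)}.ncard := by
  rw [← InjOn.ncard_image (face_inj.mono fun f hf => hA hf.1)]
  congr 1
  ext F
  constructor
  · rintro ⟨⟨f, hf, rfl⟩, h⟩
    exact ⟨f, ⟨hf, face_adj.1 h⟩, rfl⟩
  · rintro ⟨f, ⟨hf, h⟩, rfl⟩
    exact ⟨⟨f, hf, rfl⟩, face_adj.2 h⟩

theorem isFaces : IsFaces D.G D.Φ where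
  cyc := by rintro _ ⟨f, hf, rfl⟩; exact face_cyc hf
  two u v h := by
    rw [Φ, count subset_rfl, ← ncard_pair (lf_ne h)]
    congr 1
    ext f
    have := (D.idx _ _ h).1
    have := (D.idx _ _ h.symm).1
    simp only [h, mem_ofPred_eq, mem_insert_iff, mem_singleton_iff]
    grind
  gen C hC := by
    obtain ⟨A, hA, rfl⟩ := exists_bd hC
    refine ⟨_, image_mono hA, fun u v => ?_⟩
    rw [count hA, bd_adj]
    by_cases h : D.G.Adj u v
    swap
    · simp [h]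
    have := lf_ne h
    by_cases a : D.lf u v ∈ A <;> by_cases b : D.lf v u ∈ A
    · rw [show {f ∈ A | D.G.Adj u v ∧ (D.lf u v = f ∨ D.lf v u = f)} = {D.lf u v, D.lf v u} by
        ext f; simp; grind, ncard_pair this]
      simp [a, b]
    · rw [show {f ∈ A | D.G.Adj u v ∧ (D.lf u v = f ∨ D.lf v u = f)} = {D.lf u v} by
        ext f; simp; grind]
      simp [a, b, h]
    · rw [show {f ∈ A | D.G.Adj u v ∧ (D.lf u v = f ∨ D.lf v u = f)} = {D.lf v u} by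
        ext f; simp; grind]
      simp [a, b, h]
    · rw [show {f ∈ A | D.G.Adj u v ∧ (D.lf u v = f ∨ D.lf v u = f)} = ∅ by
        ext f; simp; grind]
      simp [a, b]

theorem eq_empty_of_bd {A : Set ι} (hA : A ⊆ D.I) (h : D.bd A = ⊥) (hg : g ∈ D.I) (hgA : g ∉ A) :
    A = ∅ := by
  have k : ∀ N, ∀ f ∈ D.I, D.frk f < N → (f ∈ A ↔ D.root ∈ A) := by
    intro N
    induction N with
    | zero => simp
    | succ N ih =>
      intro f hf hN
      by_cases e : f = D.root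
      · rw [e]
      have a := D.tree f hf e
      have b : ¬ (D.bd A).Adj (D.c f 0) (D.c f 1) := by simp [h]
      rw [← ih _ (D.idx _ _ (dart0 hf).1.symm).1 (by omega)]
      simpa [bd_adj, dart0 hf] using b
  exact eq_empty_of_forall_notMem fun f hf =>
    hgA ((k _ g hg (Nat.lt_succ_self _)).2 ((k _ f (hA hf) (Nat.lt_succ_self _)).1 hf))

end Dat

end Pool.Agent.MP_f22332_lc.H39
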