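import Pool.Agent.MP_f22332_lc.H39.Graph

set_option autoImplicit false

namespace Pool.Agent.MP_f22332_lc.H39

open Set

attribute [local irreducible] tb fc fg rk pt vr cl

variable {n m : ℕ} {u v f g : Tr} {e : En}

/-- the basic perfect matching -/
def X0 (n m : ℕ) (hn : 0 < n) : SimpleGraph Tr where
  Adj u v := u.1 ≤ n ∧ u.2.1 < m ∧ ∃ e ∈ tb (ty n u.1) u.2.2, e.2.2.2.2 = true ∧ v = rel m u e.1
  symm := ⟨by
    rintro u _ ⟨hi, hj, e, he, h, rfl⟩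
    obtain ⟨a, b, e', h1, -, h2, h3, -⟩ := rev hn hi hj he
    exact ⟨a, b, e', h1, h3.trans h, h2.symm⟩⟩
  loopless := ⟨fun u ⟨_, _, e, he, _, h⟩ => (bdE he).2.2.2.2.1 (congrArg (fun x => cl x.2.2) h)⟩

theorem x0_iff (hn : 0 < n) (hm : 3 ≤ m) (hi : u.1 ≤ n) (hj : u.2.1 < m)
    (he : e ∈ tb (ty n u.1) u.2.2) : (X0 n m hn).Adj u (rel m u e.1) ↔ e.2.2.2.2 = true := by
  refine ⟨?_, fun h => ⟨hi, hj, e, he, h, rfl⟩⟩
  rintro ⟨-, -, e', he', h, k⟩
  have b := bdE he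
  have b' := bdE he'
  rwa [b.2.2.2.2.2.1 e' he' (rel_inj hm hj b.2.2.1 b'.2.2.1 b.2.1 b'.2.1 k)]

theorem x0_pm (hn : 0 < n) : IsPM (GG n m hn) (X0 n m hn) := by
  refine ⟨fun u v ⟨hi, hj, e, he, _, h⟩ => ⟨hi, hj, e, he, h⟩, ?_⟩
  rintro u ⟨_, hi, hj, e, he, -⟩
  obtain ⟨e', h1, h2, h3⟩ := c_pm _ (ty_lt _ _) _ (tb_lt (ty_lt _ _) he) e he
  refine ⟨_, ⟨hi, hj, e', h1, h2, rfl⟩, ?_⟩
  rintro _ ⟨-, -, e'', k1, k2, rfl⟩
  rw [h3 e'' k1 k2]

theorem rdy_iff (hn : 0 < n) (hm : 3 ≤ m) (hi : u.1 ≤ n) (hj : u.2.1 < m)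
    (he : e ∈ tb (ty n u.1) u.2.2) :
    (dat n m hn hm).Rdy (X0 n m hn) u (rel m u e.1) ↔ e.2.2.2.2 = cl u.2.2 := by
  rw [Dat.Rdy, x0_iff hn hm hi hj he]
  exact Bool.coe_iff_coe

/-- the order of the flips -/
inductive Arc (n m : ℕ) : Tr → Tr → Prop
  | ring {i j a b} : i < n → j < m →
      (a, b) ∈ [(0, 1), (1, 2), (3, 2), (4, 3), (4, 5), (5, 6), (0, 7)] → Arc n m (i, j, a) (i, j, b)
  | wrap {i j} : i < n → j < m → Arc n m (i, cm m 2 j, 7) (i, j, 6)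
  | gate {i j a b} : i < n → j < m → (a, b) ∈ [(1, 8), (3, 10)] → Arc n m (i, j, a) (i + 1, j, b)
  | strip {i j a b} : i < n → j < m → (a, b) ∈ [(9, 8), (9, 12), (11, 10), (11, 12), (12, 13)] →
      Arc n m (i + 1, j, a) (i + 1, j, b)
  | up {i j} : i + 1 < n → j < m → Arc n m (i + 1, j, 12) (i + 1, j, 2)
  | down {i j} : i + 1 < n → j < m → Arc n m (i + 1, j, 6) (i, j, 6)
  | top {i j} : i + 1 = n → j < m → Arc n m (i + 1, j, 12) (i, j, 6)
  | bot {j} : j < m → Arc n m (0, j, 6) (0, j, 2)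

theorem relF_k (m : ℕ) (u d : Tr) : (relF m u d).2.2 = d.2.2 := by unfold relF; split_ifs <;> rfl

theorem arc_al (hn : 0 < n) : Arc n m f g ↔ ∃ i ≤ n, ∃ j < m, ∃ p ∈ al (ty n i),
    f = rel m (i, j, 0) p.1 ∧ g = rel m (i, j, 0) p.2 := by
  constructor
  · intro h
    have c : ∀ j < m, cm m 0 (cm m 2 j) = j := fun j hj =>
      cm_cm (c := 1) hj le_rfl (by omega) (by omega) rfl
    have t1 : ∀ i < n, ty n i = 0 ∨ ty n i = 1 := fun i hi => by have := ty_spec n i; omega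
    have t2 : ∀ i, ty n (i + 1) = 1 ∨ ty n (i + 1) = 2 := fun i => by
      have := ty_spec n (i + 1); omega
    have t3 : ∀ i, i + 1 < n → ty n (i + 1) = 1 := fun i hi => by have := ty_spec n (i + 1); omega
    cases h with
    | @ring i j a b hi hj h =>
      by_cases k : (a, b) ∈ [(3, 2), (4, 3), (0, 7)]
      · refine ⟨i, hi.le, j, hj, ((1, 1, a), (1, 1, b)), ?_, rfl, rfl⟩
        rcases t1 i hi with e | e <;> rw [e] <;> fin_cases k <;> decide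
      · refine ⟨i + 1, hi, j, hj, ((0, 1, a), (0, 1, b)), ?_, rfl, rfl⟩
        rcases t2 i with e | e <;> rw [e] <;> fin_cases h <;> first | decide | exact (k (by decide)).elim
    | @wrap i j hi hj =>
      refine ⟨i, hi.le, _, cm_lt (a := 2) hj, ((1, 1, 7), (1, 0, 6)), ?_, rfl, by simp [rel, c j hj]⟩
      rcases t1 i hi with e | e <;> rw [e] <;> decide
    | @gate i j a b hi hj h =>
      refine ⟨i + 1, hi, j, hj, ((0, 1, a), (1, 1, b)), ?_, rfl, rfl⟩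
      rcases t2 i with e | e <;> rw [e] <;> fin_cases h <;> decide
    | @strip i j a b hi hj h =>
      refine ⟨i + 1, hi, j, hj, ((1, 1, a), (1, 1, b)), ?_, rfl, rfl⟩
      rcases t2 i with e | e <;> rw [e] <;> fin_cases h <;> decide
    | @up i j hi hj =>
      exact ⟨i + 1, hi.le, j, hj, ((1, 1, 12), (1, 1, 2)), by rw [t3 i hi]; decide, rfl, rfl⟩
    | @down i j hi hj =>
      exact ⟨i + 1, hi.le, _, cm_lt (a := 2) hj, ((1, 0, 6), (0, 0, 6)), by rw [t3 i hi]; decide,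
        by simp [rel, c j hj], by simp [rel, c j hj]⟩
    | @top i j hi hj =>
      exact ⟨i + 1, hi.le, _, cm_lt (a := 2) hj, ((1, 0, 12), (0, 0, 6)), by
        rw [hi, ty_n hn]; decide, by simp [rel, c j hj], by simp [rel, c j hj]⟩
    | @bot j hj =>
      exact ⟨0, hn.le, _, cm_lt (a := 2) hj, ((1, 0, 6), (1, 0, 2)), by rw [ty0]; decide,
        by simp [rel, c j hj], by simp [rel, c j hj]⟩
  · rintro ⟨i, hi, j, hj, p, hp, rfl, rfl⟩
    have l := cm_lt (a := 0) hj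
    have w : ∀ i < n, Arc n m (i, j, 7) (i, cm m 0 j, 6) := fun i hi => by
      have := Arc.wrap hi l
      rwa [cm_cm (c := 1) hj (by omega) le_rfl (by omega) rfl] at this
    rcases ty_spec n i with ⟨rfl, e⟩ | ⟨a, b, e⟩ | ⟨a, b, e⟩ <;> rw [e] at hp
    · fin_cases hp <;> first | exact .bot l | exact w 0 hn | exact .ring hn hj (by decide)
    · obtain ⟨i, rfl⟩ : ∃ x, i = x + 1 := ⟨i - 1, by omega⟩
      fin_cases hp <;> first
        | exact .ring hi hj (by decide) | exact .ring b hj (by decide) | exact w _ b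
        | exact .gate hi hj (by decide) | exact .strip hi hj (by decide) | exact .up b hj
        | exact .down b l
    · obtain ⟨i, rfl⟩ : ∃ x, i = x + 1 := ⟨i - 1, by omega⟩
      fin_cases hp <;> first
        | exact .ring hi hj (by decide) | exact .gate hi hj (by decide)
        | exact .strip hi hj (by decide) | exact .top (by omega) l

theorem arc_of (hn : 0 < n) (hm : 3 ≤ m) (h : adj n m u v)
    (r : (dat n m hn hm).Rdy (X0 n m hn) u v) (k : (lf n m v u).2.2 < 14) :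
    (lf n m u v).2.2 < 14 ∧ Arc n m (lf n m u v) (lf n m v u) := by
  obtain ⟨hi, hj, e, he, rfl⟩ := h
  rw [rf_eq hn hm hi hj he, relF_k] at k
  obtain ⟨h1, h2⟩ := c_arc _ (ty_lt _ _) _ (tb_lt (ty_lt _ _) he) e he ((rdy_iff hn hm hi hj he).1 r) k
  rw [rf_eq hn hm hi hj he, lf_eq hm hj he, relF, relF, if_neg (by omega), if_neg (by omega)]
  exact ⟨h1, (arc_al hn).2 ⟨_, hi, _, hj, _, h2, rfl, rfl⟩⟩

theorem Arc.dart (hn : 0 < n) (hm : 3 ≤ m) (h : Arc n m f g) : ∃ u v, adj n m u v ∧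
    (dat n m hn hm).Rdy (X0 n m hn) u v ∧ lf n m u v = f ∧ lf n m v u = g := by
  obtain ⟨i, hi, j, hj, p, hp, rfl, rfl⟩ := (arc_al hn).1 h
  obtain ⟨h1, h2, k, -, e, he, h3, h4, h5⟩ := c_arc' _ (ty_lt _ _) p hp
  obtain ⟨a, b, c⟩ := dartE hn hm hi hj rfl e he
  rw [h4, relF, if_neg (by omega)] at b
  rw [h5, relF, if_neg (by omega)] at c
  exact ⟨_, _, a, (rdy_iff (u := (i, j, k)) hn hm hi hj he).2 h3, b, c⟩

theorem meet (hn : 0 < n) (hm : 3 ≤ m) (h : adj n m u v) (k1 : (lf n m u v).2.2 < 14)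
    (k2 : (lf n m v u).2.2 < 14) : (dat n m hn hm).Meet u v := by
  obtain ⟨hi, hj, e, he, rfl⟩ := h
  intro s hs t ht
  simp only [dat] at hs ht ⊢
  rw [rf_eq hn hm hi hj he] at k2 ht ⊢
  rw [lf_eq hm hj he] at k1 hs ⊢
  rw [flen_loc (by omega)] at hs ht
  rw [fcyc_loc (by omega), fcyc_loc (by omega)]
  rw [relF_k] at k1 k2
  have c := c_meet _ (wn_mem hn hi) _ (tb_lt (ty_lt _ _) he) e he k1 k2
  have b := bdE he
  have d := (c_idx _ (wn_mem hn hi) _ (tb_lt (ty_lt _ _) he) e he (by omega)).2.2.2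
  have d' := idx_loc hn hi hj he (by omega)
  rw [ty_wn (by omega) (by omega), ty_wn (by omega) (by omega)] at c
  rw [relF, if_neg (by omega)] at hs ht ⊢
  rw [relF, if_neg (by omega)]
  intro k
  have c1 := (c_fc _ (ty_lt _ _) _ (show e.2.1.2.2 < 22 by omega)).2.2.2.2 _ (fg_mem hs)
  have c2 := (c_fc _ (ty_lt _ _) _ (show e.2.2.1.2.2 < 22 by omega)).2.2.2.2 _ (fg_mem ht)
  have k' := congrArg Prod.fst k
  rcases c _ (fg_mem hs) _ (fg_mem ht) (congrArg (·.2.2) k) (by simp only [rel] at *; omega) with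
    g | g <;> simp only [rel] at g c1
  · refine Or.inl ((rel_rel (x := (1, 1, u.2.2)) hj (by omega) (by omega) c1.2.2.2.1 (by simp) ?_ ?_
      ?_).trans (rel_one u)) <;> simp [g] <;> omega
  · refine Or.inr (rel_rel hj (by omega) (by omega) c1.2.2.2.1 b.2.1 ?_ ?_ ?_) <;>
      simp only [rel, g] at c1 ⊢ <;> omega

theorem pin (hn : 0 < n) (hm : 3 ≤ m) (h : Loc n m f) (k : f.2.2 < 14) :
    ∃ u v, adj n m u v ∧ lf n m u v = f ∧ 14 ≤ (lf n m v u).2.2 := by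
  obtain ⟨t, ht, c⟩ := c_pin _ (wn_mem hn h.1) _ k h.2.2
  obtain ⟨a, b, e, he, -, h1, h2, h3, -⟩ := dart_loc hn h (t := t) (by rwa [flen_loc h.lt])
  exact ⟨_, _, ⟨a, b, e, he, rfl⟩, (lf_eq hm b he).trans h1,
    by rw [rf_eq hn hm a b he, relF_k]; exact c e h2 h3⟩

theorem loc_iff (hn : 0 < n) (k : f.2.2 < 14) : Loc n m f ↔ f.2.1 < m ∧
    if f.2.2 < 8 then f.1 < n else 0 < f.1 ∧ f.1 ≤ n := by
  have := ty_spec n f.1
  rw [Loc, (c_fc _ (ty_lt _ _) _ (by omega)).2.2.2.1 k]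
  split_ifs <;> omega

theorem c_frz' : ∀ k ∈ [0, 3], tb 0 k ≠ [] := by decide +kernel

theorem frozen (hn : 0 < n) {M : SimpleGraph Tr} (hM : IsPM (GG n m hn) M) {j : ℕ} (hj : j < m) :
    ¬ M.Adj (0, j, 2) (0, j, 5) := fun h => by
  classical
  have k : ∀ w : Tr, ∃ b, w ∈ ({0} : Finset ℕ) ×ˢ (Finset.range m ×ˢ ({0, 3} : Finset ℕ)) →
      b ∈ ({0} : Finset ℕ) ×ˢ (Finset.range m ×ˢ ({1, 2} : Finset ℕ)) ∧ M.Adj w b := by
    rintro ⟨i, j, k⟩
    by_cases hw : (i, j, k) ∈ ({0} : Finset ℕ) ×ˢ (Finset.range m ×ˢ ({0, 3} : Finset ℕ))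
    swap
    · exact ⟨default, fun h => (hw h).elim⟩
    simp only [Finset.mem_product, Finset.mem_singleton, Finset.mem_range, Finset.mem_insert] at hw
    obtain ⟨rfl, hj, hk⟩ := hw
    obtain ⟨e, he⟩ := List.exists_mem_of_ne_nil _ (c_frz' k (by simpa))
    obtain ⟨b, hb, -⟩ := hM.2 (0, j, k) ⟨_, hn.le, hj, e, he, rfl⟩
    obtain ⟨-, -, e, he, rfl⟩ := hM.1 hb
    have := c_frz k (by simpa) e he
    exact ⟨_, fun _ => ⟨by simpa [rel, this.1, cm_lt hj] using this.2, hb⟩⟩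
  choose μ hμ using k
  have u : ∀ x y z, M.Adj x y → M.Adj x z → y = z := fun x y z a b =>
    (hM.2 x ⟨y, hM.1 a⟩).unique a b
  obtain ⟨w, hw, e⟩ := Finset.surj_on_of_inj_on_of_card_le (fun w _ => μ w) (fun w h => (hμ w h).1)
    (fun a b ha hb e => u _ _ _ (hμ a ha).2.symm (e ▸ (hμ b hb).2.symm)) (by simp) (0, j, 2)
    (by simpa)
  have := u _ _ _ h (e ▸ (hμ w hw).2.symm)
  simp [← this] at hw

theorem frz (hn : 0 < n) (hm : 3 ≤ m) (g : Tr) : ∃ u v, adj n m u v ∧ lf n m u v = (0, 0, 19) ∧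
    lf n m v u ≠ g ∧ ∀ M, IsPM (GG n m hn) M → ¬ M.Adj u v := by
  obtain ⟨a1, a2, a3⟩ := dartE hn hm (i := 0) (j := 0) (k := 2) hn.le (by omega) ty0
    ((1, 1, 5), (1, 1, 19), (1, 0, 19), 5, false) (by decide +kernel)
  obtain ⟨b1, b2, b3⟩ := dartE hn hm (i := 0) (j := 1) (k := 5) hn.le (by omega) ty0
    ((1, 1, 2), (1, 0, 19), (1, 1, 19), 2, false) (by decide +kernel)
  by_cases e : g = (0, 1, 19)
  · refine ⟨_, _, a1, a2, ?_, fun M hM => frozen hn hM (by omega)⟩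
    rw [a3, e]
    simp [relF, rel, cm]
    omega
  · exact ⟨_, _, b1, b2, b3 ▸ Ne.symm e, fun M hM h => frozen (j := 1) hn hM (by omega) h.symm⟩

end Pool.Agent.MP_f22332_lc.H39
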