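import Mathlib

set_option autoImplicit false

namespace Pool.Agent.MP_f22332_lc.H39

open scoped symmDiff

variable {V : Type}

/-- The simple graph given by a list of edges; its vertices are the ends of the edges
(its `support`). -/
def graphOf (l : List (V × V)) : SimpleGraph V := SimpleGraph.fromRel fun u v => (u, v) ∈ l

/-- `C` is (the edge set of) a cycle `c 0, c 1, ..., c (L - 1)` of `G`. -/
def IsCyc (G C : SimpleGraph V) : Prop :=
  C ≤ G ∧ ∃ (L : ℕ) (c : ℕ → V), 3 ≤ L ∧ Set.InjOn c (Set.Iio L) ∧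
    ∀ u v, C.Adj u v ↔ ∃ t < L, s(u, v) = s(c t, c ((t + 1) % L))

/-- `M` is a perfect matching of `G`. -/
def IsPM (G M : SimpleGraph V) : Prop := M ≤ G ∧ ∀ v ∈ G.support, ∃! w, M.Adj v w

/-- `G` has at least four vertices and stays connected when at most two vertices are removed. -/
def ThreeConn (G : SimpleGraph V) : Prop :=
  4 ≤ G.support.ncard ∧ ∀ a b, (G.induce (G.support \ {a, b})).Connected

/-- `Φ` is the set of face boundaries of an embedding of `G` in the sphere, in the form of the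
criterion of MacLane: cycles, each edge on exactly two of them, generating the cycle space. -/
structure IsFaces (G : SimpleGraph V) (Φ : Set (SimpleGraph V)) : Prop where
  cyc : ∀ F ∈ Φ, IsCyc G F
  two : ∀ u v, G.Adj u v → {F ∈ Φ | F.Adj u v}.ncard = 2
  gen : ∀ C, IsCyc G C → ∃ A ⊆ Φ, ∀ u v, C.Adj u v ↔ Odd {F ∈ A | F.Adj u v}.ncard

/-- A cycle which is a face or the symmetric difference of two faces sharing an edge. -/
def Admissible (G : SimpleGraph V) (Φ : Set (SimpleGraph V)) (C : SimpleGraph V) : Prop :=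
  IsCyc G C ∧ (C ∈ Φ ∨ ∃ F₁ ∈ Φ, ∃ F₂ ∈ Φ, F₁ ≠ F₂ ∧ (∃ u v, F₁.Adj u v ∧ F₂.Adj u v) ∧
    C = F₁ ∆ F₂)

/-- The perfect matching `M'` arises from the perfect matching `M` by flipping an
`M`-alternating admissible cycle. -/
def Flip (G : SimpleGraph V) (Φ : Set (SimpleGraph V)) (M M' : SimpleGraph V) : Prop :=
  IsPM G M ∧ IsPM G M' ∧ ∃ C, Admissible G Φ C ∧ C.IsAlternating M ∧ M' = M ∆ C

/-- `Y` is reached from `X` by at most `k` flips, that is `d(X, Y) ≤ k`. -/
def DistLE (G : SimpleGraph V) (Φ : Set (SimpleGraph V)) :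
    ℕ → SimpleGraph V → SimpleGraph V → Prop
  | 0, X, Y => X = Y
  | k + 1, X, Y => X = Y ∨ ∃ M, Flip G Φ X M ∧ DistLE G Φ k M Y

end Pool.Agent.MP_f22332_lc.H39
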