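import Pool.Agent.MP_f22332_lc.H39.Abs

set_option autoImplicit false

namespace Pool.Agent.MP_f22332_lc.H39

open scoped symmDiff
open Set

variable {V ι : Type}

namespace Dat

variable (D : Dat V ι)

/-- the edge `uv` is ready for the flip of the face on the left of `(u, v)` -/
def Rdy (M : SimpleGraph V) (u v : V) : Prop := M.Adj u v ↔ D.col u = true

/-- `A` is closed downwards -/
def Closed (X : SimpleGraph V) (A : Set ι) : Prop :=
  ∀ u v, D.G.Adj u v → D.Rdy X u v → D.lf v u ∈ A → D.lf u v ∈ A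

/-- the two faces at the edge `uv` have no further common vertex -/
def Meet (u v : V) : Prop := ∀ s < D.len (D.lf u v), ∀ t < D.len (D.lf v u),
  D.c (D.lf u v) s = D.c (D.lf v u) t → D.c (D.lf u v) s = u ∨ D.c (D.lf u v) s = v

/-- a pairing of `S` into adjacent faces with a compatible time function -/
def Good (X : SimpleGraph V) (S : Set ι) (μ : ι → ι) (τ : ι → ℕ) : Prop :=
  ∀ f ∈ S, μ f ∈ S ∧ μ (μ f) = f ∧ (∃ u v, D.G.Adj u v ∧ D.lf u v = f ∧ D.lf v u = μ f) ∧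
    τ (μ f) = τ f ∧ ∀ u v, D.G.Adj u v → D.Rdy X u v → D.lf u v ∈ S → D.lf v u = f →
      D.lf u v ≠ μ f → τ (D.lf u v) < τ f

variable {D} {u v x y : V} {f g : ι} {X M : SimpleGraph V} {A T : Set ι}

theorem rdy_symm (h : D.G.Adj u v) : D.Rdy M v u ↔ ¬ D.Rdy M u v := by
  have := D.bip _ _ h
  rw [Rdy, Rdy, M.adj_comm]
  grind

theorem rdy_sd (h : D.G.Adj u v) :
    D.Rdy (X ∆ D.bd A) u v ↔ (D.Rdy X u v ↔ (D.lf u v ∈ A ↔ D.lf v u ∈ A)) := by
  simp only [Rdy, sd_adj, bd_adj, h]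
  tauto

theorem alt_of_rdy (hc : IsCyc D.G (D.bd T))
    (h : ∀ u v, D.G.Adj u v → D.lf u v ∈ T → D.lf v u ∉ T → D.Rdy M u v) :
    (D.bd T).IsAlternating M := by
  intro v w w' hw h1 h2
  obtain ⟨a, b, hab, k⟩ := (hc.nb v).resolve_left fun k => k w h1
  have e := bd_nb (D := D) T v
  rw [show {x | (D.bd T).Adj v x} = {a, b} from Set.ext k, ncard_pair hab] at e
  have e1 : {x | D.G.Adj v x ∧ D.lf v x ∈ T ∧ D.lf x v ∉ T}.ncard = 1 := by omega
  obtain ⟨p, hp⟩ := ncard_eq_one.1 e1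
  obtain ⟨q, hq⟩ := ncard_eq_one.1 ((out_in T v).symm.trans e1)
  have p1 := Set.ext_iff.1 hp w
  have p2 := Set.ext_iff.1 hp w'
  have q1 := Set.ext_iff.1 hq w
  have q2 := Set.ext_iff.1 hq w'
  have r1 := h _ _ h1.1
  have r2 := h _ _ h2.1
  have r3 := h _ _ h1.1.symm
  have r4 := h _ _ h2.1.symm
  rw [rdy_symm h1.1] at r3
  rw [rdy_symm h2.1] at r4
  have s1 := h1.2
  have s2 := h2.2
  simp only [mem_ofPred_eq, mem_singleton_iff, h1.1, h2.1, Rdy] at *
  grind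

theorem rot (h : D.G.Adj u v) : ∃ p : ℕ → V, p 0 = v ∧ p (D.len (D.lf u v) - 1) = u ∧
    InjOn p (Iio (D.len (D.lf u v))) ∧
    (∀ t < D.len (D.lf u v), ∃ s < D.len (D.lf u v), p t = D.c (D.lf u v) s) ∧
    ∀ x y, (D.G.Adj x y ∧ D.lf x y = D.lf u v ∧ x ≠ u) ↔
      ∃ t, t + 1 < D.len (D.lf u v) ∧ x = p t ∧ y = p (t + 1) := by
  obtain ⟨hf, i, hi, e1, e2⟩ := D.idx _ _ h
  have hj := D.inj _ hf
  have hd := D.dart _ hf
  have hx := fun x y (k : D.G.Adj x y) (e : D.lf x y = D.lf u v) => e ▸ (D.idx x y k).2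
  generalize D.lf u v = f at *
  generalize D.len f = L at *
  obtain ⟨q, hq⟩ : ∃ q : ℕ → ℕ, ∀ t, (i + 1 + t < L ∧ q t = i + 1 + t) ∨
      (L ≤ i + 1 + t ∧ q t + L = i + 1 + t) :=
    ⟨fun t => if i + 1 + t < L then i + 1 + t else i + 1 + t - L, fun t => by
      dsimp only; split_ifs <;> omega⟩
  have ql : ∀ t < L, q t < L := fun t ht => by have := hq t; omega
  refine ⟨fun t => D.c f (q t), ?_, ?_, fun a ha b hb e => ?_, fun t ht => ⟨_, ql t ht, rfl⟩,
    fun x y => ⟨?_, ?_⟩⟩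
  · rw [← e2, (succ_mod hi (ql 0 (by omega))).2 (by have := hq 0; omega)]
  · exact (congrArg (D.c f) (show q (L - 1) = i by have := hq (L - 1); omega)).trans e1
  · have := hj (ql a ha) (ql b hb) e
    have := hq a
    have := hq b
    have : a < L := ha
    have : b < L := hb
    omega
  · rintro ⟨k, e, hu⟩
    obtain ⟨s, hs, rfl, rfl⟩ := hx x y k e
    have : s ≠ i := fun k => hu (k ▸ e1)
    obtain ⟨t, ht, rfl⟩ : ∃ t, t + 1 < L ∧ q t = s := by
      rcases Nat.lt_or_ge i s with k | k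
      · exact ⟨s - i - 1, by omega, by have := hq (s - i - 1); omega⟩
      · exact ⟨s + L - i - 1, by omega, by have := hq (s + L - i - 1); omega⟩
    exact ⟨t, ht, rfl, by
      rw [(succ_mod hs (ql _ ht)).2 (by have := hq t; have := hq (t + 1); omega)]⟩
  · rintro ⟨t, ht, rfl, rfl⟩
    have k := hd _ (ql t (by omega))
    rw [(succ_mod (ql t (by omega)) (ql _ ht)).2 (by have := hq t; have := hq (t + 1); omega)] at k
    refine ⟨k.1, k.2, fun e => ?_⟩
    have := hj (ql t (by omega)) hi (e.trans e1.symm)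
    have := hq t
    omega

theorem Meet.only (hm : D.Meet u v) (h : D.G.Adj u v) (k : D.G.Adj x y)
    (e1 : D.lf x y = D.lf u v) (e2 : D.lf y x = D.lf v u) : x = u := by
  obtain ⟨-, s, hs, a1, a2⟩ := D.idx _ _ k
  obtain ⟨-, t, ht, b1, b2⟩ := D.idx _ _ k.symm
  rw [e1] at hs a1 a2
  rw [e2] at ht b1 b2
  have c1 := hm s hs _ (Nat.mod_lt _ (by omega)) (a1.trans b2.symm)
  have c2 := hm _ (Nat.mod_lt _ (by omega)) t ht (a2.trans b1.symm)
  rw [a1] at c1
  rw [a2] at c2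
  refine c1.resolve_right ?_
  rintro rfl
  obtain rfl := c2.resolve_right k.ne'
  exact lf_ne h e1.symm

theorem Meet.symm (hm : D.Meet u v) : D.Meet v u := fun s hs t ht e =>
  e ▸ (hm t ht s hs e.symm).symm

theorem Meet.out (hm : D.Meet u v) (h : D.G.Adj u v) :
    (D.G.Adj x y ∧ D.lf x y ∈ ({D.lf u v, D.lf v u} : Set ι) ∧
      D.lf y x ∉ ({D.lf u v, D.lf v u} : Set ι)) ↔
      (D.G.Adj x y ∧ D.lf x y = D.lf u v ∧ x ≠ u) ∨ (D.G.Adj x y ∧ D.lf x y = D.lf v u ∧ x ≠ v) := by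
  by_cases k : D.G.Adj x y
  swap
  · simp [k]
  have a := hm.only h k
  have b := hm.symm.only h.symm k
  have c := lf_ne k
  have d := lf_ne h
  have e : x = u → D.lf x y = D.lf u v → y = v := by rintro rfl; exact out_uniq k h
  have e' : x = v → D.lf x y = D.lf v u → y = u := by rintro rfl; exact out_uniq k h.symm
  simp only [mem_insert_iff, mem_singleton_iff]
  grind

theorem Meet.cyc (hm : D.Meet u v) (h : D.G.Adj u v) :
    IsCyc D.G (D.bd {D.lf u v, D.lf v u}) := by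
  obtain ⟨p, p0, p1, p2, p3, p4⟩ := rot h
  obtain ⟨q, q0, q1, q2, q3, q4⟩ := rot h.symm
  have l1 := D.len3 _ (D.idx _ _ h).1
  have l2 := D.len3 _ (D.idx _ _ h.symm).1
  have hm' : ∀ s < D.len (D.lf u v), ∀ t < D.len (D.lf v u), p s = q t → p s = u ∨ p s = v := by
    intro s hs t ht e
    obtain ⟨s', hs', e1⟩ := p3 s hs
    obtain ⟨t', ht', e2⟩ := q3 t ht
    exact e1 ▸ hm s' hs' t' ht' (e1 ▸ e2 ▸ e)
  have k : ∀ x y, (D.bd {D.lf u v, D.lf v u}).Adj x y ↔
      ((∃ t, t + 1 < D.len (D.lf u v) ∧ x = p t ∧ y = p (t + 1)) ∨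
        ∃ t, t + 1 < D.len (D.lf v u) ∧ x = q t ∧ y = q (t + 1)) ∨
      ((∃ t, t + 1 < D.len (D.lf u v) ∧ y = p t ∧ x = p (t + 1)) ∨
        ∃ t, t + 1 < D.len (D.lf v u) ∧ y = q t ∧ x = q (t + 1)) := fun x y => by
    rw [← p4, ← p4, ← q4, ← q4, ← hm.out h, ← hm.out h, bd_adj, D.G.adj_comm y x]
    generalize (D.lf x y ∈ ({D.lf u v, D.lf v u} : Set ι)) = P
    generalize (D.lf y x ∈ ({D.lf u v, D.lf v u} : Set ι)) = Q
    tauto
  generalize D.len (D.lf u v) = a at *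
  generalize D.len (D.lf v u) = b at *
  have cr : ∀ s < a - 1, ∀ t < b - 1, p s ≠ q t := fun s hs t ht e => by
    rcases hm' s (by omega) t (by omega) e with k | k
    · have := p2 (show s < a by omega) (show a - 1 < a by omega) (k.trans p1.symm)
      omega
    · have := q2 (show t < b by omega) (show b - 1 < b by omega) (e.symm.trans (k.trans q1.symm))
      omega
  refine ⟨fun _ _ h => h.1, a + b - 2, fun t => if t < a - 1 then p t else q (t - (a - 1)),
    by omega, fun s hs t ht e => ?_, fun x y => ?_⟩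
  · replace hs : s < a + b - 2 := hs
    replace ht : t < a + b - 2 := ht
    dsimp only at e
    split_ifs at e with h1 h2 h2
    · exact p2 (show s < a by omega) (show t < a by omega) e
    · exact absurd e (cr _ h1 _ (by omega))
    · exact absurd e.symm (cr _ h2 _ (by omega))
    · have := q2 (show s - (a - 1) < b by omega) (show t - (a - 1) < b by omega) e
      omega
  have n1 : ∀ t, t + 1 < a → (if (t + 1) % (a + b - 2) < a - 1 then p ((t + 1) % (a + b - 2)) else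
      q ((t + 1) % (a + b - 2) - (a - 1))) = p (t + 1) := fun t ht => by
    rw [Nat.mod_eq_of_lt (by omega)]
    split_ifs
    · rfl
    · rw [show t + 1 = a - 1 by omega, Nat.sub_self, q0, p1]
  have n2 : ∀ t, t + 1 < b → (if (t + (a - 1) + 1) % (a + b - 2) < a - 1 then
      p ((t + (a - 1) + 1) % (a + b - 2)) else
      q ((t + (a - 1) + 1) % (a + b - 2) - (a - 1))) = q (t + 1) := fun t ht => by
    rcases Nat.lt_or_ge (t + 2) b with k | k
    · rw [Nat.mod_eq_of_lt (by omega), if_neg (by omega)]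
      congr 1
      omega
    · rw [show t + (a - 1) + 1 = a + b - 2 by omega, Nat.mod_self, if_pos (by omega), p0,
        show t + 1 = b - 1 by omega, q1]
  rw [k]
  constructor
  · rintro ((⟨t, ht, rfl, rfl⟩ | ⟨t, ht, rfl, rfl⟩) | ⟨t, ht, rfl, rfl⟩ | ⟨t, ht, rfl, rfl⟩)
    · exact ⟨t, by omega, by simp only [n1 t ht, if_pos (show t < a - 1 by omega)]⟩
    · exact ⟨t + (a - 1), by omega, by simp [n2 t ht]⟩
    · exact ⟨t, by omega, by
        simp only [n1 t ht, if_pos (show t < a - 1 by omega)]; exact Sym2.eq_swap⟩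
    · exact ⟨t + (a - 1), by omega, by simp [n2 t ht]⟩
  · rintro ⟨t, ht, e⟩
    by_cases k : t < a - 1
    · simp only [n1 t (by omega), if_pos k] at e
      rcases Sym2.eq_iff.1 e with ⟨rfl, rfl⟩ | ⟨rfl, rfl⟩
      · exact Or.inl (Or.inl ⟨t, by omega, rfl, rfl⟩)
      · exact Or.inr (Or.inl ⟨t, by omega, rfl, rfl⟩)
    · obtain ⟨s, rfl⟩ : ∃ s, t = s + (a - 1) := ⟨t - (a - 1), by omega⟩
      simp only [n2 s (by omega), if_neg k, Nat.add_sub_cancel] at e
      rcases Sym2.eq_iff.1 e with ⟨rfl, rfl⟩ | ⟨rfl, rfl⟩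
      · exact Or.inl (Or.inr ⟨s, by omega, rfl, rfl⟩)
      · exact Or.inr (Or.inr ⟨s, by omega, rfl, rfl⟩)

theorem Meet.chain (hm : D.Meet u v) (h : D.G.Adj u v)
    (ha : (D.bd {D.lf u v, D.lf v u}).IsAlternating M) {x' y' : V} (k : D.G.Adj x y)
    (e : D.lf x y = D.lf u v) (hx : x ≠ u) (k' : D.G.Adj x' y') (e' : D.lf x' y' = D.lf u v)
    (hx' : x' ≠ u) : D.Rdy M x y ↔ D.Rdy M x' y' := by
  obtain ⟨p, -, -, p2, -, p4⟩ := rot h
  have a : ∀ t, t + 1 < D.len (D.lf u v) → (D.bd {D.lf u v, D.lf v u}).Adj (p t) (p (t + 1)) :=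
    fun t ht => by
      have := (hm.out h).2 (Or.inl ((p4 _ _).2 ⟨t, ht, rfl, rfl⟩))
      exact ⟨this.1, by tauto⟩
  have b : ∀ t, t + 1 < D.len (D.lf u v) → (D.Rdy M (p t) (p (t + 1)) ↔ D.Rdy M (p 0) (p 1)) := by
    intro t
    induction t with
    | zero => simp
    | succ t ih =>
      intro ht
      have c := ha (fun e => by
        have := p2 (show t < _ by omega) (show t + 1 + 1 < _ from ht) e
        omega) (a t (by omega)).symm (a _ ht)
      have d := D.bip _ _ (a t (by omega)).1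
      rw [← ih (by omega), Rdy, Rdy, M.adj_comm (p t)]
      grind
  obtain ⟨t, ht, rfl, rfl⟩ := (p4 _ _).1 ⟨k, e, hx⟩
  obtain ⟨s, hs, rfl, rfl⟩ := (p4 _ _).1 ⟨k', e', hx'⟩
  rw [b t ht, b s hs]

theorem sd_sd (X : SimpleGraph V) (A T : Set ι) :
    (X ∆ D.bd A) ∆ D.bd T = X ∆ D.bd (A ∆ T) := by rw [bd_sd, symmDiff_assoc]

theorem closed_pm (hX : IsPM D.G X) {S : Set ι} (hS : S ⊆ D.I) {ψ : ι → ℕ}
    (hψ : ∀ u v, D.G.Adj u v → D.Rdy X u v → D.lf u v ∈ S → D.lf v u ∈ S →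
      ψ (D.lf u v) < ψ (D.lf v u)) (n : ℕ) :
    ∀ A ⊆ S, A.Finite → A.ncard = n → D.Closed X A → IsPM D.G (X ∆ D.bd A) := by
  induction n with
  | zero =>
    intro A _ hf h0 _
    rw [(ncard_eq_zero hf).1 h0, show D.bd ∅ = ⊥ by ext; simp [bd_adj], symmDiff_bot]
    exact hX
  | succ n ih =>
    intro A hA hf hn hc
    obtain ⟨f, hfA, hm⟩ := exists_max_image A ψ hf (nonempty_of_ncard_ne_zero (by omega))
    have k : ∀ u v, D.G.Adj u v → D.Rdy X u v → D.lf v u ∈ A → D.lf u v ≠ f := fun u v h r e e' =>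
      (hψ u v h r (hA (e' ▸ hfA)) (hA e)).not_ge (e' ▸ hm _ e)
    have := (ih (A \ {f}) (sdiff_subset.trans hA) hf.sdiff
      (by rw [ncard_sdiff_singleton_of_mem hfA]; omega)
      fun u v h r e => ⟨hc u v h r e.1, k u v h r e.1⟩).flip (face_cyc (hS (hA hfA)))
      (alt_of_rdy (face_cyc (hS (hA hfA))) fun u v h e1 e2 => by
        have a := k u v h
        have b := hc v u h.symm
        rw [rdy_symm h] at b
        rw [rdy_sd h]
        simp only [mem_singleton_iff, mem_sdiff] at *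
        grind)
    rwa [sd_sd, show (A \ {f}) ∆ {f} = A by simpa] at this

theorem complete {A₁ : Set ι} (h1 : A₁ ⊆ D.I) (hf : A₁.Finite) (c1 : D.Closed X A₁)
    (hm : ∀ u v, D.G.Adj u v → D.lf u v ∈ A₁ → D.lf v u ∈ A₁ → D.Meet u v) {μ : ι → ι} {τ : ι → ℕ}
    (k : ℕ) : ∀ A ⊆ A₁, (A₁ \ A).ncard = 2 * k → D.Closed X A → IsPM D.G (X ∆ D.bd A) →
      D.Good X (A₁ \ A) μ τ → DistLE D.G D.Φ k (X ∆ D.bd A) (X ∆ D.bd A₁) := by
  induction k with
  | zero =>
    intro A hA h0 _ _ _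
    rw [hA.antisymm (sdiff_eq_empty.1 ((ncard_eq_zero hf.sdiff).1 h0))]
    rfl
  | succ k ih =>
    intro A hA hn hc hp hg
    obtain ⟨f, hfA, hmin⟩ := exists_min_image (A₁ \ A) τ hf.sdiff
      (nonempty_of_ncard_ne_zero (by omega))
    obtain ⟨g1, g2, ⟨u, v, h, rfl, e⟩, g4, -⟩ := hg f hfA
    have hne := lf_ne h
    have cy := (hm u v h hfA.1 (e ▸ g1.1)).cyc h
    have key : ∀ x y, D.G.Adj x y → D.Rdy X x y → D.lf y x ∈ ({D.lf u v, D.lf v u} : Set ι) →
        D.lf x y ∈ A ∪ {D.lf u v, D.lf v u} := fun x y k r e1 => by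
      by_contra e2
      simp only [mem_union, mem_insert_iff, mem_singleton_iff, not_or] at e1 e2
      have a : D.lf y x ∈ A₁ \ A := by rcases e1 with e1 | e1 <;> simp only [e1, e, hfA, g1]
      have b : D.lf x y ∈ A₁ \ A := ⟨c1 x y k r a.1, e2.1⟩
      have c := (hg _ a).2.2.2.2 x y k r b rfl
      have d := hmin _ b
      grind
    have al : (D.bd {D.lf u v, D.lf v u}).IsAlternating (X ∆ D.bd A) :=
      alt_of_rdy cy fun x y k e1 e2 => by
        have a := key y x k.symm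
        have b := hc x y k
        have c := hfA.2
        have d := g1.2
        rw [rdy_symm k] at a
        rw [rdy_sd k]
        simp only [mem_union, mem_insert_iff, mem_singleton_iff] at *
        grind
    have e0 : A ∆ {D.lf u v, D.lf v u} = A ∪ {D.lf u v, D.lf v u} := by
      have c := hfA.2
      have d := g1.2
      ext; simp [mem_symmDiff]; grind
    have p := hp.flip cy al
    refine Or.inr ⟨_, ⟨hp, p, _, ⟨cy, Or.inr ⟨_, ⟨_, h1 hfA.1, rfl⟩, _, ⟨_, h1 (e ▸ g1.1 :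
      D.lf v u ∈ A₁), rfl⟩, fun k => hne (face_inj (h1 hfA.1) (h1 (e ▸ g1.1)) k),
      ⟨u, v, face_adj.2 ⟨h, Or.inl rfl⟩, face_adj.2 ⟨h, Or.inr rfl⟩⟩, ?_⟩⟩, al, rfl⟩, ?_⟩
    · rw [← bd_sd]
      congr 1
      ext; simp [mem_symmDiff]; grind
    rw [sd_sd, e0] at p ⊢
    refine ih _ (union_subset hA ?_) ?_ (fun x y k r e1 => e1.elim
      (fun e1 => Or.inl (hc x y k r e1)) (key x y k r)) p fun f hf' => ?_
    · rintro _ (rfl | rfl)
      exacts [hfA.1, e ▸ g1.1]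
    · rw [← sdiff_sdiff, ncard_sdiff' _ hf.sdiff, hn, ncard_pair hne]
      · omega
      · rintro _ (rfl | rfl)
        exacts [hfA, e ▸ g1]
    · have hf'' : f ∈ A₁ \ A := ⟨hf'.1, fun k => hf'.2 (Or.inl k)⟩
      obtain ⟨a1, a2, a3, a4, a5⟩ := hg f hf''
      refine ⟨⟨a1.1, ?_⟩, a2, a3, a4, fun x y k r e1 => a5 x y k r ⟨e1.1, fun k => e1.2 (Or.inl k)⟩⟩
      have := hf'.2
      have := a1.2
      simp only [mem_union, mem_insert_iff, mem_singleton_iff] at *
      grind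

theorem step {z : ι}
    (hz : ∀ g, ∃ u v, D.G.Adj u v ∧ D.lf u v = z ∧ D.lf v u ≠ g ∧ ∀ M, IsPM D.G M → ¬ M.Adj u v)
    {M' : SimpleGraph V} (h : Flip D.G D.Φ M M') : ∃ T ⊆ D.I, z ∉ T ∧ M' = M ∆ D.bd T ∧
      (D.bd T).IsAlternating M ∧
      ((∃ f, T = {f}) ∨ ∃ u v, D.G.Adj u v ∧ T = {D.lf u v, D.lf v u}) := by
  obtain ⟨p1, p2, C, ⟨-, hC⟩, ha, rfl⟩ := h
  have k : ∀ T g, C = D.bd T → z ∈ T → T ⊆ {z, g} → False := by
    rintro T g rfl h1 h2
    obtain ⟨u, v, a1, a2, a3, a4⟩ := hz g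
    have := lf_ne a1
    have := @h2 (D.lf v u)
    refine a4 _ p2 (sd_adj.2 ?_)
    simp only [a4 _ p1, bd_adj, a1, a2, h1, mem_insert_iff, mem_singleton_iff] at *
    grind
  rcases hC with ⟨f, hf, rfl⟩ | ⟨_, ⟨f, hf, rfl⟩, _, ⟨g, hg, rfl⟩, hne, ⟨u, v, a, b⟩, rfl⟩
  · exact ⟨{f}, by simpa, fun e => k _ z rfl e (by simp_all), rfl, ha, Or.inl ⟨f, rfl⟩⟩
  · have hfg : f ≠ g := fun e => hne (e ▸ rfl)
    have e : D.bd {f} ∆ D.bd {g} = D.bd {f, g} := by
      rw [← bd_sd]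
      congr 1
      ext; simp [mem_symmDiff]; grind
    simp only [e] at ha k ⊢
    refine ⟨{f, g}, insert_subset hf (by simpa), fun e => ?_, rfl, ha, Or.inr ?_⟩
    · rcases e with rfl | rfl
      · exact k _ g rfl (by simp) subset_rfl
      · exact k _ f rfl (by simp) (pair_comm _ _).subset
    · obtain ⟨h, a⟩ := face_adj.1 a
      have b := (face_adj.1 b).2
      refine ⟨u, v, h, ?_⟩
      ext; simp; grind

theorem bound {z : ι} (hzI : z ∈ D.I)
    (hz : ∀ g, ∃ u v, D.G.Adj u v ∧ D.lf u v = z ∧ D.lf v u ≠ g ∧ ∀ M, IsPM D.G M → ¬ M.Adj u v)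
    {A₁ : Set ι} (h1 : A₁ ⊆ D.I) (z1 : z ∉ A₁) (k : ℕ) : ∀ A ⊆ D.I, z ∉ A →
      DistLE D.G D.Φ k (X ∆ D.bd A) (X ∆ D.bd A₁) → (A ∆ A₁).encard ≤ 2 * k := by
  have b : ∀ A ⊆ D.I, z ∉ A → X ∆ D.bd A = X ∆ D.bd A₁ → A ∆ A₁ = ∅ := fun A hA zA e =>
    eq_empty_of_bd (symmDiff_subset_union.trans (union_subset hA h1))
      (by rw [bd_sd, symmDiff_right_injective _ e, symmDiff_self]) hzI
      (by simp [mem_symmDiff, zA, z1])
  induction k with
  | zero => exact fun A hA zA e => by simp [b A hA zA e]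
  | succ k ih =>
    rintro A hA zA (e | ⟨M, s, d⟩)
    · simp [b A hA zA e]
    obtain ⟨T, t1, t2, rfl, -, t3⟩ := step hz s
    rw [sd_sd] at d
    have a := ih _ (symmDiff_subset_union.trans (union_subset hA t1))
      (by simp [mem_symmDiff, zA, t2]) d
    have c : T.encard ≤ 2 := by
      rcases t3 with ⟨f, rfl⟩ | ⟨u, v, h, rfl⟩
      · simp
      · exact (encard_pair (lf_ne h)).le
    calc (A ∆ A₁).encard ≤ ((A ∆ T) ∆ A₁ ∪ T).encard :=
          encard_le_encard fun f => by simp only [mem_symmDiff, mem_union]; tauto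
      _ ≤ 2 * k + 2 := (encard_union_le _ _).trans (add_le_add a c)
      _ = _ := by push_cast; ring

theorem sound {z : ι} (hzI : z ∈ D.I)
    (hz : ∀ g, ∃ u v, D.G.Adj u v ∧ D.lf u v = z ∧ D.lf v u ≠ g ∧ ∀ M, IsPM D.G M → ¬ M.Adj u v)
    {A₁ : Set ι} (h1 : A₁ ⊆ D.I) (hf : A₁.Finite) (z1 : z ∉ A₁) (c1 : D.Closed X A₁)
    (hm : ∀ u v, D.G.Adj u v → D.lf u v ∈ A₁ → D.lf v u ∈ A₁ → D.Meet u v)
    (pin : ∀ f ∈ A₁, ∃ u v, D.G.Adj u v ∧ D.lf u v = f ∧ D.lf v u ∉ A₁) (k : ℕ) :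
    ∀ A ⊆ A₁, (A₁ \ A).ncard = 2 * k → DistLE D.G D.Φ k (X ∆ D.bd A) (X ∆ D.bd A₁) →
      ∃ μ τ, D.Good X (A₁ \ A) μ τ := by
  classical
  induction k with
  | zero =>
    intro A _ h0 _
    rw [(ncard_eq_zero hf.sdiff).1 h0]
    exact ⟨id, fun _ => 0, by simp [Good]⟩
  | succ k ih =>
    intro A hA hn d
    have e0 : A ∆ A₁ = A₁ \ A := by rw [symmDiff_comm]; exact symmDiff_of_ge hA
    have e1 : (A₁ \ A).encard = (2 * (k + 1) : ℕ) := by rw [← hn, hf.sdiff.cast_ncard_eq]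
    rcases d with e | ⟨M, s, d⟩
    · have := bound hzI hz h1 z1 0 A (hA.trans h1) (fun k => z1 (hA k)) e
      rw [e0, e1] at this
      norm_cast at this
    obtain ⟨T, t1, t2, rfl, al, t3⟩ := step hz s
    rw [sd_sd] at d
    have a := bound hzI hz h1 z1 k _ (symmDiff_subset_union.trans (union_subset (hA.trans h1) t1))
      (by simp [mem_symmDiff, t2, show z ∉ A from fun k => z1 (hA k)]) d
    have b : ∀ g : ι, ¬ T ∩ (A₁ \ A) ⊆ {g} := fun g hg => by
      have : (A₁ \ A).encard ≤ 2 * k + 1 :=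
        calc (A₁ \ A).encard ≤ ((A ∆ T) ∆ A₁ ∪ {g}).encard := encard_le_encard fun f => by
              have := @hg f
              simp only [mem_symmDiff, mem_union, mem_inter_iff, mem_sdiff] at *
              tauto
          _ ≤ 2 * k + 1 := (encard_union_le _ _).trans (add_le_add a (by simp))
      rw [e1] at this
      norm_cast at this
      omega
    rcases t3 with ⟨f, rfl⟩ | ⟨u, v, h, rfl⟩
    · exact (b f inter_subset_left).elim
    have hne := lf_ne h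
    have m1 : D.lf u v ∈ A₁ \ A := by
      by_contra k
      exact b (D.lf v u) (by rintro _ ⟨rfl | rfl, k'⟩; exacts [(k k').elim, rfl])
    have m2 : D.lf v u ∈ A₁ \ A := by
      by_contra k
      exact b (D.lf u v) (by rintro _ ⟨rfl | rfl, k'⟩; exacts [rfl, (k k').elim])
    have e2 : A ∆ {D.lf u v, D.lf v u} = A ∪ {D.lf u v, D.lf v u} := by
      have c := m1.2
      have d := m2.2
      ext; simp [mem_symmDiff]; grind
    rw [e2] at d
    obtain ⟨μ, τ, hg⟩ := ih _ (union_subset hA (by rintro _ (rfl | rfl); exacts [m1.1, m2.1])) (by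
      rw [← sdiff_sdiff, ncard_sdiff' (by rintro _ (rfl | rfl); exacts [m1, m2]) hf.sdiff, hn,
        ncard_pair hne]
      omega) d
    have key : ∀ u v, D.G.Adj u v → D.lf u v ∈ A₁ \ A → D.lf v u ∈ A₁ \ A →
        (D.bd {D.lf u v, D.lf v u}).IsAlternating (X ∆ D.bd A) → ∀ x y, D.G.Adj x y → D.Rdy X x y →
        D.lf x y ∈ A₁ \ A → D.lf y x = D.lf u v → D.lf x y = D.lf v u := by
      intro u v h m1 m2 al x y k r m3 e
      by_contra e'
      obtain ⟨x', y', k', e3, e4⟩ := pin _ m1.1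
      have c := (hm u v h m1.1 m2.1).chain h al k.symm e
        (by rintro rfl; exact e' (by rw [out_uniq k.symm h e])) k' e3
        (by rintro rfl; exact e4 (by rw [out_uniq k' h e3]; exact m2.1))
      have d := c1 y' x' k'.symm
      have := @hA (D.lf y' x')
      rw [rdy_symm k'] at d
      rw [rdy_sd k', rdy_sd k.symm, rdy_symm k] at c
      simp only [mem_sdiff, e, e3] at *
      grind
    refine ⟨fun f => if f = D.lf u v then D.lf v u else if f = D.lf v u then D.lf u v else μ f,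
      fun f => if f = D.lf u v ∨ f = D.lf v u then 0 else τ f + 1, fun f hf => ?_⟩
    by_cases e3 : f = D.lf u v
    · subst e3
      simp only [if_true, true_or, or_true, hne.symm, if_false]
      exact ⟨m2, trivial, ⟨u, v, h, rfl, rfl⟩, trivial, fun x y k r m e e' =>
        (e' (key u v h m1 m2 al x y k r m e)).elim⟩
    by_cases e4 : f = D.lf v u
    · subst e4
      simp only [if_true, true_or, or_true, hne.symm, if_false]
      exact ⟨m1, trivial, ⟨v, u, h.symm, rfl, rfl⟩, trivial, fun x y k r m e e' =>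
        (e' (key v u h.symm m2 m1 (pair_comm _ _ ▸ al) x y k r m e)).elim⟩
    obtain ⟨a1, a2, a3, a4, a5⟩ := hg f ⟨hf.1, by simp [hf.2, e3, e4]⟩
    have a6 : μ f ∉ A ∧ μ f ≠ D.lf u v ∧ μ f ≠ D.lf v u := ⟨fun k => a1.2 (Or.inl k),
      fun k => a1.2 (Or.inr (Or.inl k)), fun k => a1.2 (Or.inr (Or.inr k))⟩
    simp only [e3, e4, a6.2.1, a6.2.2, if_false, or_false]
    refine ⟨⟨a1.1, a6.1⟩, a2, a3, by rw [a4], fun x y k r m e e' => ?_⟩
    split_ifs with e5
    · omega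
    · exact Nat.succ_lt_succ (a5 x y k r ⟨m.1, by simpa [m.2] using e5⟩ e e')

end Dat

end Pool.Agent.MP_f22332_lc.H39
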