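import Mathlib

set_option autoImplicit false
set_option synthInstance.maxSize 20000

namespace Pool.Agent.MP_f22332_lc.H39

abbrev Tr := ℕ × ℕ × ℕ

/-- a dart: target, left face, right face, position in the left face, matched or not -/
abbrev En := Tr × Tr × Tr × ℕ × Bool

def TB : List (List (List En)) :=
    [[[((1, 0, 1), (1, 0, 21), (1, 1, 22), 2, false), ((1, 1, 1), (1, 1, 22), (1, 1, 20), 0,
    false), ((1, 1, 2), (1, 1, 20), (1, 0, 21), 3, true)], [((1, 1, 0), (1, 1, 20), (1, 1, 22), 2,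
    false), ((1, 1, 3), (1, 1, 21), (1, 1, 20), 3, true), ((1, 2, 0), (1, 1, 22), (1, 1, 21), 0,
    false)], [((1, 0, 3), (1, 0, 19), (1, 0, 21), 3, false), ((1, 1, 0), (1, 0, 21), (1, 1, 20),
    1, true), ((1, 1, 3), (1, 1, 20), (1, 1, 19), 0, false), ((1, 1, 5), (1, 1, 19), (1, 0, 19),
    5, false)], [((1, 1, 1), (1, 1, 20), (1, 1, 21), 1, true), ((1, 1, 2), (1, 1, 19), (1, 1, 20),
    4, false), ((1, 2, 2), (1, 1, 21), (1, 1, 19), 0, false)], [((1, 1, 9), (1, 1, 5), (1, 1, 18),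
    2, true), ((1, 1, 11), (1, 1, 18), (1, 1, 2), 0, false), ((1, 2, 5), (1, 1, 2), (1, 1, 6), 3,
    false), ((2, 1, 31), (1, 1, 6), (1, 1, 5), 5, false)], [((1, 0, 4), (1, 0, 6), (1, 0, 2), 4,
    false), ((1, 0, 6), (1, 0, 2), (1, 0, 19), 4, false), ((1, 1, 2), (1, 0, 19), (1, 1, 19), 2,
    false), ((1, 1, 6), (1, 1, 19), (1, 1, 0), 0, true), ((2, 1, 15), (1, 1, 0), (1, 1, 7), 3,
    false), ((2, 1, 20), (1, 1, 7), (1, 0, 6), 3, false)], [((1, 1, 5), (1, 1, 0), (1, 1, 19), 2,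
    true), ((1, 2, 5), (1, 1, 19), (1, 1, 2), 1, false), ((2, 1, 14), (1, 1, 1), (1, 1, 0), 3,
    false), ((2, 1, 23), (1, 1, 2), (1, 1, 1), 5, false)], [((1, 1, 8), (1, 1, 17), (1, 1, 4), 0,
    true), ((1, 1, 10), (1, 1, 3), (1, 1, 17), 3, false), ((2, 1, 32), (1, 1, 4), (1, 1, 3), 3,
    false)], [((1, 1, 7), (1, 1, 4), (1, 1, 17), 2, true), ((1, 1, 9), (1, 1, 17), (1, 1, 5), 1,
    false), ((2, 1, 31), (1, 1, 5), (1, 1, 4), 0, false)], [((1, 1, 4), (1, 1, 18), (1, 1, 5), 3,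
    true), ((1, 1, 8), (1, 1, 5), (1, 1, 17), 3, false), ((1, 1, 10), (1, 1, 17), (1, 1, 18), 2,
    false)], [((1, 1, 7), (1, 1, 17), (1, 1, 3), 3, false), ((1, 1, 9), (1, 1, 18), (1, 1, 17), 2,
    false), ((1, 1, 11), (1, 1, 3), (1, 1, 18), 4, true)], [((1, 1, 4), (1, 1, 2), (1, 1, 18), 2,
    false), ((1, 1, 10), (1, 1, 18), (1, 1, 3), 1, true), ((2, 1, 24), (1, 1, 3), (1, 1, 2), 5,
    false)], [], [], [], [], [], [], [], [], [], [], [], [], [], [], [], [], [], [], [], [], [],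
    []], [[], [], [], [], [((1, 1, 9), (1, 1, 5), (1, 1, 18), 2, true), ((1, 1, 31), (1, 1, 18),
    (0, 1, 6), 4, false), ((1, 2, 5), (0, 1, 6), (1, 1, 6), 1, false), ((2, 1, 31), (1, 1, 6), (1,
    1, 5), 5, false)], [((1, 0, 4), (1, 0, 6), (0, 0, 6), 4, false), ((1, 1, 6), (1, 1, 19), (1,
    1, 0), 0, true), ((1, 1, 20), (0, 0, 6), (1, 1, 19), 2, false), ((2, 1, 15), (1, 1, 0), (1, 1,
    7), 3, false), ((2, 1, 20), (1, 1, 7), (1, 0, 6), 3, false)], [((1, 1, 5), (1, 1, 0), (1, 1,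
    19), 2, true), ((1, 1, 12), (1, 1, 19), (1, 1, 2), 1, false), ((2, 1, 14), (1, 1, 1), (1, 1,
    0), 3, false), ((2, 1, 23), (1, 1, 2), (1, 1, 1), 5, false)], [((1, 1, 8), (1, 1, 17), (1, 1,
    4), 1, true), ((1, 1, 10), (1, 1, 3), (1, 1, 17), 3, false), ((2, 1, 32), (1, 1, 4), (1, 1,
    3), 3, false)], [((1, 1, 7), (1, 1, 4), (1, 1, 17), 2, true), ((1, 1, 9), (1, 1, 17), (1, 1,
    5), 2, false), ((2, 1, 31), (1, 1, 5), (1, 1, 4), 0, false)], [((1, 1, 4), (1, 1, 18), (1, 1,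
    5), 3, true), ((1, 1, 8), (1, 1, 5), (1, 1, 17), 3, false), ((1, 1, 10), (1, 1, 17), (1, 1,
    18), 3, false)], [((1, 1, 7), (1, 1, 17), (1, 1, 3), 0, false), ((1, 1, 9), (1, 1, 18), (1, 1,
    17), 2, false), ((1, 1, 11), (1, 1, 3), (1, 1, 18), 4, true)], [((1, 1, 10), (1, 1, 18), (1,
    1, 3), 1, true), ((1, 1, 13), (1, 1, 2), (1, 1, 18), 2, false), ((2, 1, 24), (1, 1, 3), (1, 1,
    2), 5, false)], [((1, 1, 6), (1, 1, 2), (1, 1, 19), 4, false), ((1, 1, 13), (1, 1, 12), (1, 1,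
    2), 0, false), ((1, 1, 22), (1, 1, 19), (1, 1, 12), 2, true)], [((1, 1, 11), (1, 1, 18), (1,
    1, 2), 0, false), ((1, 1, 12), (1, 1, 2), (1, 1, 12), 3, false), ((1, 1, 27), (1, 1, 12), (1,
    1, 11), 1, false), ((1, 1, 33), (1, 1, 11), (1, 1, 18), 1, true)], [((0, 1, 6), (0, 1, 0), (0,
    1, 1), 1, false), ((1, 1, 15), (1, 1, 14), (0, 1, 0), 4, true), ((1, 1, 17), (1, 1, 8), (1, 1,
    14), 3, false), ((1, 1, 30), (0, 1, 1), (1, 1, 8), 0, false)], [((0, 1, 5), (0, 1, 7), (0, 1,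
    0), 2, false), ((1, 1, 14), (0, 1, 0), (1, 1, 14), 0, true), ((1, 1, 16), (1, 1, 14), (0, 1,
    7), 5, false)], [((1, 1, 15), (0, 1, 7), (1, 1, 14), 1, false), ((1, 1, 19), (1, 1, 14), (1,
    1, 15), 0, false), ((1, 1, 20), (1, 1, 15), (0, 1, 7), 3, true)], [((1, 1, 14), (1, 1, 14),
    (1, 1, 8), 3, false), ((1, 1, 18), (1, 1, 9), (1, 1, 14), 3, true), ((1, 1, 29), (1, 1, 8),
    (1, 1, 9), 0, false)], [((1, 1, 17), (1, 1, 14), (1, 1, 9), 2, true), ((1, 1, 19), (1, 1, 13),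
    (1, 1, 14), 2, false), ((1, 1, 22), (1, 1, 12), (1, 1, 13), 4, false), ((1, 1, 28), (1, 1, 9),
    (1, 1, 12), 0, false)], [((1, 1, 16), (1, 1, 15), (1, 1, 14), 2, false), ((1, 1, 18), (1, 1,
    14), (1, 1, 13), 1, false), ((1, 1, 21), (1, 1, 13), (1, 1, 15), 3, true)], [((0, 1, 5), (0,
    0, 6), (0, 1, 7), 3, false), ((1, 1, 5), (1, 1, 19), (0, 0, 6), 5, false), ((1, 1, 16), (0, 1,
    7), (1, 1, 15), 0, true), ((1, 1, 21), (1, 1, 15), (1, 1, 19), 0, false)], [((1, 1, 19), (1,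
    1, 15), (1, 1, 13), 1, true), ((1, 1, 20), (1, 1, 19), (1, 1, 15), 4, false), ((1, 1, 22), (1,
    1, 13), (1, 1, 19), 0, false)], [((1, 1, 12), (1, 1, 12), (1, 1, 19), 5, true), ((1, 1, 18),
    (1, 1, 13), (1, 1, 12), 1, false), ((1, 1, 21), (1, 1, 19), (1, 1, 13), 3, false)], [((0, 1,
    6), (0, 1, 1), (0, 1, 2), 2, false), ((1, 1, 24), (0, 1, 2), (1, 1, 16), 0, false), ((1, 1,
    30), (1, 1, 16), (0, 1, 1), 5, true)], [((0, 1, 11), (0, 1, 2), (0, 1, 3), 1, false), ((1, 1,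
    23), (1, 1, 16), (0, 1, 2), 4, false), ((1, 1, 25), (0, 1, 3), (1, 1, 16), 0, true)], [((1, 1,
    24), (1, 1, 16), (0, 1, 3), 3, true), ((1, 1, 26), (1, 1, 10), (1, 1, 16), 2, false), ((1, 1,
    32), (0, 1, 3), (1, 1, 10), 1, false)], [((1, 1, 25), (1, 1, 16), (1, 1, 10), 2, false), ((1,
    1, 27), (1, 1, 11), (1, 1, 16), 3, true), ((1, 1, 33), (1, 1, 10), (1, 1, 11), 3, false)],
    [((1, 1, 13), (1, 1, 11), (1, 1, 12), 0, false), ((1, 1, 26), (1, 1, 16), (1, 1, 11), 1,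
    true), ((1, 1, 28), (1, 1, 12), (1, 1, 16), 2, false)], [((1, 1, 18), (1, 1, 12), (1, 1, 9),
    3, false), ((1, 1, 27), (1, 1, 16), (1, 1, 12), 0, false), ((1, 1, 29), (1, 1, 9), (1, 1, 16),
    1, true)], [((1, 1, 17), (1, 1, 9), (1, 1, 8), 2, false), ((1, 1, 28), (1, 1, 16), (1, 1, 9),
    7, true), ((1, 1, 30), (1, 1, 8), (1, 1, 16), 1, false)], [((1, 1, 14), (1, 1, 8), (0, 1, 1),
    2, false), ((1, 1, 23), (0, 1, 1), (1, 1, 16), 1, true), ((1, 1, 29), (1, 1, 16), (1, 1, 8),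
    6, false)], [((0, 1, 4), (0, 1, 5), (0, 1, 6), 1, false), ((0, 1, 8), (0, 1, 4), (0, 1, 5), 1,
    false), ((1, 1, 4), (0, 1, 6), (1, 1, 18), 0, false), ((1, 1, 32), (1, 1, 18), (0, 1, 4), 5,
    true)], [((0, 1, 7), (0, 1, 3), (0, 1, 4), 2, false), ((1, 1, 25), (1, 1, 10), (0, 1, 3), 1,
    false), ((1, 1, 31), (0, 1, 4), (1, 1, 18), 0, true), ((1, 1, 33), (1, 1, 18), (1, 1, 10), 6,
    false)], [((1, 1, 13), (1, 1, 18), (1, 1, 11), 7, true), ((1, 1, 26), (1, 1, 11), (1, 1, 10),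
    2, false), ((1, 1, 32), (1, 1, 10), (1, 1, 18), 0, false)]], [[], [], [], [], [((1, 1, 27),
    (1, 1, 12), (1, 1, 11), 2, false), ((1, 1, 31), (1, 1, 18), (0, 1, 6), 1, false), ((1, 1, 33),
    (1, 1, 11), (1, 1, 18), 1, true), ((1, 2, 5), (0, 1, 6), (1, 1, 12), 1, false)], [((1, 0, 4),
    (1, 0, 12), (0, 0, 6), 1, false), ((1, 0, 22), (1, 1, 23), (1, 0, 12), 0, true), ((1, 1, 20),
    (0, 0, 6), (1, 1, 23), 2, false)], [], [], [], [], [], [], [], [], [((0, 1, 6), (0, 1, 0), (0,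
    1, 1), 1, false), ((1, 1, 15), (1, 1, 14), (0, 1, 0), 4, true), ((1, 1, 17), (1, 1, 8), (1, 1,
    14), 0, false), ((1, 1, 30), (0, 1, 1), (1, 1, 8), 0, false)], [((0, 1, 5), (0, 1, 7), (0, 1,
    0), 2, false), ((1, 1, 14), (0, 1, 0), (1, 1, 14), 0, true), ((1, 1, 16), (1, 1, 14), (0, 1,
    7), 5, false)], [((1, 1, 15), (0, 1, 7), (1, 1, 14), 1, false), ((1, 1, 19), (1, 1, 14), (1,
    1, 15), 0, false), ((1, 1, 20), (1, 1, 15), (0, 1, 7), 3, true)], [((1, 1, 14), (1, 1, 14),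
    (1, 1, 8), 3, false), ((1, 1, 18), (1, 1, 9), (1, 1, 14), 3, true), ((1, 1, 29), (1, 1, 8),
    (1, 1, 9), 1, false)], [((1, 1, 17), (1, 1, 14), (1, 1, 9), 2, true), ((1, 1, 19), (1, 1, 13),
    (1, 1, 14), 2, false), ((1, 1, 22), (1, 1, 12), (1, 1, 13), 5, false), ((1, 1, 28), (1, 1, 9),
    (1, 1, 12), 0, false)], [((1, 1, 16), (1, 1, 15), (1, 1, 14), 2, false), ((1, 1, 18), (1, 1,
    14), (1, 1, 13), 1, false), ((1, 1, 21), (1, 1, 13), (1, 1, 15), 3, true)], [((0, 1, 5), (0,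
    0, 6), (0, 1, 7), 3, false), ((1, 1, 5), (1, 1, 23), (0, 0, 6), 0, false), ((1, 1, 16), (0, 1,
    7), (1, 1, 15), 0, true), ((1, 1, 21), (1, 1, 15), (1, 1, 23), 0, false)], [((1, 1, 19), (1,
    1, 15), (1, 1, 13), 1, true), ((1, 1, 20), (1, 1, 23), (1, 1, 15), 0, false), ((1, 1, 22), (1,
    1, 13), (1, 1, 23), 0, false)], [((1, 1, 18), (1, 1, 13), (1, 1, 12), 1, false), ((1, 1, 21),
    (1, 1, 23), (1, 1, 13), 0, false), ((1, 2, 5), (1, 1, 12), (1, 1, 23), 0, true)], [((0, 1, 6),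
    (0, 1, 1), (0, 1, 2), 2, false), ((1, 1, 24), (0, 1, 2), (1, 1, 16), 0, false), ((1, 1, 30),
    (1, 1, 16), (0, 1, 1), 5, true)], [((0, 1, 11), (0, 1, 2), (0, 1, 3), 1, false), ((1, 1, 23),
    (1, 1, 16), (0, 1, 2), 4, false), ((1, 1, 25), (0, 1, 3), (1, 1, 16), 0, true)], [((1, 1, 24),
    (1, 1, 16), (0, 1, 3), 3, true), ((1, 1, 26), (1, 1, 10), (1, 1, 16), 0, false), ((1, 1, 32),
    (0, 1, 3), (1, 1, 10), 1, false)], [((1, 1, 25), (1, 1, 16), (1, 1, 10), 2, false), ((1, 1,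
    27), (1, 1, 11), (1, 1, 16), 3, true), ((1, 1, 33), (1, 1, 10), (1, 1, 11), 1, false)], [((1,
    1, 4), (1, 1, 11), (1, 1, 12), 0, false), ((1, 1, 26), (1, 1, 16), (1, 1, 11), 1, true), ((1,
    1, 28), (1, 1, 12), (1, 1, 16), 3, false)], [((1, 1, 18), (1, 1, 12), (1, 1, 9), 4, false),
    ((1, 1, 27), (1, 1, 16), (1, 1, 12), 0, false), ((1, 1, 29), (1, 1, 9), (1, 1, 16), 1, true)],
    [((1, 1, 17), (1, 1, 9), (1, 1, 8), 2, false), ((1, 1, 28), (1, 1, 16), (1, 1, 9), 7, true),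
    ((1, 1, 30), (1, 1, 8), (1, 1, 16), 2, false)], [((1, 1, 14), (1, 1, 8), (0, 1, 1), 3, false),
    ((1, 1, 23), (0, 1, 1), (1, 1, 16), 1, true), ((1, 1, 29), (1, 1, 16), (1, 1, 8), 6, false)],
    [((0, 1, 4), (0, 1, 5), (0, 1, 6), 1, false), ((0, 1, 8), (0, 1, 4), (0, 1, 5), 1, false),
    ((1, 1, 4), (0, 1, 6), (1, 1, 18), 0, false), ((1, 1, 32), (1, 1, 18), (0, 1, 4), 2, true)],
    [((0, 1, 7), (0, 1, 3), (0, 1, 4), 2, false), ((1, 1, 25), (1, 1, 10), (0, 1, 3), 3, false),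
    ((1, 1, 31), (0, 1, 4), (1, 1, 18), 0, true), ((1, 1, 33), (1, 1, 18), (1, 1, 10), 3, false)],
    [((1, 1, 4), (1, 1, 18), (1, 1, 11), 0, true), ((1, 1, 26), (1, 1, 11), (1, 1, 10), 2, false),
    ((1, 1, 32), (1, 1, 10), (1, 1, 18), 2, false)]]]

def FC : List (List (List Tr)) :=
    [[[(2, 1, 15), (2, 1, 14), (1, 1, 6), (1, 1, 5)], [(2, 1, 14), (2, 1, 30), (2, 1, 23), (1, 1,
    6)], [(2, 1, 23), (2, 1, 24), (1, 1, 11), (1, 1, 4), (1, 2, 5), (1, 1, 6)], [(2, 1, 24), (2,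
    1, 25), (2, 1, 32), (1, 1, 7), (1, 1, 10), (1, 1, 11)], [(2, 1, 32), (2, 1, 31), (1, 1, 8),
    (1, 1, 7)], [(1, 1, 8), (2, 1, 31), (1, 1, 4), (1, 1, 9)], [(2, 1, 31), (2, 1, 4), (2, 2, 5),
    (2, 2, 20), (1, 2, 5), (1, 1, 4)], [(2, 1, 20), (2, 1, 16), (2, 1, 15), (1, 1, 5)], [], [],
    [], [], [], [], [], [], [], [(1, 1, 7), (1, 1, 8), (1, 1, 9), (1, 1, 10)], [(1, 1, 4), (1, 1,
    11), (1, 1, 10), (1, 1, 9)], [(1, 1, 5), (1, 1, 6), (1, 2, 5), (1, 2, 2), (1, 1, 3), (1, 1,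
    2)], [(1, 1, 2), (1, 1, 3), (1, 1, 1), (1, 1, 0)], [(1, 1, 3), (1, 2, 2), (1, 2, 0), (1, 1,
    1)]], [[(2, 1, 15), (2, 1, 14), (1, 1, 6), (1, 1, 5)], [(2, 1, 14), (2, 1, 30), (2, 1, 23),
    (1, 1, 6)], [(2, 1, 23), (2, 1, 24), (1, 1, 11), (1, 1, 13), (1, 1, 12), (1, 1, 6)], [(2, 1,
    24), (2, 1, 25), (2, 1, 32), (1, 1, 7), (1, 1, 10), (1, 1, 11)], [(2, 1, 32), (2, 1, 31), (1,
    1, 8), (1, 1, 7)], [(1, 1, 8), (2, 1, 31), (1, 1, 4), (1, 1, 9)], [(2, 1, 31), (2, 1, 4), (2,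
    2, 5), (2, 2, 20), (1, 2, 5), (1, 1, 4)], [(2, 1, 20), (2, 1, 16), (2, 1, 15), (1, 1, 5)],
    [(1, 1, 17), (1, 1, 29), (1, 1, 30), (1, 1, 14)], [(1, 1, 18), (1, 1, 28), (1, 1, 29), (1, 1,
    17)], [(1, 1, 33), (1, 1, 32), (1, 1, 25), (1, 1, 26)], [(1, 1, 27), (1, 1, 13), (1, 1, 33),
    (1, 1, 26)], [(1, 1, 12), (1, 1, 13), (1, 1, 27), (1, 1, 28), (1, 1, 18), (1, 1, 22)], [(1, 1,
    21), (1, 1, 22), (1, 1, 18), (1, 1, 19)], [(1, 1, 16), (1, 1, 19), (1, 1, 18), (1, 1, 17), (1,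
    1, 14), (1, 1, 15)], [(1, 1, 20), (1, 1, 21), (1, 1, 19), (1, 1, 16)], [(1, 1, 28), (1, 1,
    27), (1, 1, 26), (1, 1, 25), (1, 1, 24), (1, 1, 23), (1, 1, 30), (1, 1, 29)], [(1, 1, 10), (1,
    1, 7), (1, 1, 8), (1, 1, 9)], [(1, 1, 13), (1, 1, 11), (1, 1, 10), (1, 1, 9), (1, 1, 4), (1,
    1, 31), (1, 1, 32), (1, 1, 33)], [(1, 1, 5), (1, 1, 6), (1, 1, 12), (1, 1, 22), (1, 1, 21),
    (1, 1, 20)], [], []], [[], [], [], [], [], [], [], [], [(1, 1, 14), (1, 1, 17), (1, 1, 29),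
    (1, 1, 30)], [(1, 1, 18), (1, 1, 28), (1, 1, 29), (1, 1, 17)], [(1, 1, 25), (1, 1, 26), (1, 1,
    33), (1, 1, 32)], [(1, 1, 27), (1, 1, 4), (1, 1, 33), (1, 1, 26)], [(1, 1, 22), (1, 2, 5), (1,
    1, 4), (1, 1, 27), (1, 1, 28), (1, 1, 18)], [(1, 1, 21), (1, 1, 22), (1, 1, 18), (1, 1, 19)],
    [(1, 1, 16), (1, 1, 19), (1, 1, 18), (1, 1, 17), (1, 1, 14), (1, 1, 15)], [(1, 1, 20), (1, 1,
    21), (1, 1, 19), (1, 1, 16)], [(1, 1, 28), (1, 1, 27), (1, 1, 26), (1, 1, 25), (1, 1, 24), (1,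
    1, 23), (1, 1, 30), (1, 1, 29)], [], [(1, 1, 33), (1, 1, 4), (1, 1, 31), (1, 1, 32)], [], [],
    []]]

def RK : List (List (ℕ)) :=
    [[0, 0, 0, 0, 0, 1, 0, 0, 0, 0, 0, 0, 0, 0, 0, 0, 0, 1, 1, 1, 2, 2], [0, 0, 0, 0, 0, 1, 0, 0,
    3, 2, 2, 2, 1, 2, 3, 2, 2, 1, 1, 1, 0, 0], [0, 0, 0, 0, 0, 0, 0, 0, 3, 2, 3, 2, 1, 1, 2, 1, 2,
    0, 3, 0, 0, 0]]

def PT : List (List (Tr)) :=
    [[(1, 0, 1), (1, 1, 0), (1, 1, 0), (1, 1, 1), (1, 2, 5), (1, 1, 2), (1, 2, 5), (1, 1, 10), (1,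
    1, 9), (1, 1, 4), (1, 1, 9), (1, 1, 10), (1, 1, 0), (1, 1, 0), (1, 1, 0), (1, 1, 0), (1, 1,
    0), (1, 1, 0), (1, 1, 0), (1, 1, 0), (1, 1, 0), (1, 1, 0), (1, 1, 0), (1, 1, 0), (1, 1, 0),
    (1, 1, 0), (1, 1, 0), (1, 1, 0), (1, 1, 0), (1, 1, 0), (1, 1, 0), (1, 1, 0), (1, 1, 0), (1, 1,
    0)], [(1, 1, 0), (1, 1, 0), (1, 1, 0), (1, 1, 0), (1, 2, 5), (1, 1, 20), (1, 1, 12), (1, 1,
    8), (1, 1, 9), (1, 1, 4), (1, 1, 9), (1, 1, 10), (1, 1, 22), (1, 1, 33), (0, 1, 6), (0, 1, 5),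
    (1, 1, 15), (1, 1, 14), (1, 1, 17), (1, 1, 18), (0, 1, 5), (1, 1, 19), (1, 1, 18), (0, 1, 6),
    (0, 1, 11), (1, 1, 32), (1, 1, 25), (1, 1, 26), (1, 1, 29), (1, 1, 30), (1, 1, 23), (0, 1, 4),
    (0, 1, 7), (1, 1, 26)], [(1, 1, 0), (1, 1, 0), (1, 1, 0), (1, 1, 0), (1, 2, 5), (1, 1, 20),
    (1, 1, 0), (1, 1, 0), (1, 1, 0), (1, 1, 0), (1, 1, 0), (1, 1, 0), (1, 1, 0), (1, 1, 0), (0, 1,
    6), (0, 1, 5), (1, 1, 15), (1, 1, 29), (1, 1, 17), (1, 1, 18), (0, 1, 5), (1, 1, 19), (1, 1,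
    18), (0, 1, 6), (0, 1, 11), (1, 1, 32), (1, 1, 33), (1, 1, 26), (1, 1, 29), (1, 1, 30), (1, 1,
    23), (0, 1, 4), (0, 1, 7), (1, 1, 32)]]

def VR : List (List (ℕ)) :=
    [[0, 0, 1, 1, 3, 2, 3, 6, 5, 4, 5, 6, 0, 0, 0, 0, 0, 0, 0, 0, 0, 0, 0, 0, 0, 0, 0, 0, 0, 0, 0,
    0, 0, 0], [0, 0, 0, 0, 3, 2, 6, 6, 5, 4, 5, 6, 5, 5, 1, 1, 2, 2, 3, 4, 1, 5, 4, 1, 1, 2, 3, 4,
    4, 3, 2, 1, 1, 4], [0, 0, 0, 0, 3, 2, 0, 0, 0, 0, 0, 0, 0, 0, 1, 1, 2, 4, 5, 6, 1, 7, 6, 1, 1,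
    2, 3, 4, 4, 3, 2, 1, 1, 2]]

def COL : List Bool :=
    [false, true, true, false, true, false, true, false, true, false, true, false, false, true,
    false, true, false, true, false, true, true, false, true, false, true, false, true, false,
    true, false, true, false, true, false]

def HP : List (List (List ℕ)) :=
    [[[2, 5], [0, 2, 5], [5], [2, 5], [], [], [5], [], [], [], [], [], [], [], [], [], [], [], [],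
    [], [], [], [], [], [], [], [], [], [], [], [], [], [], []], [[], [], [], [], [9, 10, 11, 13,
    12, 6, 5], [], [5], [10, 11, 13, 12, 6, 5], [7, 10, 11, 13, 12, 6, 5], [10, 11, 13, 12, 6, 5],
    [11, 13, 12, 6, 5], [13, 12, 6, 5], [6, 5], [12, 6, 5], [15, 16, 20, 5], [16, 20, 5], [20, 5],
    [18, 22, 12, 6, 5], [22, 12, 6, 5], [16, 20, 5], [5], [20, 5], [12, 6, 5], [30, 14, 15, 16,
    20, 5], [25, 26, 27, 13, 12, 6, 5], [26, 27, 13, 12, 6, 5], [27, 13, 12, 6, 5], [13, 12, 6,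
    5], [27, 13, 12, 6, 5], [28, 27, 13, 12, 6, 5], [14, 15, 16, 20, 5], [32, 33, 13, 12, 6, 5],
    [33, 13, 12, 6, 5], [13, 12, 6, 5]], [[], [], [], [], [27, 28, 18, 19, 16, 20, 5], [], [], [],
    [], [], [], [], [], [], [15, 16, 20, 5], [16, 20, 5], [20, 5], [14, 15, 16, 20, 5], [19, 16,
    20, 5], [16, 20, 5], [5], [20, 5], [21, 20, 5], [30, 14, 15, 16, 20, 5], [23, 30, 14, 15, 16,
    20, 5], [24, 23, 30, 14, 15, 16, 20, 5], [27, 28, 18, 19, 16, 20, 5], [28, 18, 19, 16, 20, 5],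
    [18, 19, 16, 20, 5], [17, 14, 15, 16, 20, 5], [14, 15, 16, 20, 5], [4, 27, 28, 18, 19, 16, 20,
    5], [25, 24, 23, 30, 14, 15, 16, 20, 5], [4, 27, 28, 18, 19, 16, 20, 5]]]

def FAN : List (List (List (List Tr × Tr))) :=
    [[[([], (1, 0, 1)), ([(1, 1, 1)], (1, 2, 0)), ([(1, 1, 2), (1, 1, 5)], (2, 1, 15))], [([(1, 1,
    0)], (1, 0, 1)), ([(1, 1, 3), (1, 1, 2), (1, 1, 5)], (2, 1, 15)), ([], (1, 2, 0))], [([], (1,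
    0, 3)), ([(1, 1, 3)], (1, 2, 2)), ([(1, 1, 5)], (2, 1, 15))], [([(1, 1, 1), (1, 1, 0)], (1, 0,
    1)), ([(1, 1, 2), (1, 1, 5)], (2, 1, 15)), ([], (1, 2, 2))], [([(1, 1, 11), (2, 1, 24), (2, 1,
    23), (1, 1, 6), (1, 1, 5)], (1, 0, 6)), ([], (1, 2, 5)), ([(2, 1, 31), (2, 1, 4)], (2, 2,
    5))], [([], (1, 0, 6)), ([(1, 1, 6)], (1, 2, 5)), ([], (2, 1, 15))], [([(1, 1, 5)], (1, 0,
    6)), ([], (1, 2, 5)), ([], (2, 1, 14))], [([(1, 1, 10), (1, 1, 11), (1, 1, 4)], (1, 2, 5)),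
    ([(1, 1, 8), (2, 1, 31), (2, 1, 4)], (2, 2, 5)), ([(2, 1, 32), (2, 1, 25), (2, 1, 24), (2, 1,
    23), (1, 1, 6), (1, 1, 5)], (1, 0, 6))], [([(1, 1, 7), (1, 1, 10), (1, 1, 11), (2, 1, 24), (2,
    1, 23), (1, 1, 6), (1, 1, 5)], (1, 0, 6)), ([(1, 1, 9), (1, 1, 4)], (1, 2, 5)), ([(2, 1, 31),
    (2, 1, 4)], (2, 2, 5))], [([(1, 1, 10), (1, 1, 11), (2, 1, 24), (2, 1, 23), (1, 1, 6), (1, 1,
    5)], (1, 0, 6)), ([(1, 1, 4)], (1, 2, 5)), ([(1, 1, 8), (2, 1, 31), (2, 1, 4)], (2, 2, 5))],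
    [([(1, 1, 11), (2, 1, 24), (2, 1, 23), (1, 1, 6), (1, 1, 5)], (1, 0, 6)), ([(1, 1, 7), (1, 1,
    8), (2, 1, 31), (2, 1, 4)], (2, 2, 5)), ([(1, 1, 9), (1, 1, 4)], (1, 2, 5))], [([(1, 1, 10),
    (1, 1, 7), (1, 1, 8), (2, 1, 31), (2, 1, 4)], (2, 2, 5)), ([(1, 1, 4)], (1, 2, 5)), ([(2, 1,
    24), (2, 1, 23), (1, 1, 6), (1, 1, 5)], (1, 0, 6))], [], [], [], [], [], [], [], [], [], [],
    [], [], [], [], [], [], [], [], [], [], [], []], [[], [], [], [], [([(1, 1, 31), (0, 1, 4)],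
    (0, 2, 5)), ([], (1, 2, 5)), ([], (2, 1, 31))], [([], (1, 0, 4)), ([(1, 1, 20)], (0, 1, 5)),
    ([], (2, 1, 15))], [([(1, 1, 12), (1, 1, 22), (1, 1, 21), (1, 1, 20)], (0, 1, 5)), ([(1, 1,
    5)], (1, 0, 4)), ([], (2, 1, 14))], [([(1, 1, 10), (1, 1, 11), (1, 1, 13), (1, 1, 12), (1, 1,
    6), (1, 1, 5)], (1, 0, 4)), ([(1, 1, 8), (1, 1, 9), (1, 1, 4)], (1, 2, 5)), ([], (2, 1, 32))],
    [([(1, 1, 7), (1, 1, 10), (1, 1, 11), (1, 1, 13), (1, 1, 12), (1, 1, 6), (1, 1, 5)], (1, 0,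
    4)), ([(1, 1, 9), (1, 1, 4)], (1, 2, 5)), ([], (2, 1, 31))], [([(1, 1, 10), (1, 1, 11), (1, 1,
    13), (1, 1, 12), (1, 1, 6), (1, 1, 5)], (1, 0, 4)), ([(1, 1, 4)], (1, 2, 5)), ([(1, 1, 8)],
    (2, 1, 31))], [([(1, 1, 11), (1, 1, 13), (1, 1, 12), (1, 1, 6), (1, 1, 5)], (1, 0, 4)), ([(1,
    1, 7)], (2, 1, 32)), ([(1, 1, 9), (1, 1, 4)], (1, 2, 5))], [([(1, 1, 10), (1, 1, 9), (1, 1,
    4)], (1, 2, 5)), ([(1, 1, 13), (1, 1, 12), (1, 1, 6), (1, 1, 5)], (1, 0, 4)), ([], (2, 1,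
    24))], [([(1, 1, 13), (1, 1, 11)], (2, 1, 24)), ([(1, 1, 22), (1, 1, 21), (1, 1, 20)], (0, 1,
    5)), ([(1, 1, 6), (1, 1, 5)], (1, 0, 4))], [([(1, 1, 11)], (2, 1, 24)), ([(1, 1, 12), (1, 1,
    6), (1, 1, 5)], (1, 0, 4)), ([(1, 1, 33), (1, 1, 32), (1, 1, 31), (0, 1, 4)], (0, 2, 5))],
    [([(0, 1, 6)], (0, 2, 5)), ([(1, 1, 15), (0, 1, 5)], (0, 0, 6)), ([(1, 1, 17), (1, 1, 18), (1,
    1, 22), (1, 1, 12), (1, 1, 6)], (2, 1, 14))], [([(0, 1, 5)], (0, 0, 6)), ([(1, 1, 14), (0, 1,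
    6)], (0, 2, 5)), ([(1, 1, 16), (1, 1, 20), (1, 1, 5)], (1, 0, 4))], [([(1, 1, 15)], (0, 1,
    5)), ([(1, 1, 19), (1, 1, 18), (1, 1, 22), (1, 1, 12), (1, 1, 6)], (2, 1, 14)), ([(1, 1, 20),
    (1, 1, 5)], (1, 0, 4))], [([(1, 1, 14), (1, 1, 15), (0, 1, 5)], (0, 0, 6)), ([(1, 1, 18), (1,
    1, 22), (1, 1, 12), (1, 1, 6)], (2, 1, 14)), ([(1, 1, 29), (1, 1, 30), (1, 1, 23), (0, 1, 6)],
    (0, 2, 5))], [([(1, 1, 17), (1, 1, 14)], (0, 1, 6)), ([(1, 1, 19), (1, 1, 16), (1, 1, 20), (1,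
    1, 5)], (1, 0, 4)), ([(1, 1, 22), (1, 1, 12), (1, 1, 6)], (2, 1, 14))], [([(1, 1, 16), (1, 1,
    15)], (0, 1, 5)), ([(1, 1, 18), (1, 1, 22), (1, 1, 12), (1, 1, 6)], (2, 1, 14)), ([(1, 1, 21),
    (1, 1, 20), (1, 1, 5)], (1, 0, 4))], [([], (0, 1, 5)), ([(1, 1, 21), (1, 1, 22), (1, 1, 12),
    (1, 1, 6)], (2, 1, 14)), ([(1, 1, 5)], (1, 0, 4))], [([(1, 1, 19), (1, 1, 16), (1, 1, 15)],
    (0, 1, 5)), ([(1, 1, 20), (1, 1, 5)], (1, 0, 4)), ([(1, 1, 22), (1, 1, 12), (1, 1, 6)], (2, 1,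
    14))], [([(1, 1, 12), (1, 1, 6)], (2, 1, 14)), ([(1, 1, 18), (1, 1, 17), (1, 1, 14), (0, 1,
    6)], (0, 2, 5)), ([(1, 1, 21), (1, 1, 20), (0, 1, 5)], (0, 0, 6))], [([(0, 1, 6)], (0, 2, 5)),
    ([(1, 1, 24), (0, 1, 11), (0, 1, 4), (1, 1, 31), (1, 1, 4)], (1, 2, 5)), ([(1, 1, 30), (1, 1,
    14), (1, 1, 15), (0, 1, 5)], (0, 0, 6))], [([(0, 1, 11), (0, 1, 4)], (0, 2, 5)), ([(1, 1, 23),
    (0, 1, 6), (0, 1, 5)], (0, 0, 6)), ([(1, 1, 25), (1, 1, 32), (1, 1, 31), (1, 1, 4)], (1, 2,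
    5))], [([(1, 1, 24), (1, 1, 23)], (0, 1, 6)), ([(1, 1, 26), (1, 1, 27), (1, 1, 13), (1, 1,
    11)], (2, 1, 24)), ([(1, 1, 32), (1, 1, 31), (1, 1, 4)], (1, 2, 5))], [([(1, 1, 25), (1, 1,
    24), (1, 1, 23)], (0, 1, 6)), ([(1, 1, 27), (1, 1, 13), (1, 1, 11)], (2, 1, 24)), ([(1, 1,
    33), (1, 1, 32), (1, 1, 31), (1, 1, 4)], (1, 2, 5))], [([(1, 1, 13), (1, 1, 11)], (2, 1, 24)),
    ([(1, 1, 26), (1, 1, 25), (1, 1, 32), (1, 1, 31), (1, 1, 4)], (1, 2, 5)), ([(1, 1, 28), (1, 1,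
    29), (1, 1, 30), (1, 1, 23)], (0, 1, 6))], [([(1, 1, 18), (1, 1, 19), (1, 1, 16), (1, 1, 20),
    (1, 1, 5)], (1, 0, 4)), ([(1, 1, 27), (1, 1, 13), (1, 1, 11)], (2, 1, 24)), ([(1, 1, 29), (1,
    1, 17), (1, 1, 14)], (0, 1, 6))], [([(1, 1, 17), (1, 1, 14), (1, 1, 15), (0, 1, 5)], (0, 0,
    6)), ([(1, 1, 28), (1, 1, 27), (1, 1, 13), (1, 1, 11)], (2, 1, 24)), ([(1, 1, 30), (1, 1, 23),
    (0, 1, 6)], (0, 2, 5))], [([(1, 1, 14), (1, 1, 15), (0, 1, 5)], (0, 0, 6)), ([(1, 1, 23), (0,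
    1, 6)], (0, 2, 5)), ([(1, 1, 29), (1, 1, 28), (1, 1, 27), (1, 1, 13), (1, 1, 11)], (2, 1,
    24))], [([(0, 1, 4)], (0, 2, 5)), ([(1, 1, 32), (1, 1, 33), (1, 1, 13), (1, 1, 11)], (2, 1,
    24)), ([(1, 1, 4)], (1, 2, 5))], [([(1, 1, 25), (1, 1, 24), (1, 1, 23)], (0, 1, 6)), ([(1, 1,
    31), (1, 1, 4)], (1, 2, 5)), ([(1, 1, 33), (1, 1, 13), (1, 1, 11)], (2, 1, 24))], [([(1, 1,
    13), (1, 1, 11)], (2, 1, 24)), ([(1, 1, 26), (1, 1, 25), (1, 1, 24), (1, 1, 23)], (0, 1, 6)),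
    ([(1, 1, 32), (1, 1, 31), (1, 1, 4)], (1, 2, 5))]], [[], [], [], [], [([(1, 1, 31)], (0, 1,
    4)), ([], (1, 2, 5)), ([], (2, 1, 31))], [([], (1, 0, 4)), ([(1, 1, 20)], (0, 1, 5)), ([], (2,
    1, 15))], [([(1, 1, 12), (1, 1, 13), (1, 1, 33), (1, 1, 32)], (0, 1, 7)), ([(1, 1, 5)], (1, 0,
    4)), ([], (2, 1, 14))], [([(1, 1, 10), (1, 1, 11), (1, 1, 13), (1, 1, 33), (1, 1, 32)], (0, 1,
    7)), ([(1, 1, 8), (1, 1, 9), (1, 1, 4)], (1, 2, 5)), ([], (2, 1, 32))], [([(1, 1, 7), (1, 1,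
    10), (1, 1, 11), (1, 1, 13), (1, 1, 33), (1, 1, 32)], (0, 1, 7)), ([(1, 1, 9), (1, 1, 4)], (1,
    2, 5)), ([], (2, 1, 31))], [([(1, 1, 10), (1, 1, 11), (1, 1, 13), (1, 1, 33), (1, 1, 32)], (0,
    1, 7)), ([(1, 1, 4)], (1, 2, 5)), ([(1, 1, 8)], (2, 1, 31))], [([(1, 1, 11), (1, 1, 13), (1,
    1, 33), (1, 1, 32)], (0, 1, 7)), ([(1, 1, 7)], (2, 1, 32)), ([(1, 1, 9), (1, 1, 4)], (1, 2,
    5))], [([(1, 1, 10), (1, 1, 9), (1, 1, 4)], (1, 2, 5)), ([(1, 1, 13), (1, 1, 33), (1, 1, 32)],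
    (0, 1, 7)), ([], (2, 1, 24))], [([(1, 1, 13), (1, 1, 11)], (2, 1, 24)), ([(1, 1, 22), (1, 1,
    21), (1, 1, 20), (0, 1, 5)], (0, 0, 4)), ([(1, 1, 6), (1, 1, 5)], (1, 0, 4))], [([(1, 1, 11)],
    (2, 1, 24)), ([(1, 1, 12), (1, 1, 6), (1, 1, 5)], (1, 0, 4)), ([(1, 1, 33), (1, 1, 32)], (0,
    1, 7))], [([], (0, 1, 6)), ([(1, 1, 15), (1, 1, 16), (1, 1, 20), (1, 1, 5)], (1, 0, 4)), ([(1,
    1, 17), (1, 1, 18), (1, 1, 22), (1, 1, 12), (1, 1, 6)], (2, 1, 14))], [([], (0, 1, 5)), ([(1,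
    1, 14), (1, 1, 17), (1, 1, 18), (1, 1, 22), (1, 1, 12), (1, 1, 6)], (2, 1, 14)), ([(1, 1, 16),
    (1, 1, 20), (1, 1, 5)], (1, 0, 4))], [([(1, 1, 15)], (0, 1, 5)), ([(1, 1, 19), (1, 1, 18), (1,
    1, 22), (1, 1, 12), (1, 1, 6)], (2, 1, 14)), ([(1, 1, 20), (1, 1, 5)], (1, 0, 4))], [([(1, 1,
    14)], (0, 1, 6)), ([(1, 1, 18), (1, 1, 22), (1, 1, 21), (1, 1, 20), (1, 1, 5)], (1, 0, 4)),
    ([(1, 1, 29), (1, 1, 28), (1, 1, 27), (1, 1, 13), (1, 1, 12), (1, 1, 6)], (2, 1, 14))], [([(1,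
    1, 17), (1, 1, 14)], (0, 1, 6)), ([(1, 1, 19), (1, 1, 16), (1, 1, 20), (1, 1, 5)], (1, 0, 4)),
    ([(1, 1, 22), (1, 1, 12), (1, 1, 6)], (2, 1, 14))], [([(1, 1, 16), (1, 1, 15)], (0, 1, 5)),
    ([(1, 1, 18), (1, 1, 22), (1, 1, 12), (1, 1, 6)], (2, 1, 14)), ([(1, 1, 21), (1, 1, 20), (1,
    1, 5)], (1, 0, 4))], [([], (0, 1, 5)), ([(1, 1, 21), (1, 1, 22), (1, 1, 12), (1, 1, 6)], (2,
    1, 14)), ([(1, 1, 5)], (1, 0, 4))], [([(1, 1, 19), (1, 1, 16), (1, 1, 15)], (0, 1, 5)), ([(1,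
    1, 20), (1, 1, 5)], (1, 0, 4)), ([(1, 1, 22), (1, 1, 12), (1, 1, 6)], (2, 1, 14))], [([(1, 1,
    12), (1, 1, 6)], (2, 1, 14)), ([(1, 1, 18), (1, 1, 17), (1, 1, 14), (1, 1, 15)], (0, 1, 5)),
    ([(1, 1, 21), (1, 1, 20), (1, 1, 5)], (1, 0, 4))], [([], (0, 1, 6)), ([(1, 1, 24), (1, 1, 25),
    (1, 1, 32), (1, 1, 31), (1, 1, 4)], (1, 2, 5)), ([(1, 1, 30), (1, 1, 14), (1, 1, 15), (1, 1,
    16), (1, 1, 20), (1, 1, 5)], (1, 0, 4))], [([(0, 1, 11), (0, 1, 10), (0, 1, 9), (0, 1, 4)],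
    (0, 2, 5)), ([(1, 1, 23), (0, 1, 6), (0, 1, 5)], (0, 0, 4)), ([(1, 1, 25), (1, 1, 32), (1, 1,
    31), (1, 1, 4)], (1, 2, 5))], [([(1, 1, 24)], (0, 1, 11)), ([(1, 1, 26), (1, 1, 27), (1, 1,
    13), (1, 1, 11)], (2, 1, 24)), ([(1, 1, 32), (1, 1, 31), (1, 1, 4)], (1, 2, 5))], [([(1, 1,
    25), (1, 1, 24)], (0, 1, 11)), ([(1, 1, 27), (1, 1, 13), (1, 1, 11)], (2, 1, 24)), ([(1, 1,
    33), (1, 1, 32), (1, 1, 31), (1, 1, 4)], (1, 2, 5))], [([(1, 1, 13), (1, 1, 11)], (2, 1, 24)),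
    ([(1, 1, 26), (1, 1, 25), (1, 1, 24)], (0, 1, 11)), ([(1, 1, 28), (1, 1, 18), (1, 1, 19), (1,
    1, 16), (1, 1, 20), (1, 1, 5)], (1, 0, 4))], [([(1, 1, 18), (1, 1, 19), (1, 1, 16), (1, 1,
    20), (1, 1, 5)], (1, 0, 4)), ([(1, 1, 27), (1, 1, 13), (1, 1, 11)], (2, 1, 24)), ([(1, 1, 29),
    (1, 1, 17), (1, 1, 14)], (0, 1, 6))], [([(1, 1, 17), (1, 1, 18), (1, 1, 19), (1, 1, 16), (1,
    1, 20), (1, 1, 5)], (1, 0, 4)), ([(1, 1, 28), (1, 1, 27), (1, 1, 13), (1, 1, 11)], (2, 1,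
    24)), ([(1, 1, 30), (1, 1, 14)], (0, 1, 6))], [([(1, 1, 14), (1, 1, 15), (1, 1, 16), (1, 1,
    20), (1, 1, 5)], (1, 0, 4)), ([(1, 1, 23)], (0, 1, 6)), ([(1, 1, 29), (1, 1, 28), (1, 1, 27),
    (1, 1, 13), (1, 1, 11)], (2, 1, 24))], [([], (0, 1, 4)), ([(1, 1, 32), (1, 1, 33), (1, 1, 13),
    (1, 1, 11)], (2, 1, 24)), ([(1, 1, 4)], (1, 2, 5))], [([], (0, 1, 7)), ([(1, 1, 31), (1, 1,
    4)], (1, 2, 5)), ([(1, 1, 33), (1, 1, 13), (1, 1, 11)], (2, 1, 24))], [([(1, 1, 13), (1, 1,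
    11)], (2, 1, 24)), ([(1, 1, 26), (1, 1, 25), (1, 1, 24)], (0, 1, 11)), ([(1, 1, 32), (1, 1,
    31), (1, 1, 4)], (1, 2, 5))]], [[], [], [], [], [([(1, 1, 27), (1, 1, 26), (1, 1, 25), (1, 1,
    24), (1, 1, 23), (0, 1, 6), (0, 1, 5)], (0, 0, 6)), ([(1, 1, 31), (0, 1, 4)], (0, 2, 5)), ([],
    (1, 2, 5))], [], [], [], [], [], [], [], [], [], [([(0, 1, 6)], (0, 2, 5)), ([(1, 1, 15), (0,
    1, 5)], (0, 0, 6)), ([(1, 1, 17), (1, 1, 18), (1, 1, 22)], (1, 2, 5))], [([(0, 1, 5)], (0, 0,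
    6)), ([(1, 1, 14), (0, 1, 6)], (0, 2, 5)), ([(1, 1, 16), (1, 1, 20), (1, 1, 5)], (1, 0, 22))],
    [([(1, 1, 15)], (0, 1, 5)), ([(1, 1, 19), (1, 1, 18), (1, 1, 22)], (1, 2, 5)), ([(1, 1, 20),
    (1, 1, 5)], (1, 0, 22))], [([(1, 1, 14), (1, 1, 15), (0, 1, 5)], (0, 0, 6)), ([(1, 1, 18), (1,
    1, 22)], (1, 2, 5)), ([(1, 1, 29), (1, 1, 30), (1, 1, 23), (0, 1, 6)], (0, 2, 5))], [([(1, 1,
    17), (1, 1, 14)], (0, 1, 6)), ([(1, 1, 19), (1, 1, 16), (1, 1, 20), (1, 1, 5)], (1, 0, 22)),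
    ([(1, 1, 22)], (1, 2, 5))], [([(1, 1, 16), (1, 1, 15)], (0, 1, 5)), ([(1, 1, 18), (1, 1, 22)],
    (1, 2, 5)), ([(1, 1, 21), (1, 1, 20), (1, 1, 5)], (1, 0, 22))], [([], (0, 1, 5)), ([(1, 1,
    21), (1, 1, 22)], (1, 2, 5)), ([(1, 1, 5)], (1, 0, 22))], [([(1, 1, 19), (1, 1, 16), (1, 1,
    15)], (0, 1, 5)), ([(1, 1, 20), (1, 1, 5)], (1, 0, 22)), ([(1, 1, 22)], (1, 2, 5))], [([(1, 1,
    18), (1, 1, 17), (1, 1, 14), (0, 1, 6)], (0, 2, 5)), ([(1, 1, 21), (1, 1, 20), (0, 1, 5)], (0,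
    0, 6)), ([], (1, 2, 5))], [([(0, 1, 6)], (0, 2, 5)), ([(1, 1, 24), (0, 1, 11), (0, 1, 4), (1,
    1, 31), (1, 1, 4)], (1, 2, 5)), ([(1, 1, 30), (1, 1, 14), (1, 1, 15), (0, 1, 5)], (0, 0, 6))],
    [([(0, 1, 11), (0, 1, 4)], (0, 2, 5)), ([(1, 1, 23), (0, 1, 6), (0, 1, 5)], (0, 0, 6)), ([(1,
    1, 25), (1, 1, 26), (1, 1, 27), (1, 1, 4)], (1, 2, 5))], [([(1, 1, 24), (1, 1, 23), (0, 1, 6),
    (0, 1, 5)], (0, 0, 6)), ([(1, 1, 26), (1, 1, 27), (1, 1, 4)], (1, 2, 5)), ([(1, 1, 32), (0, 1,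
    7), (0, 1, 10), (0, 1, 11), (0, 1, 4)], (0, 2, 5))], [([(1, 1, 25), (1, 1, 24), (1, 1, 23)],
    (0, 1, 6)), ([(1, 1, 27), (1, 1, 28), (1, 1, 18), (1, 1, 19), (1, 1, 16), (1, 1, 20), (1, 1,
    5)], (1, 0, 22)), ([(1, 1, 33), (1, 1, 4)], (1, 2, 5))], [([(1, 1, 26), (1, 1, 25), (1, 1,
    24), (1, 1, 23)], (0, 1, 6)), ([(1, 1, 28), (1, 1, 18), (1, 1, 19), (1, 1, 16), (1, 1, 20),
    (1, 1, 5)], (1, 0, 22)), ([(1, 1, 4)], (1, 2, 5))], [([(1, 1, 18), (1, 1, 22), (1, 1, 21), (1,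
    1, 20), (1, 1, 5)], (1, 0, 22)), ([(1, 1, 27), (1, 1, 4)], (1, 2, 5)), ([(1, 1, 29), (1, 1,
    17), (1, 1, 14)], (0, 1, 6))], [([(1, 1, 17), (1, 1, 14), (1, 1, 15), (0, 1, 5)], (0, 0, 6)),
    ([(1, 1, 28), (1, 1, 18), (1, 1, 22)], (1, 2, 5)), ([(1, 1, 30), (1, 1, 23), (0, 1, 6)], (0,
    2, 5))], [([(1, 1, 14), (1, 1, 15), (0, 1, 5)], (0, 0, 6)), ([(1, 1, 23), (0, 1, 6)], (0, 2,
    5)), ([(1, 1, 29), (1, 1, 17), (1, 1, 18), (1, 1, 22)], (1, 2, 5))], [([(0, 1, 4)], (0, 2,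
    5)), ([(1, 1, 32), (1, 1, 25), (1, 1, 24), (1, 1, 23), (0, 1, 6), (0, 1, 5)], (0, 0, 6)),
    ([(1, 1, 4)], (1, 2, 5))], [([(1, 1, 25), (1, 1, 24), (1, 1, 23), (0, 1, 6), (0, 1, 5)], (0,
    0, 6)), ([(1, 1, 31), (0, 1, 4)], (0, 2, 5)), ([(1, 1, 33), (1, 1, 4)], (1, 2, 5))], [([(1, 1,
    26), (1, 1, 25), (1, 1, 24), (1, 1, 23), (0, 1, 6), (0, 1, 5)], (0, 0, 6)), ([(1, 1, 32), (1,
    1, 31), (0, 1, 4)], (0, 2, 5)), ([(1, 1, 4)], (1, 2, 5))]], [[], [], [], [], [([(1, 1, 27),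
    (1, 1, 28), (1, 1, 18), (1, 1, 19), (1, 1, 16), (1, 1, 20), (1, 1, 5)], (1, 0, 22)), ([(1, 1,
    31)], (0, 1, 4)), ([], (1, 2, 5))], [], [], [], [], [], [], [], [], [], [([], (0, 1, 6)),
    ([(1, 1, 15), (1, 1, 16), (1, 1, 20), (1, 1, 5)], (1, 0, 22)), ([(1, 1, 17), (1, 1, 18), (1,
    1, 22)], (1, 2, 5))], [([], (0, 1, 5)), ([(1, 1, 14), (1, 1, 17), (1, 1, 18), (1, 1, 22)], (1,
    2, 5)), ([(1, 1, 16), (1, 1, 20), (1, 1, 5)], (1, 0, 22))], [([(1, 1, 15)], (0, 1, 5)), ([(1,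
    1, 19), (1, 1, 18), (1, 1, 22)], (1, 2, 5)), ([(1, 1, 20), (1, 1, 5)], (1, 0, 22))], [([(1, 1,
    14)], (0, 1, 6)), ([(1, 1, 18), (1, 1, 22), (1, 1, 21), (1, 1, 20), (1, 1, 5)], (1, 0, 22)),
    ([(1, 1, 29), (1, 1, 28), (1, 1, 27), (1, 1, 4)], (1, 2, 5))], [([(1, 1, 17), (1, 1, 14)], (0,
    1, 6)), ([(1, 1, 19), (1, 1, 16), (1, 1, 20), (1, 1, 5)], (1, 0, 22)), ([(1, 1, 22)], (1, 2,
    5))], [([(1, 1, 16), (1, 1, 15)], (0, 1, 5)), ([(1, 1, 18), (1, 1, 22)], (1, 2, 5)), ([(1, 1,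
    21), (1, 1, 20), (1, 1, 5)], (1, 0, 22))], [([], (0, 1, 5)), ([(1, 1, 21), (1, 1, 22)], (1, 2,
    5)), ([(1, 1, 5)], (1, 0, 22))], [([(1, 1, 19), (1, 1, 16), (1, 1, 15)], (0, 1, 5)), ([(1, 1,
    20), (1, 1, 5)], (1, 0, 22)), ([(1, 1, 22)], (1, 2, 5))], [([(1, 1, 18), (1, 1, 17), (1, 1,
    14), (1, 1, 15)], (0, 1, 5)), ([(1, 1, 21), (1, 1, 20), (1, 1, 5)], (1, 0, 22)), ([], (1, 2,
    5))], [([], (0, 1, 6)), ([(1, 1, 24), (1, 1, 25), (1, 1, 26), (1, 1, 27), (1, 1, 4)], (1, 2,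
    5)), ([(1, 1, 30), (1, 1, 14), (1, 1, 15), (1, 1, 16), (1, 1, 20), (1, 1, 5)], (1, 0, 22))],
    [([(0, 1, 11), (0, 1, 10), (0, 1, 9), (0, 1, 4)], (0, 2, 5)), ([(1, 1, 23), (0, 1, 6), (0, 1,
    5)], (0, 0, 4)), ([(1, 1, 25), (1, 1, 26), (1, 1, 27), (1, 1, 4)], (1, 2, 5))], [([(1, 1, 24),
    (1, 1, 23), (0, 1, 6), (0, 1, 5)], (0, 0, 4)), ([(1, 1, 26), (1, 1, 27), (1, 1, 4)], (1, 2,
    5)), ([(1, 1, 32), (1, 1, 31), (0, 1, 4)], (0, 2, 5))], [([(1, 1, 25), (1, 1, 24), (1, 1, 23),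
    (0, 1, 6), (0, 1, 5)], (0, 0, 4)), ([(1, 1, 27), (1, 1, 4)], (1, 2, 5)), ([(1, 1, 33), (1, 1,
    32), (1, 1, 31), (0, 1, 4)], (0, 2, 5))], [([(1, 1, 26), (1, 1, 25), (1, 1, 24)], (0, 1, 11)),
    ([(1, 1, 28), (1, 1, 18), (1, 1, 19), (1, 1, 16), (1, 1, 20), (1, 1, 5)], (1, 0, 22)), ([(1,
    1, 4)], (1, 2, 5))], [([(1, 1, 18), (1, 1, 22)], (1, 2, 5)), ([(1, 1, 27), (1, 1, 4), (1, 1,
    31), (0, 1, 4)], (0, 2, 5)), ([(1, 1, 29), (1, 1, 17), (1, 1, 14), (0, 1, 6), (0, 1, 5)], (0,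
    0, 4))], [([(1, 1, 17), (1, 1, 14), (1, 1, 15), (1, 1, 16), (1, 1, 20), (1, 1, 5)], (1, 0,
    22)), ([(1, 1, 28), (1, 1, 18), (1, 1, 22)], (1, 2, 5)), ([(1, 1, 30), (1, 1, 23)], (0, 1,
    6))], [([(1, 1, 14), (1, 1, 15), (1, 1, 16), (1, 1, 20), (1, 1, 5)], (1, 0, 22)), ([(1, 1,
    23)], (0, 1, 6)), ([(1, 1, 29), (1, 1, 17), (1, 1, 18), (1, 1, 22)], (1, 2, 5))], [([(0, 1,
    4)], (0, 2, 5)), ([(1, 1, 32), (1, 1, 25), (1, 1, 24), (1, 1, 23), (0, 1, 6), (0, 1, 5)], (0,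
    0, 4)), ([(1, 1, 4)], (1, 2, 5))], [([(1, 1, 25), (1, 1, 24), (1, 1, 23), (0, 1, 6), (0, 1,
    5)], (0, 0, 4)), ([(1, 1, 31), (0, 1, 4)], (0, 2, 5)), ([(1, 1, 33), (1, 1, 4)], (1, 2, 5))],
    [([(1, 1, 26), (1, 1, 25), (1, 1, 24), (1, 1, 23), (0, 1, 6), (0, 1, 5)], (0, 0, 4)), ([(1, 1,
    32), (1, 1, 31), (0, 1, 4)], (0, 2, 5)), ([(1, 1, 4)], (1, 2, 5))]]]

def AL : List (List (Tr × Tr)) :=
    [[((1, 0, 6), (1, 0, 2)), ((1, 1, 0), (1, 1, 7)), ((1, 1, 3), (1, 1, 2)), ((1, 1, 4), (1, 1,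
    3)), ((1, 1, 7), (1, 0, 6))], [((0, 1, 0), (0, 1, 1)), ((0, 1, 1), (0, 1, 2)), ((0, 1, 1), (1,
    1, 8)), ((0, 1, 3), (1, 1, 10)), ((0, 1, 4), (0, 1, 5)), ((0, 1, 5), (0, 1, 6)), ((1, 0, 6),
    (0, 0, 6)), ((1, 1, 0), (1, 1, 7)), ((1, 1, 3), (1, 1, 2)), ((1, 1, 4), (1, 1, 3)), ((1, 1,
    7), (1, 0, 6)), ((1, 1, 9), (1, 1, 8)), ((1, 1, 9), (1, 1, 12)), ((1, 1, 11), (1, 1, 10)),
    ((1, 1, 11), (1, 1, 12)), ((1, 1, 12), (1, 1, 2)), ((1, 1, 12), (1, 1, 13))], [((0, 1, 0), (0,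
    1, 1)), ((0, 1, 1), (0, 1, 2)), ((0, 1, 1), (1, 1, 8)), ((0, 1, 3), (1, 1, 10)), ((0, 1, 4),
    (0, 1, 5)), ((0, 1, 5), (0, 1, 6)), ((1, 0, 12), (0, 0, 6)), ((1, 1, 9), (1, 1, 8)), ((1, 1,
    9), (1, 1, 12)), ((1, 1, 11), (1, 1, 10)), ((1, 1, 11), (1, 1, 12)), ((1, 1, 12), (1, 1,
    13))]]

def tb (b k : ℕ) : List En := (TB.getD b []).getD k []
def fc (b φ : ℕ) : List Tr := (FC.getD b []).getD φ []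
def fg (b φ t : ℕ) : Tr := (fc b φ).getD t (0, 0, 0)
def rk (b φ : ℕ) : ℕ := (RK.getD b []).getD φ 0
def pt (b k : ℕ) : Tr := (PT.getD b []).getD k (0, 0, 0)
def vr (b k : ℕ) : ℕ := (VR.getD b []).getD k 0
def cl (k : ℕ) : Bool := COL.getD k false
def hp (b k : ℕ) : List ℕ := (HP.getD b []).getD k []
def fan (a b k : ℕ) : List (List Tr × Tr) := (FAN.getD (2 * b - 1 + a) []).getD k []
def al (b : ℕ) : List (Tr × Tr) := AL.getD b []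

def tw (a b c d : ℕ) : ℕ := if d = 0 then a else if d = 1 then b else c

/-- the possible types of three consecutive rows -/
def W : List Tr :=
  [(0, 0, 1), (0, 0, 2), (0, 1, 1), (0, 1, 2), (1, 1, 1), (1, 1, 2), (0, 2, 2), (1, 2, 2)]

def ty' (w : Tr) (d : ℕ) : ℕ := tw w.1 w.2.1 w.2.2 d

theorem tb_len : ∀ b < 3, (TB.getD b []).length = 34 := by decide +kernel
theorem fc_len : ∀ b < 3, (FC.getD b []).length = 22 := by decide +kernel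

theorem tb_lt {b k : ℕ} {e : En} (hb : b < 3) (h : e ∈ tb b k) : k < 34 := by
  by_contra g
  rw [tb, List.getD_eq_default _ _ (by rw [tb_len b hb]; omega)] at h
  simp at h

theorem fc_lt {b φ : ℕ} (hb : b < 3) (h : fc b φ ≠ []) : φ < 22 := by
  by_contra g
  exact h (List.getD_eq_default _ _ (by rw [fc_len b hb]; omega))

theorem c_bd : ∀ b < 3, ∀ k < 34, ∀ e ∈ tb b k, e.1.1 ≤ 2 ∧ e.1.2.1 ≤ 2 ∧ (b = 0 → e.1.1 ≠ 0) ∧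
    (b = 2 → e.1.1 ≠ 2) ∧ cl k ≠ cl e.1.2.2 ∧ (∀ e' ∈ tb b k, e.1 = e'.1 → e = e') ∧
    e.2.1.1 ≤ 1 ∧ e.2.1.2.1 ≤ 1 ∧ (b = 0 → e.2.1.1 = 1) ∧ e.2.2.1.1 ≤ 2 ∧ e.2.2.1.2.1 ≤ 2 ∧
    (b = 0 → e.2.2.1.1 ≠ 0) := by decide +kernel

theorem c_rev : ∀ w ∈ W, ∀ k < 34, ∀ e ∈ tb w.2.1 k, ∃ e' ∈ tb (ty' w e.1.1) e.1.2.2,
    e'.1 = (2 - e.1.1, 2 - e.1.2.1, k) ∧ e'.2.2.2.2 = e.2.2.2.2 ∧ e'.2.1.2.2 = e.2.2.1.2.2 ∧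
    (e.2.2.1.2.2 < 22 → e.2.2.1.1 + 1 = e.1.1 + e'.2.1.1 ∧
      e.2.2.1.2.1 + 1 = e.1.2.1 + e'.2.1.2.1) := by decide +kernel

theorem c_idx : ∀ w ∈ W, ∀ k < 34, ∀ e ∈ tb w.2.1 k, e.2.1.2.2 < 22 →
    e.2.2.2.1 < (fc (ty' w e.2.1.1) e.2.1.2.2).length ∧
    fg (ty' w e.2.1.1) e.2.1.2.2 e.2.2.2.1 = (2 - e.2.1.1, 2 - e.2.1.2.1, k) ∧
    fg (ty' w e.2.1.1) e.2.1.2.2 ((e.2.2.2.1 + 1) % (fc (ty' w e.2.1.1) e.2.1.2.2).length) =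
      (1 + e.1.1 - e.2.1.1, 1 + e.1.2.1 - e.2.1.2.1, e.1.2.2) ∧ e.1.2.1 ≤ 1 + e.2.1.2.1 := by
  decide +kernel

theorem c_big : ∀ b < 3, ∀ k < 34, ∀ e ∈ tb b k, 22 ≤ e.2.1.2.2 →
    (e.2.1.2.2 = 22 ∧ b = 0 ∧ (k = 0 ∧ e.1 = (1, 1, 1) ∨ k = 1 ∧ e.1 = (1, 2, 0))) ∨
    (e.2.1.2.2 = 23 ∧ b = 2 ∧ (k = 22 ∧ e.1 = (1, 1, 21) ∨ k = 21 ∧ e.1 = (1, 1, 20) ∨
      k = 20 ∧ e.1 = (1, 1, 5) ∨ k = 5 ∧ e.1 = (1, 0, 22))) := by decide +kernel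

theorem c_fc : ∀ b < 3, ∀ φ < 22, (fc b φ).Nodup ∧ (fc b φ ≠ [] → 3 ≤ (fc b φ).length) ∧
    rk b φ ≤ 6 ∧ (φ < 14 → (fc b φ ≠ [] ↔ if φ < 8 then b ≠ 2 else b ≠ 0)) ∧
    ∀ x ∈ fc b φ, 1 ≤ x.1 ∧ x.1 ≤ 2 ∧ 1 ≤ x.2.1 ∧ x.2.1 ≤ 2 ∧ (b = 2 → x.1 = 1) := by
  decide +kernel

theorem c_dart : ∀ w ∈ W, ∀ φ < 22, ∀ t < (fc w.2.1 φ).length,
    ∃ e ∈ tb (ty' w (fg w.2.1 φ t).1) (fg w.2.1 φ t).2.2,
      e.2.1 = (2 - (fg w.2.1 φ t).1, 2 - (fg w.2.1 φ t).2.1, φ) ∧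
      (fg w.2.1 φ ((t + 1) % (fc w.2.1 φ).length)).1 + 1 = (fg w.2.1 φ t).1 + e.1.1 ∧
      (fg w.2.1 φ ((t + 1) % (fc w.2.1 φ).length)).2.1 + 1 = (fg w.2.1 φ t).2.1 + e.1.2.1 ∧
      (fg w.2.1 φ ((t + 1) % (fc w.2.1 φ).length)).2.2 = e.1.2.2 ∧
      (t = 0 → e.2.2.1.2.2 = 23 ∨ (e.2.2.1.2.2 < 22 ∧ (((fg w.2.1 φ t).1 + e.2.2.1.1 = 3 ∧ w.2.1 ≠ 2) ∨
        ((fg w.2.1 φ t).1 + e.2.2.1.1 = 2 ∧ rk w.2.1 e.2.2.1.2.2 < rk w.2.1 φ)))) := by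
  decide +kernel

/-- the dart lies in the tree or in the dual tree -/
def TC (b k : ℕ) (e : En) : Prop := (e.2.1.2.2 < 22 ∧ e.2.2.2.1 = 0) ∨ e.2.1.2.2 = 22 ∨
  (2 ≤ k ∧ pt b k = e.1 ∧ (e.1.1 = 0 ∨ (e.1.1 = 1 ∧ (e.1.2.2 < 2 ∨ vr b e.1.2.2 < vr b k))))

instance (b k : ℕ) (e : En) : Decidable (TC b k e) := by unfold TC; infer_instance

theorem c_cot : ∀ w ∈ W, ∀ k < 34, ∀ e ∈ tb w.2.1 k, TC w.2.1 k e ∨
    ∀ e' ∈ tb (ty' w e.1.1) e.1.2.2, e'.1 = (2 - e.1.1, 2 - e.1.2.1, k) →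
      TC (ty' w e.1.1) e.1.2.2 e' := by decide +kernel

theorem c_vr : ∀ b < 3, ∀ k < 34, vr b k ≤ 7 := by decide +kernel

theorem c_pm : ∀ b < 3, ∀ k < 34, ∀ e ∈ tb b k, ∃ e' ∈ tb b k, e'.2.2.2.2 = true ∧
    ∀ e'' ∈ tb b k, e''.2.2.2.2 = true → e'' = e' := by decide +kernel

theorem c_arc : ∀ b < 3, ∀ k < 34, ∀ e ∈ tb b k, e.2.2.2.2 = cl k → e.2.2.1.2.2 < 14 →
    e.2.1.2.2 < 14 ∧ (e.2.1, e.2.2.1) ∈ al b := by decide +kernel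

theorem c_arc' : ∀ b < 3, ∀ p ∈ al b, p.1.2.2 < 14 ∧ p.2.2.2 < 14 ∧ ∃ k < 34, ∃ e ∈ tb b k,
    e.2.2.2.2 = cl k ∧ e.2.1 = p.1 ∧ e.2.2.1 = p.2 := by decide +kernel

theorem c_meet : ∀ w ∈ W, ∀ k < 34, ∀ e ∈ tb w.2.1 k, e.2.1.2.2 < 14 → e.2.2.1.2.2 < 14 →
    ∀ x ∈ fc (ty' w e.2.1.1) e.2.1.2.2, ∀ y ∈ fc (ty' w e.2.2.1.1) e.2.2.1.2.2, x.2.2 = y.2.2 →
      x.1 + e.2.1.1 = y.1 + e.2.2.1.1 → x = (2 - e.2.1.1, 2 - e.2.1.2.1, k) ∨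
        x = (1 + e.1.1 - e.2.1.1, 1 + e.1.2.1 - e.2.1.2.1, e.1.2.2) := by decide +kernel

theorem c_pin : ∀ w ∈ W, ∀ φ < 14, fc w.2.1 φ ≠ [] → ∃ t < (fc w.2.1 φ).length,
    ∀ e ∈ tb (ty' w (fg w.2.1 φ t).1) (fg w.2.1 φ t).2.2,
      e.2.1 = (2 - (fg w.2.1 φ t).1, 2 - (fg w.2.1 φ t).2.1, φ) → 14 ≤ e.2.2.1.2.2 := by
  decide +kernel

theorem c_frz : ∀ k ∈ [0, 3], ∀ e ∈ tb 0 k, e.1.1 = 1 ∧ e.1.2.2 ∈ [1, 2] := by decide +kernel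

/-- adjacency inside a window of three rows and three columns -/
def St (w x y : Tr) : Prop := y.1 ≤ 2 ∧ y.2.1 ≤ 2 ∧ ∃ e ∈ tb (ty' w x.1) x.2.2,
  y.1 + 1 = x.1 + e.1.1 ∧ y.2.1 + 1 = x.2.1 + e.1.2.1 ∧ y.2.2 = e.1.2.2

instance (w x y : Tr) : Decidable (St w x y) := by unfold St; infer_instance

/-- the vertex is joined to the hub of its tile inside the tile -/
def C1 (b k : ℕ) : Prop := b ≠ 0 ∨ k < 4 ∨ k = 5 ∨ k = 6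

instance (b k : ℕ) : Decidable (C1 b k) := by unfold C1; infer_instance

theorem c_hub : ∀ w ∈ W, ∀ k < 34, tb w.2.1 k ≠ [] → C1 w.2.1 k →
    List.IsChain (St w) ((k :: hp w.2.1 k).map fun x => (1, 1, x)) ∧
      (k :: hp w.2.1 k).getLast? = some 5 := by decide +kernel

theorem c_fan : ∀ w ∈ W, ∀ k < 34, tb w.2.1 k ≠ [] → (w.2.1, k) ≠ (2, 5) →
    (fan w.1 w.2.1 k).length = 3 ∧ (∀ o ∈ fan w.1 w.2.1 k,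
      List.IsChain (St w) ((1, 1, k) :: (o.1 ++ [o.2])) ∧ C1 (ty' w o.2.1) o.2.2.2 ∧
        (o.2.1, o.2.2.1) ≠ (1, 1)) ∧
    (fan w.1 w.2.1 k).Pairwise fun o o' => (o.2.1, o.2.2.1) ≠ (o'.2.1, o'.2.2.1) ∧
      (∀ x ∈ o.1, x ∉ o'.1 ∧ (x.1, x.2.1) ≠ (o'.2.1, o'.2.2.1)) ∧
      ∀ x ∈ o'.1, (x.1, x.2.1) ≠ (o.2.1, o.2.2.1) := by decide +kernel

end Pool.Agent.MP_f22332_lc.H39
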