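import Pool.Agent.MP_f22332_lc.H39.Dist
import Pool.Agent.MP_f22332_lc.H39.Tab

set_option autoImplicit false

namespace Pool.Agent.MP_f22332_lc.H39

open Set

attribute [local irreducible] tb fc fg rk pt vr cl

def ty (n i : ℕ) : ℕ := if i = 0 then 0 else if i < n then 1 else 2

def cm (m d j : ℕ) : ℕ :=
  if d = 0 then (if j = 0 then m - 1 else j - 1) else if d = 1 then j else
    if j + 1 = m then 0 else j + 1

def rel (m : ℕ) (u d : Tr) : Tr := (u.1 + d.1 - 1, cm m d.2.1 u.2.1, d.2.2)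

def relF (m : ℕ) (u d : Tr) : Tr := if 22 ≤ d.2.2 then (0, 0, d.2.2) else rel m u d

def wn (n i : ℕ) : Tr := (ty n (i - 1), ty n i, ty n (i + 1))

def adj (n m : ℕ) (u v : Tr) : Prop :=
  u.1 ≤ n ∧ u.2.1 < m ∧ ∃ e ∈ tb (ty n u.1) u.2.2, v = rel m u e.1

def lf (n m : ℕ) (u v : Tr) : Tr :=
  relF m u (((tb (ty n u.1) u.2.2).filter fun e => rel m u e.1 = v).headD default).2.1

variable {n m : ℕ} {u v d d' x : Tr} {e : En}

theorem ty_lt (n i : ℕ) : ty n i < 3 := by unfold ty; split_ifs <;> omega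

theorem ty_spec (n i : ℕ) : (i = 0 ∧ ty n i = 0) ∨ (0 < i ∧ i < n ∧ ty n i = 1) ∨
    (0 < i ∧ n ≤ i ∧ ty n i = 2) := by unfold ty; split_ifs <;> simp <;> omega

theorem ty_zero {i : ℕ} : ty n i = 0 ↔ i = 0 := by have := ty_spec n i; omega

theorem ty_two {i : ℕ} : ty n i = 2 ↔ i ≠ 0 ∧ n ≤ i := by have := ty_spec n i; omega

theorem ty0 : ty n 0 = 0 := rfl

theorem wn_mem (hn : 0 < n) {i : ℕ} (hi : i ≤ n) : wn n i ∈ W := by
  rcases ty_spec n (i - 1) with ⟨a, e⟩ | ⟨a, a', e⟩ | ⟨a, a', e⟩ <;>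
  rcases ty_spec n i with ⟨b, f⟩ | ⟨b, b', f⟩ | ⟨b, b', f⟩ <;>
  rcases ty_spec n (i + 1) with ⟨c, g⟩ | ⟨c, c', g⟩ | ⟨c, c', g⟩ <;>
  first | omega | (rw [wn, e, f, g]; decide)

@[simp] theorem cm1 (j : ℕ) : cm m 1 j = j := rfl

theorem cm0 (m j : ℕ) : (j = 0 ∧ cm m 0 j = m - 1) ∨ cm m 0 j + 1 = j := by
  simp only [cm, if_true]; split_ifs <;> omega

theorem cm2 (m j : ℕ) : (j + 1 = m ∧ cm m 2 j = 0) ∨ (j + 1 ≠ m ∧ cm m 2 j = j + 1) := by
  by_cases h : j + 1 = m <;> simp [cm, h]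

theorem ty_wn {i a : ℕ} (ha : a ≤ 2) (h : 1 ≤ i + a) : ty' (wn n i) a = ty n (i + a - 1) := by
  unfold ty' tw wn
  split_ifs <;> (dsimp only; congr 1; omega)

theorem cm_lt {a j : ℕ} (hj : j < m) : cm m a j < m := by unfold cm; split_ifs <;> omega

theorem cm_cm {a b c j : ℕ} (hj : j < m) (ha : a ≤ 2) (hb : b ≤ 2) (hc : c ≤ 2) (h : c + 1 = a + b) :
    cm m b (cm m a j) = cm m c j := by
  have := cm0 m j
  have := cm2 m j
  have := cm0 m (cm m 2 j)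
  have := cm2 m (cm m 0 j)
  interval_cases a <;> interval_cases b <;> interval_cases c <;> (try simp only [cm1]) <;> omega

theorem rel_rel (hj : u.2.1 < m) (h : 1 ≤ u.1 + d.1) (h1 : d.2.1 ≤ 2) (h2 : d'.2.1 ≤ 2)
    (h3 : x.2.1 ≤ 2) (e1 : x.1 + 1 = d.1 + d'.1) (e2 : x.2.1 + 1 = d.2.1 + d'.2.1)
    (e3 : x.2.2 = d'.2.2) : rel m (rel m u d) d' = rel m u x := by
  simp only [rel, e3]
  exact Prod.ext (by dsimp only; omega) (Prod.ext (cm_cm hj h1 h2 h3 e2) rfl)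

theorem rel_one (u : Tr) : rel m u (1, 1, u.2.2) = u := by simp [rel, cm]

theorem rel_inj (hm : 3 ≤ m) (hj : u.2.1 < m) (h : 1 ≤ u.1 + d.1) (h' : 1 ≤ u.1 + d'.1)
    (h1 : d.2.1 ≤ 2) (h2 : d'.2.1 ≤ 2) (g : rel m u d = rel m u d') : d = d' := by
  simp only [rel, Prod.mk.injEq] at g
  obtain ⟨g1, g2, g3⟩ := g
  refine Prod.ext (by omega) (Prod.ext ?_ g3)
  have := cm0 m u.2.1
  have := cm2 m u.2.1
  generalize d.2.1 = a at *
  generalize d'.2.1 = b at *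
  interval_cases a <;> interval_cases b <;> (try simp only [cm1] at g2) <;> omega

theorem bdE (he : e ∈ tb (ty n u.1) u.2.2) : e.1.1 ≤ 2 ∧ e.1.2.1 ≤ 2 ∧ 1 ≤ u.1 + e.1.1 ∧
    (u.1 ≤ n → 0 < n → u.1 + e.1.1 - 1 ≤ n) ∧ cl u.2.2 ≠ cl e.1.2.2 ∧
    (∀ e' ∈ tb (ty n u.1) u.2.2, e.1 = e'.1 → e = e') ∧ e.2.1.1 ≤ 1 ∧ e.2.1.2.1 ≤ 1 ∧
    1 ≤ u.1 + e.2.1.1 ∧ e.2.2.1.1 ≤ 2 ∧ e.2.2.1.2.1 ≤ 2 ∧ 1 ≤ u.1 + e.2.2.1.1 := by
  have := c_bd _ (ty_lt _ _) _ (tb_lt (ty_lt _ _) he) e he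
  rw [ty_zero, ty_two] at this
  obtain ⟨a1, a2, a3, a4, a5, a6, a7, a8, a9, a10, a11, a12⟩ := this
  exact ⟨a1, a2, by omega, by omega, a5, a6, a7, a8, by omega, a10, a11, by omega⟩

theorem lf_eq (hm : 3 ≤ m) (hj : u.2.1 < m) (he : e ∈ tb (ty n u.1) u.2.2) :
    lf n m u (rel m u e.1) = relF m u e.2.1 := by
  unfold lf
  have : e ∈ (tb (ty n u.1) u.2.2).filter fun e' => rel m u e'.1 = rel m u e.1 := by simpa
  rcases h : (tb (ty n u.1) u.2.2).filter fun e' => rel m u e'.1 = rel m u e.1 with _ | ⟨a, l⟩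
  · simp [h] at this
  · have ha : a ∈ (tb (ty n u.1) u.2.2).filter fun e' => rel m u e'.1 = rel m u e.1 := by simp [h]
    simp only [List.mem_filter, decide_eq_true_eq] at ha
    have b1 := bdE he
    have b2 := bdE ha.1
    rw [h, List.headD_cons, b2.2.2.2.2.2.1 e he
      (rel_inj hm hj b2.2.2.1 b1.2.2.1 b2.2.1 b1.2.1 ha.2)]

theorem rev (hn : 0 < n) (hi : u.1 ≤ n) (hj : u.2.1 < m) (he : e ∈ tb (ty n u.1) u.2.2) :
    (rel m u e.1).1 ≤ n ∧ (rel m u e.1).2.1 < m ∧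
    ∃ e' ∈ tb (ty n (rel m u e.1).1) (rel m u e.1).2.2, e'.1 = (2 - e.1.1, 2 - e.1.2.1, u.2.2) ∧
      rel m (rel m u e.1) e'.1 = u ∧ e'.2.2.2.2 = e.2.2.2.2 ∧
      relF m (rel m u e.1) e'.2.1 = relF m u e.2.2.1 := by
  have b := bdE he
  obtain ⟨e', h1, h2, h3, h4, h5⟩ := c_rev _ (wn_mem hn hi) _ (tb_lt (ty_lt _ _) he) e he
  rw [ty_wn b.1 b.2.2.1] at h1
  have b' := bdE (u := rel m u e.1) h1
  refine ⟨b.2.2.2.1 hi hn, cm_lt hj, e', h1, h2, ?_, h3, ?_⟩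
  · rw [rel_rel (x := (1, 1, u.2.2)) hj b.2.2.1 b.2.1 b'.2.1 (by simp) (by simp [h2]; omega)
      (by simp [h2]; omega) (by simp [h2]), rel_one]
  · unfold relF
    rw [h4]
    split_ifs with g
    · rfl
    · exact rel_rel hj b.2.2.1 b.2.1 (by omega) (by omega) (h5 (by omega)).1 (h5 (by omega)).2 h4.symm

theorem rf_eq (hn : 0 < n) (hm : 3 ≤ m) (hi : u.1 ≤ n) (hj : u.2.1 < m)
    (he : e ∈ tb (ty n u.1) u.2.2) : lf n m (rel m u e.1) u = relF m u e.2.2.1 := by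
  obtain ⟨-, a, e', h1, -, h2, -, h3⟩ := rev hn hi hj he
  rw [← h3, ← lf_eq hm a h1, h2]

def GG (n m : ℕ) (hn : 0 < n) : SimpleGraph Tr where
  Adj := adj n m
  symm := ⟨by
    rintro u _ ⟨hi, hj, e, he, rfl⟩
    obtain ⟨a, b, e', h1, -, h2, -⟩ := rev hn hi hj he
    exact ⟨a, b, e', h1, h2.symm⟩⟩
  loopless := ⟨fun u ⟨_, _, e, he, h⟩ => (bdE he).2.2.2.2.1 (congrArg (fun x => cl x.2.2) h)⟩

def Loc (n m : ℕ) (f : Tr) : Prop := f.1 ≤ n ∧ f.2.1 < m ∧ fc (ty n f.1) f.2.2 ≠ []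

def flen (n m : ℕ) (f : Tr) : ℕ :=
  if f.2.2 = 22 then 2 * m else if f.2.2 = 23 then 4 * m else (fc (ty n f.1) f.2.2).length

def fcyc (n m : ℕ) (f : Tr) (t : ℕ) : Tr :=
  if f.2.2 = 22 then (0, t / 2, t % 2) else if f.2.2 = 23 then
    (n, m - 1 - t / 4, if t % 4 = 0 then 22 else if t % 4 = 1 then 21 else if t % 4 = 2 then 20 else 5)
  else rel m f (fg (ty n f.1) f.2.2 t)

def frk (n : ℕ) (f : Tr) : ℕ := if f.2.2 = 23 then 0 else if f.2.2 = 22 then 8 * n + 8 else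
  8 * (n - f.1) + rk (ty n f.1) f.2.2 + 1

def vrk (n m : ℕ) (u : Tr) : ℕ := if u.2.2 = 0 then (if u.2.1 = 0 then 2 * m else 2 * u.2.1) else
  if u.2.2 = 1 then 2 * u.2.1 + 1 else 2 * m + 1 + 8 * u.1 + vr (ty n u.1) u.2.2

variable {f : Tr}

theorem Loc.lt (h : Loc n m f) : f.2.2 < 22 := fc_lt (ty_lt _ _) h.2.2

theorem flen_loc (h : f.2.2 < 22) : flen n m f = (fc (ty n f.1) f.2.2).length := by
  rw [flen, if_neg (by omega), if_neg (by omega)]

theorem fcyc_loc (h : f.2.2 < 22) (t : ℕ) : fcyc n m f t = rel m f (fg (ty n f.1) f.2.2 t) := by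
  rw [fcyc, if_neg (by omega), if_neg (by omega)]

theorem fg_mem {b φ t : ℕ} (h : t < (fc b φ).length) : fg b φ t ∈ fc b φ := by
  rw [fg, List.getD_eq_getElem _ _ h]
  exact List.getElem_mem h

theorem idx_loc (hn : 0 < n) (hi : u.1 ≤ n) (hj : u.2.1 < m) (he : e ∈ tb (ty n u.1) u.2.2)
    (h : e.2.1.2.2 < 22) : Loc n m (rel m u e.2.1) ∧ e.2.2.2.1 < flen n m (rel m u e.2.1) ∧
      fcyc n m (rel m u e.2.1) e.2.2.2.1 = u ∧
      fcyc n m (rel m u e.2.1) ((e.2.2.2.1 + 1) % flen n m (rel m u e.2.1)) = rel m u e.1 := by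
  have b := bdE he
  obtain ⟨h1, h2, h3, h4⟩ := c_idx _ (wn_mem hn hi) _ (tb_lt (ty_lt _ _) he) e he h
  rw [ty_wn (by omega) (by omega)] at h1 h2 h3
  have h' : (rel m u e.2.1).2.2 < 22 := h
  rw [flen_loc h', fcyc_loc h', fcyc_loc h']
  refine ⟨⟨by simp only [rel]; omega, cm_lt hj, List.ne_nil_of_length_pos (by
    simp only [rel]; omega)⟩, h1, ?_, ?_⟩
  · change rel m _ (fg (ty n (u.1 + e.2.1.1 - 1)) e.2.1.2.2 _) = _
    rw [h2, rel_rel (d := e.2.1) (d' := (2 - e.2.1.1, 2 - e.2.1.2.1, u.2.2)) (x := (1, 1, u.2.2)) hj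
      (by omega) (by omega) (by simp) (by simp) (by simp; omega) (by simp; omega) rfl, rel_one]
  · change rel m _ (fg (ty n (u.1 + e.2.1.1 - 1)) e.2.1.2.2 (_ % (fc (ty n (u.1 + e.2.1.1 - 1))
      e.2.1.2.2).length)) = _
    rw [h3]
    have : e.2.1.1 ≤ 1 + e.1.1 := by omega
    exact rel_rel hj (by omega) (by omega) (by simp; omega) b.2.1 (by simp; omega)
      (by simp; omega) rfl

theorem dart_loc (hn : 0 < n) (h : Loc n m f) {t : ℕ} (ht : t < flen n m f) :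
    (fcyc n m f t).1 ≤ n ∧ (fcyc n m f t).2.1 < m ∧
    ∃ e ∈ tb (ty n (fcyc n m f t).1) (fcyc n m f t).2.2,
      fcyc n m f ((t + 1) % flen n m f) = rel m (fcyc n m f t) e.1 ∧
      relF m (fcyc n m f t) e.2.1 = f ∧ e ∈ tb (ty' (wn n f.1) (fg (ty n f.1) f.2.2 t).1)
        (fg (ty n f.1) f.2.2 t).2.2 ∧
      e.2.1 = (2 - (fg (ty n f.1) f.2.2 t).1, 2 - (fg (ty n f.1) f.2.2 t).2.1, f.2.2) ∧
      (t = 0 → frk n (relF m (fcyc n m f t) e.2.2.1) < frk n f) := by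
  have l := h.lt
  rw [flen_loc l] at ht
  obtain ⟨e, he, h1, h2, h3, h4, h5⟩ := c_dart _ (wn_mem hn h.1) _ l t ht
  have c := c_fc _ (ty_lt n f.1) _ l
  have c1 := c.2.2.2.2 _ (fg_mem ht)
  have c2 := c.2.2.2.2 _ (fg_mem (Nat.mod_lt (t + 1) (by omega)))
  have he' := he
  rw [ty_wn (by exact c1.2.1) (by have := c1.1; exact le_add_left this)] at he'
  rw [flen_loc l, fcyc_loc l, fcyc_loc l]
  simp only [wn] at h1 h2 h3 h4 h5 he'
  rw [ty_two] at c1
  have h0 := h.1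
  have b := bdE (u := rel m f (fg (ty n f.1) f.2.2 t)) he'
  refine ⟨by simp only [rel]; omega, cm_lt h.2.1, e, he', ?_, ?_, he, h1, fun t0 => ?_⟩
  · exact (rel_rel h.2.1 (by omega) c1.2.2.2.1 b.2.1 c2.2.2.2.1 h2 h3 h4).symm
  · rw [relF, if_neg (by simp [h1]; omega), rel_rel (x := (1, 1, f.2.2)) h.2.1 (by omega) c1.2.2.2.1
      (by omega) (by simp) (by simp [h1]; omega) (by simp [h1]; omega) (by simp [h1]), rel_one]
  · rw [frk.eq_1 n f, if_neg (by omega), if_neg (by omega)]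
    rcases h5 t0 with k | ⟨k, ⟨k1, k2⟩ | ⟨k1, k2⟩⟩
    · simp [relF, frk, k]
    · rw [relF, if_neg (by omega), frk, if_neg (by simp [rel]; omega), if_neg (by simp [rel]; omega)]
      have := (c_fc _ (ty_lt n (f.1 + 1)) _ k).2.2.1
      rw [Ne, ty_two] at k2
      simp only [rel]
      rw [show f.1 + (fg (ty n f.1) f.2.2 t).1 - 1 + e.2.2.1.1 - 1 = f.1 + 1 by omega]
      omega
    · rw [relF, if_neg (by omega), frk, if_neg (by simp [rel]; omega), if_neg (by simp [rel]; omega)]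
      simp only [rel]
      rw [show f.1 + (fg (ty n f.1) f.2.2 t).1 - 1 + e.2.2.1.1 - 1 = f.1 by omega]
      omega

theorem ty_n (hn : 0 < n) : ty n n = 2 := ty_two.2 ⟨by omega, le_rfl⟩

theorem dartE (hn : 0 < n) (hm : 3 ≤ m) {i j k : ℕ} (hi : i ≤ n) (hj : j < m) {b : ℕ}
    (hb : ty n i = b) (e : En) (he : e ∈ tb b k) : adj n m (i, j, k) (rel m (i, j, k) e.1) ∧
      lf n m (i, j, k) (rel m (i, j, k) e.1) = relF m (i, j, k) e.2.1 ∧
      lf n m (rel m (i, j, k) e.1) (i, j, k) = relF m (i, j, k) e.2.2.1 := by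
  subst hb
  exact ⟨⟨hi, hj, e, he, rfl⟩, lf_eq hm hj he, rf_eq hn hm hi hj he⟩

theorem dartN (hn : 0 < n) (hm : 3 ≤ m) {t : ℕ} (ht : t < 2 * m) :
    adj n m (fcyc n m (0, 0, 22) t) (fcyc n m (0, 0, 22) ((t + 1) % (2 * m))) ∧
      lf n m (fcyc n m (0, 0, 22) t) (fcyc n m (0, 0, 22) ((t + 1) % (2 * m))) = (0, 0, 22) := by
  have l0 : (t + 1) % (2 * m) < 2 * m := Nat.mod_lt _ (by omega)
  have k := (succ_mod ht l0).1 rfl
  generalize (t + 1) % (2 * m) = s at *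
  simp only [fcyc, if_true]
  rcases Nat.mod_two_eq_zero_or_one t with h | h
  · have := dartE hn hm (i := 0) (j := t / 2) (k := 0) (by omega) (by omega) ty0
      ((1, 1, 1), (1, 1, 22), (1, 1, 20), 0, false) (by decide +kernel)
    rw [h, show s / 2 = t / 2 by omega, show s % 2 = 1 by omega]
    exact ⟨this.1, this.2.1⟩
  · have := dartE hn hm (i := 0) (j := t / 2) (k := 1) (by omega) (by omega) ty0
      ((1, 2, 0), (1, 1, 22), (1, 1, 21), 0, false) (by decide +kernel)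
    rw [h, show s / 2 = cm m 2 (t / 2) by have := cm2 m (t / 2); omega,
      show s % 2 = 0 by omega]
    exact ⟨this.1, this.2.1⟩

theorem dartO (hn : 0 < n) (hm : 3 ≤ m) {t : ℕ} (ht : t < 4 * m) :
    adj n m (fcyc n m (0, 0, 23) t) (fcyc n m (0, 0, 23) ((t + 1) % (4 * m))) ∧
      lf n m (fcyc n m (0, 0, 23) t) (fcyc n m (0, 0, 23) ((t + 1) % (4 * m))) = (0, 0, 23) := by
  have l0 : (t + 1) % (4 * m) < 4 * m := Nat.mod_lt _ (by omega)
  have k := (succ_mod ht l0).1 rfl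
  generalize (t + 1) % (4 * m) = s at *
  simp only [fcyc, if_true, show (23 : ℕ) ≠ 22 by omega, if_false]
  have l : m - 1 - t / 4 < m := by omega
  obtain h | h | h | h : t % 4 = 0 ∨ t % 4 = 1 ∨ t % 4 = 2 ∨ t % 4 = 3 := by omega
  · have := dartE hn hm (k := 22) le_rfl l (ty_n hn)
      ((1, 1, 21), (1, 1, 23), (1, 1, 13), 0, false) (by decide +kernel)
    rw [h, show s / 4 = t / 4 by omega, show s % 4 = 1 by omega]
    exact ⟨this.1, this.2.1⟩
  · have := dartE hn hm (k := 21) le_rfl l (ty_n hn)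
      ((1, 1, 20), (1, 1, 23), (1, 1, 15), 0, false) (by decide +kernel)
    rw [h, show s / 4 = t / 4 by omega, show s % 4 = 2 by omega]
    exact ⟨this.1, this.2.1⟩
  · have := dartE hn hm (k := 20) le_rfl l (ty_n hn)
      ((1, 1, 5), (1, 1, 23), (0, 0, 6), 0, false) (by decide +kernel)
    rw [h, show s / 4 = t / 4 by omega, show s % 4 = 3 by omega]
    exact ⟨this.1, this.2.1⟩
  · have := dartE hn hm (k := 5) le_rfl l (ty_n hn)
      ((1, 0, 22), (1, 1, 23), (1, 0, 12), 0, true) (by decide +kernel)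
    rw [h, show m - 1 - s / 4 = cm m 0 (m - 1 - t / 4) by have := cm0 m (m - 1 - t / 4); omega,
      show s % 4 = 0 by omega]
    exact ⟨this.1, this.2.1⟩

theorem cot1 (hn : 0 < n) (hm : 3 ≤ m) (hi : u.1 ≤ n) (hj : u.2.1 < m)
    (he : e ∈ tb (ty n u.1) u.2.2) (h : TC (ty n u.1) u.2.2 e) (hv : v = rel m u e.1) :
    (lf n m u v ≠ (0, 0, 23) ∧ fcyc n m (lf n m u v) 0 = u) ∨
    (rel m u (pt (ty n u.1) u.2.2) = v ∧ vrk n m v < vrk n m u) ∨
    (rel m v (pt (ty n v.1) v.2.2) = u ∧ vrk n m u < vrk n m v) := by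
  subst hv
  rw [lf_eq hm hj he]
  rcases h with ⟨h1, h2⟩ | h | ⟨h1, h2, h3⟩
  · rw [relF, if_neg (by omega)]
    exact Or.inl ⟨fun k => by simp [rel] at k; omega, h2 ▸ (idx_loc hn hi hj he h1).2.2.1⟩
  · obtain ⟨i, j, k⟩ := u
    rcases c_big _ (ty_lt _ _) _ (tb_lt (ty_lt _ _) he) e he (by omega) with
      ⟨-, h1, ⟨h2, h3⟩ | ⟨h2, h3⟩⟩ | ⟨h1, -⟩
    · obtain rfl : i = 0 := ty_zero.1 h1
      obtain rfl : k = 0 := h2
      rcases Nat.eq_zero_or_pos j with rfl | h0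
      · exact Or.inl (by simp [relF, h, fcyc])
      · refine Or.inr (Or.inr ?_)
        simp [h3, rel, cm, vrk, h0.ne', ty, show pt 0 1 = (1, 1, 0) by decide +kernel]
    · obtain rfl : i = 0 := ty_zero.1 h1
      obtain rfl : k = 1 := h2
      refine Or.inr (Or.inr ?_)
      have := cm2 m j
      have := cm0 m (cm m 2 j)
      simp [h3, rel, vrk, ty, show pt 0 0 = (1, 0, 1) by decide +kernel] at hj ⊢
      split_ifs <;> omega
    · omega
  · refine Or.inr (Or.inl ⟨by rw [h2], ?_⟩)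
    have b := bdE he
    have c := cm_lt (a := e.1.2.1) hj
    have := (rev hn hi hj he).2.2
    obtain ⟨e', h4, -⟩ := this
    have c1 := c_vr _ (ty_lt n (u.1 + e.1.1 - 1)) _ (tb_lt (ty_lt _ _) h4)
    simp only [vrk, rel] at c1 ⊢
    rcases h3 with h3 | ⟨h3, h5⟩
    · split_ifs <;> omega
    · rw [h3, Nat.add_sub_cancel]
      split_ifs <;> omega

/-- the plane graph of the reduction -/
def dat (n m : ℕ) (hn : 0 < n) (hm : 3 ≤ m) : Dat Tr Tr where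
  G := GG n m hn
  I := {f | Loc n m f ∨ f = (0, 0, 22) ∨ f = (0, 0, 23)}
  len := flen n m
  c := fcyc n m
  lf := lf n m
  col u := cl u.2.2
  root := (0, 0, 23)
  frk := frk n
  par u := rel m u (pt (ty n u.1) u.2.2)
  vrk := vrk n m
  fin := ((finite_Iic n).prod ((finite_Iio m).prod (finite_Iio 34))).subset
    fun _ ⟨_, hi, hj, _, he, _⟩ => ⟨hi, hj, tb_lt (ty_lt _ _) he⟩
  len3 := by
    rintro f (h | rfl | rfl)
    · rw [flen_loc h.lt]
      exact (c_fc _ (ty_lt _ _) _ h.lt).2.1 h.2.2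
    · simp [flen]; omega
    · simp [flen]; omega
  inj := by
    rintro f (h | rfl | rfl) s hs t ht e
    · rw [mem_Iio, flen_loc h.lt] at hs ht
      rw [fcyc_loc h.lt, fcyc_loc h.lt] at e
      have c := c_fc _ (ty_lt n f.1) _ h.lt
      have c1 := c.2.2.2.2 _ (fg_mem hs)
      have c2 := c.2.2.2.2 _ (fg_mem ht)
      have := rel_inj hm h.2.1 (by omega) (by omega) c1.2.2.2.1 c2.2.2.2.1 e
      rw [fg, fg, List.getD_eq_getElem _ _ hs, List.getD_eq_getElem _ _ ht] at this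
      exact (List.Nodup.getElem_inj_iff c.1).1 this
    · simp [fcyc] at e; omega
    · simp only [flen, fcyc, if_true, show (23 : ℕ) ≠ 22 by omega, if_false, mem_Iio,
        Prod.mk.injEq] at hs ht e
      split_ifs at e <;> omega
  dart := by
    rintro f (h | rfl | rfl) t ht
    · obtain ⟨a, b, e, he, h1, h2, -⟩ := dart_loc hn h ht
      rw [h1, lf_eq hm b he]
      exact ⟨⟨a, b, e, he, rfl⟩, h2⟩
    · exact dartN hn hm ht
    · exact dartO hn hm ht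
  idx := by
    rintro u _ ⟨hi, hj, e, he, rfl⟩
    rw [lf_eq hm hj he, relF]
    split_ifs with h
    swap
    · have := idx_loc hn hi hj he (by omega)
      exact ⟨Or.inl this.1, _, this.2⟩
    obtain ⟨i, j, k⟩ := u
    dsimp only at hi hj
    rcases c_big _ (ty_lt _ _) _ (tb_lt (ty_lt _ _) he) e he h with
      ⟨h0, h1, h2⟩ | ⟨h0, h1, h2⟩ <;> rw [h0]
    · obtain rfl : i = 0 := ty_zero.1 h1
      refine ⟨by simp, 2 * j + k, ?_⟩
      have l : 2 * j + k < 2 * m := by dsimp only at h2; omega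
      have l0 : (2 * j + k + 1) % (2 * m) < 2 * m := Nat.mod_lt _ (by omega)
      have k := (succ_mod l l0).1 rfl
      have := cm2 m j
      rcases h2 with ⟨rfl, h2⟩ | ⟨rfl, h2⟩ <;>
        simp only [flen, fcyc, if_true, h2, rel, cm1, Prod.mk.injEq, true_and] <;> omega
    · obtain rfl : i = n := le_antisymm hi (ty_two.1 h1).2
      refine ⟨by simp, ?_⟩
      have := cm0 m j
      simp only [flen, fcyc, if_true, show (23 : ℕ) ≠ 22 by omega, if_false]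
      rcases h2 with ⟨rfl, h2⟩ | ⟨rfl, h2⟩ | ⟨rfl, h2⟩ | ⟨rfl, h2⟩
      · refine ⟨4 * (m - 1 - j), by omega, ?_⟩
        rw [Nat.mod_eq_of_lt (show _ < 4 * m by omega)]
        simp [h2, rel]; omega
      · refine ⟨4 * (m - 1 - j) + 1, by omega, ?_⟩
        rw [Nat.mod_eq_of_lt (show _ < 4 * m by omega)]
        simp [h2, rel, Nat.add_mod]; omega
      · refine ⟨4 * (m - 1 - j) + 2, by omega, ?_⟩
        rw [Nat.mod_eq_of_lt (show _ < 4 * m by omega)]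
        simp [h2, rel, Nat.add_mod]; omega
      · have l : 4 * (m - 1 - j) + 3 < 4 * m := by omega
        have l0 : (4 * (m - 1 - j) + 3 + 1) % (4 * m) < 4 * m := Nat.mod_lt _ (by omega)
        have k := (succ_mod l l0).1 rfl
        refine ⟨4 * (m - 1 - j) + 3, l, ?_⟩
        generalize (4 * (m - 1 - j) + 3 + 1) % (4 * m) = s at *
        simp [h2, rel, show s % 4 = 0 by omega]; omega
  bip := by rintro u _ ⟨-, -, e, he, rfl⟩; exact (bdE he).2.2.2.2.1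
  tree := by
    rintro f (h | rfl | rfl) hr
    · have l := (c_fc _ (ty_lt _ _) _ h.lt).2.1 h.2.2
      rw [← flen_loc (m := m) h.lt] at l
      obtain ⟨a, b, e, he, h1, -, -, -, h2⟩ := dart_loc hn h (show 0 < _ by omega)
      rw [Nat.mod_eq_of_lt (by omega)] at h1
      rw [h1, rf_eq hn hm a b he]
      exact h2 rfl
    · have := (dartE hn hm (i := 0) (j := 0) (k := 0) (by omega) (by omega) ty0
        ((1, 1, 1), (1, 1, 22), (1, 1, 20), 0, false) (by decide +kernel)).2.2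
      change frk n (lf n m (rel m (0, 0, 0) (1, 1, 1)) (0, 0, 0)) < _
      rw [this]
      simp [frk, relF, rel, ty, show rk 0 20 = 2 by decide +kernel]
    · exact (hr rfl).elim
  rt := by
    have a := (dartE hn hm (j := m - 1) (k := 22) le_rfl (by omega) (ty_n hn)
      ((1, 1, 21), (1, 1, 23), (1, 1, 13), 0, false) (by decide +kernel)).2.2
    have b := (dartE hn hm (j := m - 1) (k := 21) le_rfl (by omega) (ty_n hn)
      ((1, 1, 20), (1, 1, 23), (1, 1, 15), 0, false) (by decide +kernel)).2.2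
    simp [relF, rel, cm] at a b
    simp [fcyc, a, b]
  cot := by
    rintro u _ ⟨hi, hj, e, he, rfl⟩
    rcases c_cot _ (wn_mem hn hi) _ (tb_lt (ty_lt _ _) he) e he with h | h
    · rcases cot1 hn hm hi hj he h rfl with k | k | k
      exacts [Or.inl k, Or.inr (Or.inr (Or.inl k)), Or.inr (Or.inr (Or.inr k))]
    · obtain ⟨a, b, e', h1, h2, h3, -⟩ := rev hn hi hj he
      rw [ty_wn (bdE he).1 (bdE he).2.2.1] at h
      rcases cot1 hn hm a b h1 (h e' h1 h2) h3.symm with k | k | k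
      exacts [Or.inr (Or.inl k), Or.inr (Or.inr (Or.inr k)), Or.inr (Or.inr (Or.inl k))]

end Pool.Agent.MP_f22332_lc.H39
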