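import Pool.Agent.MP_f22332_lc.H39.Arcs

set_option autoImplicit false

namespace Pool.Agent.MP_f22332_lc.H39

open Set

variable {n m : ℕ} {f g : Tr} {act : ℕ → ℕ → Bool → Bool}

/-- the face belongs to an inactive gate -/
def off (act : ℕ → ℕ → Bool → Bool) (f : Tr) : Prop :=
  8 ≤ f.2.2 ∧ f.2.2 < 12 ∧ act (f.1 - 1) f.2.1 (decide (10 ≤ f.2.2)) = false

/-- the faces to be flipped -/
def SS (n m : ℕ) (act : ℕ → ℕ → Bool → Bool) (f : Tr) : Prop :=
  f.2.2 < 14 ∧ f.2.1 < m ∧ (if f.2.2 < 8 then f.1 < n else 0 < f.1 ∧ f.1 ≤ n) ∧ ¬ off act f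

/-- a pairing with a time function -/
def Pairing (n m : ℕ) (act : ℕ → ℕ → Bool → Bool) (μ : Tr → Tr) (τ : Tr → ℕ) : Prop :=
  (∀ f, SS n m act f → SS n m act (μ f) ∧ μ (μ f) = f ∧ (Arc n m f (μ f) ∨ Arc n m (μ f) f) ∧
    τ (μ f) = τ f) ∧ ∀ f g, Arc n m f g → SS n m act f → SS n m act g → f ≠ μ g → τ f < τ g

theorem nb13 {i j : ℕ} (h : Arc n m (i, j, 13) g ∨ Arc n m g (i, j, 13)) : g = (i, j, 12) := by
  rcases h with h | h <;> cases h <;> simp_all

theorem nb9 {i j : ℕ} (h : Arc n m (i, j, 9) g ∨ Arc n m g (i, j, 9)) :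
    g = (i, j, 8) ∨ g = (i, j, 12) := by
  rcases h with h | h <;> cases h <;> simp_all

theorem nb11 {i j : ℕ} (h : Arc n m (i, j, 11) g ∨ Arc n m g (i, j, 11)) :
    g = (i, j, 10) ∨ g = (i, j, 12) := by
  rcases h with h | h <;> cases h <;> simp_all

theorem nb1 {i j : ℕ} (h : Arc n m (i, j, 1) g ∨ Arc n m g (i, j, 1)) :
    g = (i, j, 0) ∨ g = (i, j, 2) ∨ g = (i + 1, j, 8) := by
  rcases h with h | h <;> cases h <;> simp_all

theorem nb3 {i j : ℕ} (h : Arc n m (i, j, 3) g ∨ Arc n m g (i, j, 3)) :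
    g = (i, j, 2) ∨ g = (i, j, 4) ∨ g = (i + 1, j, 10) := by
  rcases h with h | h <;> cases h <;> simp_all

theorem nb5 {i j : ℕ} (h : Arc n m (i, j, 5) g ∨ Arc n m g (i, j, 5)) :
    g = (i, j, 4) ∨ g = (i, j, 6) := by
  rcases h with h | h <;> cases h <;> simp_all

theorem nb7 {i j : ℕ} (h : Arc n m (i, j, 7) g ∨ Arc n m g (i, j, 7)) :
    g = (i, j, 0) ∨ g = (i, cm m 0 j, 6) := by
  rcases h with h | h <;> cases h <;> simp_all [cm_cm (a := 2) (b := 0) (c := 1)]

theorem Pairing.sat (hn : 0 < n) {μ : Tr → Tr} {τ : Tr → ℕ} (h : Pairing n m act μ τ) :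
    ∃ x : ℕ → Bool, ∀ j < m, ∃ i < n, act i j (x i) = false := by
  obtain ⟨h1, h2⟩ := h
  have sr : ∀ i < n, ∀ j < m, ∀ k < 8, SS n m act (i, j, k) := fun i hi j hj k hk =>
    ⟨show k < 14 by omega, hj, by simpa [hk], fun h => by have : 8 ≤ k := h.1; omega⟩
  have sb : ∀ i < n, ∀ j < m, ∀ k, k = 12 ∨ k = 13 → SS n m act (i + 1, j, k) := by
    rintro i hi j hj k (rfl | rfl) <;> simpa [SS, off, hj]
  have inv : ∀ f g, SS n m act f → μ f = g → μ g = f := fun f g hf e => e ▸ (h1 f hf).2.1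
  have mb : ∀ i < n, ∀ j < m, μ (i + 1, j, 12) = (i + 1, j, 13) := fun i hi j hj =>
    inv _ _ (sb i hi j hj _ (by simp)) (nb13 (h1 _ (sb i hi j hj _ (by simp))).2.2.1)
  have g1 : ∀ i < n, ∀ j < m, SS n m act (i + 1, j, 8) → SS n m act (i + 1, j, 9) ∧
      μ (i + 1, j, 8) = (i + 1, j, 9) := fun i hi j hj s => by
    have s' : SS n m act (i + 1, j, 9) := by simpa [SS, off] using s
    refine ⟨s', inv _ _ s' ((nb9 (h1 _ s').2.2.1).resolve_right fun e => ?_)⟩
    simpa [mb i hi j hj] using inv _ _ s' e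
  have g2 : ∀ i < n, ∀ j < m, SS n m act (i + 1, j, 10) → SS n m act (i + 1, j, 11) ∧
      μ (i + 1, j, 10) = (i + 1, j, 11) := fun i hi j hj s => by
    have s' : SS n m act (i + 1, j, 11) := by simpa [SS, off] using s
    refine ⟨s', inv _ _ s' ((nb11 (h1 _ s').2.2.1).resolve_right fun e => ?_)⟩
    simpa [mb i hi j hj] using inv _ _ s' e
  have m1 : ∀ i < n, ∀ j < m, μ (i, j, 1) = (i, j, 0) ∨ μ (i, j, 1) = (i, j, 2) := fun i hi j hj => by
    have s := sr i hi j hj 1 (by omega)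
    rcases nb1 (h1 _ s).2.2.1 with e | e | e
    exacts [Or.inl e, Or.inr e, by simpa [(g1 i hi j hj (e ▸ (h1 _ s).1)).2] using inv _ _ s e]
  have m3 : ∀ i < n, ∀ j < m, μ (i, j, 3) = (i, j, 2) ∨ μ (i, j, 3) = (i, j, 4) := fun i hi j hj => by
    have s := sr i hi j hj 3 (by omega)
    rcases nb3 (h1 _ s).2.2.1 with e | e | e
    exacts [Or.inl e, Or.inr e, by simpa [(g2 i hi j hj (e ▸ (h1 _ s).1)).2] using inv _ _ s e]
  have m5 := fun i hi j hj => nb5 (h1 _ (sr i hi j hj 5 (by omega))).2.2.1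
  have m7 := fun i hi j hj => nb7 (h1 _ (sr i hi j hj 7 (by omega))).2.2.1
  have iv := fun i hi j hj k hk g => inv (i, j, k) g (sr i hi j hj k hk)
  have rt : ∀ i < n, ∀ j < m, μ (i, j, 1) = (i, j, 2) → μ (i, j, 6) = (i, j, 5) ∧
      μ (i, cm m 2 j, 1) = (i, cm m 2 j, 2) := fun i hi j hj e => by
    have l := cm_lt (a := 2) hj
    have a := iv i hi j hj 1 (by omega) _ e
    have b := iv i hi j hj 3 (by omega) _ ((m3 i hi j hj).resolve_left fun k => by
      simpa [a] using iv i hi j hj 3 (by omega) _ k)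
    have c := iv i hi j hj 5 (by omega) _ ((m5 i hi j hj).resolve_left fun k => by
      simpa [b] using iv i hi j hj 5 (by omega) _ k)
    have d := iv i hi _ l 7 (by omega) _ ((m7 i hi _ l).resolve_right fun k => by
      simpa [cm_cm (a := 2) (b := 0) (c := 1) hj, c] using iv i hi _ l 7 (by omega) _ k)
    exact ⟨c, (m1 i hi _ l).resolve_left fun k => by simpa [d] using iv i hi _ l 1 (by omega) _ k⟩
  have rt0 : ∀ i < n, ∀ j < m, (μ (i, j, 1) = (i, j, 2) ↔ μ (i, 0, 1) = (i, 0, 2)) := by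
    intro i hi
    have a : ∀ j d, j + d < m → μ (i, j, 1) = (i, j, 2) → μ (i, j + d, 1) = (i, j + d, 2) := by
      intro j d
      induction d with
      | zero => exact fun _ e => e
      | succ d ih =>
        intro l e
        have := (rt i hi _ (by omega) (ih (by omega) e)).2
        rwa [show cm m 2 (j + d) = j + (d + 1) by have := cm2 m (j + d); omega] at this
    refine fun j hj => ⟨fun e => ?_, fun e => by simpa using a 0 j (by omega) e⟩
    have := (rt i hi _ (by omega) (a j (m - 1 - j) (by omega) e)).2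
    rwa [show cm m 2 (j + (m - 1 - j)) = 0 by have := cm2 m (j + (m - 1 - j)); omega] at this
  have lt : ∀ i < n, ∀ j < m, μ (i, 0, 1) ≠ (i, 0, 2) → (μ (i, j, 6)).2.2 = 7 ∧
      μ (i, j, 2) = (i, j, 3) := fun i hi j hj e => by
    have l := cm_lt (a := 2) hj
    have a := iv i hi _ l 1 (by omega) _ ((m1 i hi _ l).resolve_right (mt (rt0 i hi _ l).1 e))
    have b := iv i hi _ l 7 (by omega) _ ((m7 i hi _ l).resolve_left fun k => by
      simpa [a] using iv i hi _ l 7 (by omega) _ k)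
    rw [cm_cm (c := 1) hj le_rfl (by omega) (by omega) rfl, cm1] at b
    have c := iv i hi j hj 5 (by omega) _ ((m5 i hi j hj).resolve_right fun k => by
      simpa [b] using iv i hi j hj 5 (by omega) _ k)
    exact ⟨by rw [b], iv i hi j hj 3 (by omega) _ ((m3 i hi j hj).resolve_right fun k => by
      simpa [c] using iv i hi j hj 3 (by omega) _ k)⟩
  refine ⟨fun i => decide (μ (i, 0, 1) ≠ (i, 0, 2)), fun j hj => ?_⟩
  by_contra k
  simp only [not_exists, not_and, Bool.not_eq_false] at k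
  have n2 : ∀ i < n, (μ (i, j, 2)).2.2 = 1 ∨ (μ (i, j, 2)).2.2 = 3 := fun i hi => by
    by_cases e : μ (i, 0, 1) = (i, 0, 2)
    · simp [iv i hi j hj 1 (by omega) _ ((rt0 i hi j hj).2 e)]
    · simp [(lt i hi j hj e).2]
  have n6 : ∀ i < n, (μ (i, j, 6)).2.2 = 5 ∨ (μ (i, j, 6)).2.2 = 7 := fun i hi => by
    by_cases e : μ (i, 0, 1) = (i, 0, 2)
    · simp [(rt i hi j hj ((rt0 i hi j hj).2 e)).1]
    · simp [(lt i hi j hj e).1]
  have c1 : ∀ i < n, τ (i, j, 2) < τ (i + 1, j, 12) := fun i hi => by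
    have k := k i hi
    have s := sb i hi j hj 12 (by simp)
    by_cases e : μ (i, 0, 1) = (i, 0, 2)
    · have s8 : SS n m act (i + 1, j, 8) := by simpa [SS, off, hj, hi, e] using k
      obtain ⟨s9, e9⟩ := g1 i hi j hj s8
      have a := (h1 _ (sr i hi j hj 1 (by omega))).2.2.2
      have b := h2 _ _ (.gate hi hj (by decide)) (sr i hi j hj 1 (by omega)) s8 (by simp [e9])
      have c := (h1 _ s8).2.2.2
      have d := h2 _ _ (.strip hi hj (by decide)) s9 s (by simp [mb i hi j hj])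
      rw [(rt0 i hi j hj).2 e] at a
      rw [e9] at c
      omega
    · have s8 : SS n m act (i + 1, j, 10) := by simpa [SS, off, hj, hi, e] using k
      obtain ⟨s9, e9⟩ := g2 i hi j hj s8
      have a := (h1 _ (sr i hi j hj 2 (by omega))).2.2.2
      have b := h2 _ _ (.gate hi hj (by decide)) (sr i hi j hj 3 (by omega)) s8 (by simp [e9])
      have c := (h1 _ s8).2.2.2
      have d := h2 _ _ (.strip hi hj (by decide)) s9 s (by simp [mb i hi j hj])
      rw [(lt i hi j hj e).2] at a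
      rw [e9] at c
      omega
  have c2 : ∀ i < n, τ (0, j, 2) ≤ τ (i, j, 2) ∧ τ (i, j, 6) ≤ τ (0, j, 6) := by
    intro i
    induction i with
    | zero => simp
    | succ i ih =>
      intro hi
      have a := ih (by omega)
      have b := c1 i (by omega)
      have c := h2 _ _ (.up hi hj) (sb i (by omega) j hj 12 (by simp)) (sr _ hi j hj 2 (by omega))
        fun e => by simpa [← e] using n2 _ hi
      have d := h2 _ _ (.down hi hj) (sr _ hi j hj 6 (by omega)) (sr i (by omega) j hj 6 (by omega))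
        fun e => by simpa [← e] using n6 i (by omega)
      omega
  obtain ⟨i, rfl⟩ : ∃ i, n = i + 1 := ⟨n - 1, by omega⟩
  have a := c2 i (by omega)
  have b := c1 i (by omega)
  have c := h2 _ _ (.top rfl hj) (sb i (by omega) j hj 12 (by simp)) (sr i (by omega) j hj 6 (by omega))
    fun e => by simpa [← e] using n6 i (by omega)
  have d := h2 _ _ (.bot hj) (sr 0 hn j hj 6 (by omega)) (sr 0 hn j hj 2 (by omega))
    fun e => by simpa [← e] using n2 0 hn
  omega

def mu (m : ℕ) (x : ℕ → Bool) (f : Tr) : Tr :=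
  if f.2.2 < 8 ∧ x f.1 = false then (f.1, f.2.1, [7, 2, 1, 4, 3, 6, 5, 0].getD f.2.2 0) else
  if f.2.2 = 6 then (f.1, cm m 2 f.2.1, 7) else if f.2.2 = 7 then (f.1, cm m 0 f.2.1, 6) else
  (f.1, f.2.1, if f.2.2 % 2 = 0 then f.2.2 + 1 else f.2.2 - 1)

def tt (n w p : ℕ) : ℕ := if 3 * w < p then p + 1 else p + 1 + 5 * n

def tau (n : ℕ) (w : ℕ → ℕ) (x : ℕ → Bool) (f : Tr) : ℕ :=
  if 12 ≤ f.2.2 then tt n (w f.2.1) (3 * f.1 - 1) else if 8 ≤ f.2.2 then tt n (w f.2.1) (3 * f.1 - 2)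
  else if f.2.2 = 2 ∨ f.2.2 = (if x f.1 then 3 else 1) then tt n (w f.2.1) (3 * f.1)
  else if f.2.2 = 6 ∨ f.2.2 = (if x f.1 then 7 else 5) then 4 * n - f.1 + 1 else 0

theorem pairing_of (hn : 0 < n) {x : ℕ → Bool} (h : ∀ j < m, ∃ i < n, act i j (x i) = false) :
    ∃ μ τ, Pairing n m act μ τ := by
  choose! w hw ha using h
  refine ⟨mu m x, tau n w x, ?_, ?_⟩
  · rintro ⟨i, j, k⟩ ⟨h1, hj, h3, h4⟩
    dsimp only at h1 hj h3
    have l0 := cm_lt (a := 0) hj
    have l2 := cm_lt (a := 2) hj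
    have e0 := cm_cm (a := 0) (b := 2) (c := 1) hj (by omega) le_rfl (by omega) rfl
    have e2 := cm_cm (a := 2) (b := 0) (c := 1) hj le_rfl (by omega) (by omega) rfl
    by_cases hk : k < 8
    · rw [if_pos hk] at h3
      have w0 := Arc.wrap h3 l0
      have w2 := Arc.wrap h3 hj
      rw [e0, cm1] at w0
      cases hx : x i <;> interval_cases k <;>
        simp [mu, tau, SS, off, hx, h3, hj, l0, l2, e0, e2, w0, w2] <;>
        first | exact Or.inl (.ring h3 hj (by decide)) | exact Or.inr (.ring h3 hj (by decide))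
    · rw [if_neg hk] at h3
      obtain ⟨i, rfl⟩ : ∃ x, i = x + 1 := ⟨i - 1, by omega⟩
      have hi : i < n := h3.2
      rw [not_lt] at hk
      interval_cases k <;> simp [off] at h4 <;> simp [mu, tau, SS, off, hi, hj, h4] <;>
        first | exact Or.inl (.strip hi hj (by decide)) | exact Or.inr (.strip hi hj (by decide))
  · intro f g h s1 s2 e
    cases h with
    | @ring i j a b hi hj h =>
      cases hx : x i <;> fin_cases h <;> simp [mu, hx] at e <;> simp [tau, tt, hx] <;>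
        split_ifs <;> omega
    | @wrap i j hi hj => cases hx : x i <;> simp [mu, hx] at e; simp [tau, hx]
    | @gate i j a b hi hj h =>
      have a1 := hw j hj
      have a2 := ha j hj
      have a3 : x i = decide (a = 3) → w j ≠ i := by
        rintro k rfl
        fin_cases h <;> simp_all [SS, off]
      cases hx : x i <;> fin_cases h <;> simp [hx] at a3 <;> simp [tau, tt, hx] <;>
        split_ifs <;> omega
    | @strip i j a b hi hj h =>
      fin_cases h <;> simp [mu] at e <;> simp [tau, tt] <;> split_ifs <;> omega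
    | @up i j hi hj => simp only [tau, tt]; simp; split_ifs <;> omega
    | @down i j hi hj => cases h1 : x i <;> cases h2 : x (i + 1) <;> simp [tau, h1, h2] <;> omega
    | @top i j hi hj =>
      have := hw j hj
      simp only [tau, tt]; simp; split_ifs <;> omega
    | @bot j hj => cases h1 : x 0 <;> simp [tau, tt, h1] <;> omega

end Pool.Agent.MP_f22332_lc.H39
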