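import Pool.Agent.MP_f22332_lc.H39.Graph

set_option autoImplicit false

namespace Pool.Agent.MP_f22332_lc.H39

open Set Relation

attribute [local irreducible] tb fc fg rk pt vr cl hp fan

variable {n m : ℕ} {a b u v : Tr}

/-- reachability avoiding `a` and `b` -/
def Rch (n m : ℕ) (a b : Tr) : Tr → Tr → Prop :=
  ReflTransGen fun u v => adj n m u v ∧ u ≠ a ∧ u ≠ b ∧ v ≠ a ∧ v ≠ b

/-- the tile contains neither `a` nor `b` -/
def Ok (a b : Tr) (i j : ℕ) : Prop := (a.1, a.2.1) ≠ (i, j) ∧ (b.1, b.2.1) ≠ (i, j)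

theorem Ok.ne {i j : ℕ} (h : Ok a b i j) (k : ℕ) : (i, j, k) ≠ a ∧ (i, j, k) ≠ b :=
  ⟨fun e => h.1 (e ▸ rfl), fun e => h.2 (e ▸ rfl)⟩

theorem Rch.symm (hn : 0 < n) (h : Rch n m a b u v) : Rch n m a b v u := by
  induction h with
  | refl => exact .refl
  | tail _ h ih => exact .head ⟨(GG n m hn).adj_symm h.1, h.2.2.2.1, h.2.2.2.2, h.2.1, h.2.2.1⟩ ih

/-- the window position `x` is a vertex -/
def Vd (n : ℕ) (u x : Tr) : Prop := x.1 ≤ 2 ∧ x.2.1 ≤ 2 ∧ 1 ≤ u.1 + x.1 ∧ u.1 + x.1 - 1 ≤ n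

theorem St.adj (hn : 0 < n) (hj : u.2.1 < m) {x y : Tr} (hx : Vd n u x) (h : St (wn n u.1) x y) :
    Vd n u y ∧ adj n m (rel m u x) (rel m u y) := by
  obtain ⟨h1, h2, e, he, h3, h4, h5⟩ := h
  rw [ty_wn hx.1 hx.2.2.1] at he
  have c := bdE (u := rel m u x) he
  have d := hx.2.2
  refine ⟨⟨h1, h2, ?_, ?_⟩, hx.2.2.2, cm_lt hj, e, he,
    (rel_rel hj hx.2.2.1 hx.2.1 c.2.1 h2 h3 h4 h5).symm⟩ <;> simp only [rel] at c <;> omega

theorem path (hn : 0 < n) (hj : u.2.1 < m) (l : List Tr) : ∀ x, Vd n u x →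
    List.IsChain (St (wn n u.1)) (x :: l) →
      (∀ y ∈ l, Vd n u y ∧ tb (ty n (u.1 + y.1 - 1)) y.2.2 ≠ []) ∧
      ((∀ y ∈ x :: l, rel m u y ≠ a ∧ rel m u y ≠ b) → ∀ y ∈ x :: l,
        Rch n m a b (rel m u x) (rel m u y)) := by
  induction l with
  | nil => exact fun x _ _ => ⟨by simp, by simp [Rch, ReflTransGen.refl]⟩
  | cons y l ih =>
    intro x hx h
    rw [List.isChain_cons_cons] at h
    obtain ⟨h1, h2⟩ := h.1.adj hn hj hx
    obtain ⟨h3, h4⟩ := ih y h1 h.2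
    obtain ⟨-, -, e, he, -⟩ := (GG n m hn).adj_symm h2
    refine ⟨List.forall_mem_cons.2 ⟨⟨h1, List.ne_nil_of_mem he⟩, h3⟩, fun k => List.forall_mem_cons.2 ⟨.refl, fun z hz => ?_⟩⟩
    rw [List.forall_mem_cons] at k
    exact .head ⟨h2, k.1.1, k.1.2, k.2 y (by simp)⟩ (h4 k.2 z hz)

theorem hub (hn : 0 < n) {i j k : ℕ} (hi : i ≤ n) (hj : j < m) (h : tb (ty n i) k ≠ [])
    (hc : C1 (ty n i) k) (ho : Ok a b i j) : Rch n m a b (i, j, k) (i, j, 5) := by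
  obtain ⟨e, he⟩ := List.exists_mem_of_ne_nil _ h
  obtain ⟨h1, h2⟩ := c_hub _ (wn_mem hn hi) _ (tb_lt (ty_lt _ _) he) h hc
  have := (path (u := (i, j, k)) (a := a) (b := b) hn hj _ _ (by simp [Vd, hi]) h1).2 (by
    intro y hy
    obtain ⟨z, -, rfl⟩ := List.mem_map.1 (show y ∈ (k :: hp (ty n i) k).map fun x => (1, 1, x) from hy)
    exact ho.ne z) (1, 1, 5) (List.mem_map_of_mem (f := fun x => ((1, 1, x) : Tr))
      (List.mem_of_getLast? h2))
  exact this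

theorem fan_ok (hn : 0 < n) (hm : 3 ≤ m) (hi : u.1 ≤ n) (hj : u.2.1 < m)
    (h : tb (ty n u.1) u.2.2 ≠ []) (hw : (ty n u.1, u.2.2) ≠ (2, 5)) (ha : u ≠ a) (hb : u ≠ b) :
    ∃ i ≤ n, ∃ j < m, Ok a b i j ∧ Rch n m a b u (i, j, 5) := by
  obtain ⟨e, he⟩ := List.exists_mem_of_ne_nil _ h
  obtain ⟨h1, h2, h3⟩ := c_fan _ (wn_mem hn hi) _ (tb_lt (ty_lt _ _) he) h hw
  have v0 : Vd n u (1, 1, u.2.2) := by simp [Vd, hi]
  have p := fun o ho => path (a := a) (b := b) hn hj _ _ v0 (h2 o ho).1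
  have inj : ∀ x y, Vd n u x → Vd n u y → ((rel m u x).1, (rel m u x).2.1) =
      ((rel m u y).1, (rel m u y).2.1) → (x.1, x.2.1) = (y.1, y.2.1) := fun x y hx hy e => by
    have := rel_inj (d := (x.1, x.2.1, 0)) (d' := (y.1, y.2.1, 0)) hm hj hx.2.2.1 hy.2.2.1 hx.2.1
      hy.2.1 (by simpa [rel] using e)
    simpa using this
  obtain ⟨K, hK⟩ : ∃ K : List Tr × Tr → Tr → Prop, ∀ o z, K o z ↔ (∃ x ∈ o.1, rel m u x = z) ∨
      (z.1, z.2.1) = ((rel m u o.2).1, (rel m u o.2).2.1) := ⟨_, fun _ _ => Iff.rfl⟩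
  have h4 : (fan (wn n u.1).1 (wn n u.1).2.1 u.2.2).Pairwise fun o o' => ∀ z, ¬ (K o z ∧ K o' z) := by
    refine h3.imp_of_mem fun {o o'} ho ho' k z ⟨k1, k2⟩ => ?_
    have q := fun y hy => ((p o ho).1 y hy).1
    have q' := fun y hy => ((p o' ho').1 y hy).1
    simp only [List.mem_append, List.mem_singleton] at q q'
    rcases (hK _ _).1 k1 with ⟨x, hx, rfl⟩ | k1 <;> rcases (hK _ _).1 k2 with ⟨y, hy, k2⟩ | k2
    · have q1 := q x (Or.inl hx)
      have q2 := q' y (Or.inl hy)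
      exact (k.2.1 x hx).1 (rel_inj hm hj q2.2.2.1 q1.2.2.1 q2.2.1 q1.2.1 k2 ▸ hy)
    · exact (k.2.1 x hx).2 (inj _ _ (q x (Or.inl hx)) (q' _ (Or.inr rfl)) k2)
    · exact k.2.2 y hy (inj _ _ (q' y (Or.inl hy)) (q _ (Or.inr rfl)) (k2 ▸ k1))
    · exact k.1 (inj _ _ (q _ (Or.inr rfl)) (q' _ (Or.inr rfl)) (k1.symm.trans k2))
  obtain ⟨o, ho, k1, k2⟩ : ∃ o ∈ fan (wn n u.1).1 (wn n u.1).2.1 u.2.2, ¬ K o a ∧ ¬ K o b := by
    obtain ⟨o1, o2, o3, e⟩ := List.length_eq_three.1 h1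
    rw [e] at h4 ⊢
    simp only [List.pairwise_cons, List.mem_cons, List.not_mem_nil, or_false, forall_eq_or_imp,
      forall_eq, exists_eq_or_imp, exists_eq_left] at h4 ⊢
    obtain ⟨⟨g1, g2⟩, g3, -⟩ := h4
    have := g1 a
    have := g1 b
    have := g2 a
    have := g2 b
    have := g3 a
    have := g3 b
    tauto
  simp only [hK, not_or, not_exists, not_and] at k1 k2
  have ok : Ok a b (rel m u o.2).1 (rel m u o.2).2.1 := ⟨k1.2, k2.2⟩
  obtain ⟨q, q'⟩ := (p o ho).1 o.2 (by simp)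
  have r := (p o ho).2 (by
    simp only [List.mem_cons, List.mem_append, List.not_mem_nil, or_false]
    rintro y (rfl | hy | rfl)
    · rw [rel_one]; exact ⟨ha, hb⟩
    · exact ⟨k1.1 y hy, k2.1 y hy⟩
    · exact ok.ne _) o.2 (by simp)
  rw [rel_one] at r
  have c := (h2 o ho).2.1
  rw [ty_wn q.1 q.2.2.1] at c
  exact ⟨_, q.2.2.2, _, cm_lt hj, ok, r.trans (hub hn q.2.2.2 (cm_lt hj) q' c ok)⟩

theorem c_right : ∀ b < 3, ∃ k < 7, C1 b k ∧ ∃ e ∈ tb b k, e.1 = (1, 2, 5) := by decide +kernel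

theorem c_up : ∀ b < 2, (∃ e ∈ tb b 5, e.1 = (2, 1, 15)) ∧ tb (b + 1) 15 ≠ [] := by decide +kernel

theorem c_weak : ∀ d ∈ [((1, 0, 4) : Tr), (1, 0, 22), (1, 1, 20)], (∃ e ∈ tb 2 5, e.1 = d) ∧
    tb 2 d.2.2 ≠ [] := by decide +kernel

theorem to_hub (hn : 0 < n) (hm : 3 ≤ m) (h : adj n m u v) (ha : u ≠ a) (hb : u ≠ b) :
    ∃ i ≤ n, ∃ j < m, Ok a b i j ∧ Rch n m a b u (i, j, 5) := by
  obtain ⟨hi, hj, e, he, -⟩ := h
  by_cases hw : (ty n u.1, u.2.2) = (2, 5)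
  swap
  · exact fan_ok hn hm hi hj (List.ne_nil_of_mem he) hw ha hb
  obtain ⟨h1, h2⟩ := Prod.mk.inj hw
  obtain ⟨d, hd, k1, k2⟩ : ∃ d ∈ [((1, 0, 4) : Tr), (1, 0, 22), (1, 1, 20)],
      rel m u d ≠ a ∧ rel m u d ≠ b := by
    simp only [List.mem_cons, List.not_mem_nil, or_false, exists_eq_or_imp, exists_eq_left, rel]
    grind
  obtain ⟨⟨e, he, rfl⟩, k⟩ := c_weak d hd
  have l : (rel m u e.1).1 = u.1 ∧ e.1.2.2 ≠ 5 := by
    simp only [List.mem_cons, List.not_mem_nil, or_false] at hd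
    rcases hd with hd | hd | hd <;> simp [hd, rel]
  obtain ⟨i, g1, j, g2, g3, g4⟩ := fan_ok (u := rel m u e.1) hn hm (l.1 ▸ hi) (cm_lt hj)
    (by rwa [l.1, h1]) (fun k => l.2 (Prod.mk.inj k).2) k1 k2
  exact ⟨i, g1, j, g2, g3, .head ⟨⟨hi, hj, e, by rwa [h1, h2], rfl⟩, ha, hb, k1, k2⟩ g4⟩

theorem right (hn : 0 < n) {i j : ℕ} (hi : i ≤ n) (hj : j < m) (h1 : Ok a b i j)
    (h2 : Ok a b i (cm m 2 j)) : Rch n m a b (i, j, 5) (i, cm m 2 j, 5) := by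
  obtain ⟨k, -, hc, e, he, h⟩ := c_right _ (ty_lt n i)
  exact ((hub hn hi hj (List.ne_nil_of_mem he) hc h1).symm hn).tail
    ⟨⟨hi, hj, e, he, by simp [h, rel]⟩, (h1.ne k).1, (h1.ne k).2, h2.ne 5⟩

theorem up (hn : 0 < n) {i j : ℕ} (hi : i < n) (hj : j < m) (h1 : Ok a b i j)
    (h2 : Ok a b (i + 1) j) : Rch n m a b (i, j, 5) (i + 1, j, 5) := by
  have s1 := ty_spec n i
  have s2 := ty_spec n (i + 1)
  obtain ⟨⟨e, he, h⟩, -⟩ := c_up (ty n i) (by omega)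
  have := (c_up (ty n (i + 1) - 1) (by omega)).2
  rw [Nat.sub_add_cancel (by omega)] at this
  exact .head ⟨⟨hi.le, hj, e, he, by simp [h, rel]⟩, (h1.ne 5).1, (h1.ne 5).2, h2.ne 15⟩
    (hub hn hi hj this (Or.inl (by omega)) h2)

theorem seg (hn : 0 < n) {i j j' : ℕ} (hi : i ≤ n) (hj : j ≤ j') (hj' : j' < m)
    (h : ∀ c, j ≤ c → c ≤ j' → Ok a b i c) : Rch n m a b (i, j, 5) (i, j', 5) := by
  induction j', hj using Nat.le_induction with
  | base => exact .refl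
  | succ c hc ih =>
    have e : cm m 2 c = c + 1 := by have := cm2 m c; omega
    exact (ih (by omega) fun c h1 h2 => h c h1 (by omega)).trans
      (e ▸ right hn hi (by omega) (h c hc (by omega)) (e ▸ h _ (by omega) le_rfl))

theorem row (hn : 0 < n) {i d j j' : ℕ} (hi : i ≤ n) (hj : j < m) (hj' : j' < m) (h1 : j ≠ d)
    (h2 : j' ≠ d) (h : ∀ c < m, c ≠ d → Ok a b i c) : Rch n m a b (i, j, 5) (i, j', 5) := by
  wlog k : j ≤ j' generalizing j j'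
  · exact (this hj' hj h2 h1 (by omega)).symm hn
  by_cases e : j < d ∧ d < j'
  · have e1 : cm m 2 (m - 1) = 0 := by have := cm2 m (m - 1); omega
    refine ((seg hn hi j.zero_le hj fun c _ _ => h c (by omega) (by omega)).symm hn).trans
      (Rch.symm hn ((seg hn hi (show j' ≤ m - 1 by omega) (by omega)
        fun c _ _ => h c (by omega) (by omega)).trans ?_))
    exact e1 ▸ right hn hi (by omega) (h _ (by omega) (by omega)) (e1 ▸ h 0 (by omega) (by omega))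
  · exact seg hn hi k hj' fun c _ _ => h c (by omega) (by omega)

theorem hubs (hn : 0 < n) {i j c : ℕ} (hc : c < m) (ha : a.2.1 ≠ c) (hb : b.2.1 ≠ c) (hi : i ≤ n)
    (hj : j < m) (h : Ok a b i j) : Rch n m a b (i, j, 5) (0, c, 5) := by
  have col : ∀ i ≤ n, Rch n m a b (i, c, 5) (0, c, 5) := by
    intro i hi
    induction i with
    | zero => exact .refl
    | succ i ih =>
      exact ((up hn hi hc (by simp [Ok, ha, hb]) (by simp [Ok, ha, hb])).symm hn).trans (ih (by omega))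
  have k : ∀ i ≤ n, Ok a b i j → ¬ (a.1 = i ∧ b.1 = i) → Rch n m a b (i, j, 5) (0, c, 5) := by
    intro i hi h e
    refine (row (d := if a.1 = i then a.2.1 else if b.1 = i then b.2.1 else m) hn hi hj hc ?_ ?_
      fun c _ => ?_).trans (col i hi) <;> simp only [Ok, Ne, Prod.mk.injEq] at * <;>
      split_ifs <;> omega
  by_cases e : a.1 = i ∧ b.1 = i
  swap
  · exact k i hi h e
  rcases hi.lt_or_eq with l | rfl
  · have o : Ok a b (i + 1) j := by simp [Ok, e]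
    exact (up hn l hj h o).trans (k _ l o (by omega))
  · obtain ⟨i, rfl⟩ : ∃ x, i = x + 1 := ⟨i - 1, by omega⟩
    have o : Ok a b i j := by simp [Ok, e]
    exact ((up hn i.lt_succ_self hj o h).symm hn).trans (k _ i.le_succ o (by omega))

theorem c_four : ∀ k ∈ [0, 1, 2, 3, 5], tb 0 k ≠ [] := by decide +kernel

theorem threeConn (hn : 0 < n) (hm : 3 ≤ m) : ThreeConn (GG n m hn) := by
  have s : ∀ j < m, ∀ k ∈ [0, 1, 2, 3, 5], (0, j, k) ∈ (GG n m hn).support := fun j hj k hk => by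
    obtain ⟨e, he⟩ := List.exists_mem_of_ne_nil _ (c_four k hk)
    exact ⟨_, n.zero_le, hj, e, he, rfl⟩
  refine ⟨?_, fun a b => ?_⟩
  · refine le_of_eq_of_le ?_ (ncard_le_ncard (s := {(0, 0, 0), (0, 0, 1), (0, 0, 2), (0, 0, 3)})
      ?_ (dat n m hn hm).fin)
    · rw [ncard_insert_of_notMem (by simp), ncard_insert_of_notMem (by simp), ncard_pair (by simp)]
    · rintro _ (rfl | rfl | rfl | rfl) <;> exact s 0 (by omega) _ (by simp)
  obtain ⟨c, hc, ha, hb⟩ : ∃ c < m, a.2.1 ≠ c ∧ b.2.1 ≠ c := by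
    by_contra k
    push Not at k
    have := k 0
    have := k 1
    have := k 2
    omega
  have o : Ok a b 0 c := by simp [Ok, ha, hb]
  have m0 : (0, c, 5) ∈ (GG n m hn).support \ {a, b} := ⟨s c hc 5 (by simp), by simpa using o.ne 5⟩
  have k : ∀ u, Rch n m a b u (0, c, 5) → ∀ h : u ∈ (GG n m hn).support \ {a, b},
      ((GG n m hn).induce ((GG n m hn).support \ {a, b})).Reachable ⟨u, h⟩ ⟨_, m0⟩ := by
    intro u r
    induction r using ReflTransGen.head_induction_on with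
    | refl => exact fun _ => .rfl
    | head h _ ih =>
      exact fun _ => (SimpleGraph.Adj.reachable (by exact h.1)).trans
        (ih ⟨⟨_, (GG n m hn).adj_symm h.1⟩, by simpa using h.2.2.2⟩)
  rw [SimpleGraph.connected_iff_exists_forall_reachable]
  refine ⟨⟨_, m0⟩, fun ⟨u, hu⟩ => (k u ?_ hu).symm⟩
  obtain ⟨⟨v, h⟩, h'⟩ := hu
  simp only [mem_insert_iff, mem_singleton_iff, not_or] at h'
  obtain ⟨i, hi, j, hj, g1, g2⟩ := to_hub hn hm h h'.1 h'.2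
  exact g2.trans (hubs hn hc ha hb hi hj g1)

end Pool.Agent.MP_f22332_lc.H39
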