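import Pool.Agent.MP_f22332_lc.H39.Logic
import Pool.Agent.MP_f22332_lc.H39.Three
import Pool.Agent.Shared.H27.CookLevin

set_option autoImplicit false

namespace Pool.Agent.MP_f22332_lc.H39

open Set Pool.Agent.Shared Pool.Agent.Shared.H27
open scoped symmDiff

attribute [local irreducible] tb fc fg rk pt vr cl

variable {n m : ℕ} {u v f g : Tr} {act : ℕ → ℕ → Bool → Bool} {b : Bool}

def S0 (n m : ℕ) (f : Tr) : Prop :=
  f.2.2 < 14 ∧ f.2.1 < m ∧ (f.2.2 < 8 ∧ f.1 < n ∨ 8 ≤ f.2.2 ∧ 0 < f.1 ∧ f.1 ≤ n)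

def offB (act : ℕ → ℕ → Bool → Bool) (f : Tr) : Bool :=
  decide (8 ≤ f.2.2) && decide (f.2.2 < 12) && !act (f.1 - 1) f.2.1 (decide (10 ≤ f.2.2))

def inA (n m : ℕ) (act : ℕ → ℕ → Bool → Bool) (b : Bool) (f : Tr) : Bool :=
  decide (f.2.2 < 14 ∧ f.2.1 < m ∧ (f.2.2 < 8 ∧ f.1 < n ∨ 8 ≤ f.2.2 ∧ 0 < f.1 ∧ f.1 ≤ n)) &&
    (!offB act f || decide (f.2.2 % 2 = 1)) && (b || offB act f)

def AA (n m : ℕ) (act : ℕ → ℕ → Bool → Bool) (b : Bool) : Set Tr := {f | inA n m act b f = true}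

theorem offB_iff : offB act f = true ↔ off act f := by simp [offB, off, and_assoc]

theorem mem_AA : f ∈ AA n m act b ↔ S0 n m f ∧ (off act f → f.2.2 % 2 = 1) ∧
    (b = true ∨ off act f) := by
  rw [← offB_iff]
  cases h : offB act f <;> simp [AA, inA, S0, h, and_assoc]

theorem ss_iff : SS n m act f ↔ S0 n m f ∧ ¬ off act f := by
  rw [SS, S0, and_assoc, and_assoc]
  split_ifs <;> simp [*, Nat.le_of_not_lt]

theorem AA_sd : AA n m act true \ AA n m act false = {f | SS n m act f} := by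
  ext f
  simp only [mem_sdiff, mem_AA, mem_ofPred_eq, ss_iff]
  tauto

def psi (n : ℕ) (f : Tr) : ℕ := if f.2.2 = 6 then 2 + (n - f.1) else if f.2.2 = 2 then n + 3 else
  [0, 1, 0, 1, 0, 1, 0, 1, 2, 0, 2, 0, 1, 2].getD f.2.2 0

theorem Arc.s0 (hn : 0 < n) (h : Arc n m f g) : S0 n m f ∧ f.2.2 ≠ 8 ∧ f.2.2 ≠ 10 ∧ g.2.2 ≠ 9 ∧
    g.2.2 ≠ 11 ∧ psi n f < psi n g := by
  cases h with
  | ring hi hj h => fin_cases h <;> simp [S0, psi, hi, hj]; omega
  | wrap hi hj => simp [S0, psi, hi, cm_lt hj]; omega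
  | gate hi hj h => fin_cases h <;> simp [S0, psi, hi, hj]
  | strip hi hj h => fin_cases h <;> simp [S0, psi, hi, hj]
  | _ => simp [S0, psi]; omega

theorem s0_loc (hn : 0 < n) (h : S0 n m f) : Loc n m f :=
  (loc_iff hn h.1).2 ⟨h.2.1, by have := h.2.2; split_ifs <;> omega⟩

theorem s0_fin : {f | S0 n m f}.Finite :=
  ((finite_Iic n).prod ((finite_Iio m).prod (finite_Iio 14))).subset fun f h =>
    ⟨show f.1 ≤ n by have := h.2.2; omega, h.2.1, h.1⟩

theorem main (hn : 0 < n) (hm : 3 ≤ m) {k : ℕ} (hk : {f | SS n m act f}.ncard = 2 * k) :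
    (∀ b, IsPM (GG n m hn) (X0 n m hn ∆ (dat n m hn hm).bd (AA n m act b))) ∧
    ((∃ x : ℕ → Bool, ∀ j < m, ∃ i < n, act i j (x i) = false) ↔
      DistLE (GG n m hn) (dat n m hn hm).Φ k (X0 n m hn ∆ (dat n m hn hm).bd (AA n m act false))
        (X0 n m hn ∆ (dat n m hn hm).bd (AA n m act true))) := by
  have s0 : ∀ b, AA n m act b ⊆ {f | S0 n m f} := fun b f h => (mem_AA.1 h).1
  have sI : {f | S0 n m f} ⊆ (dat n m hn hm).I := fun f h => Or.inl (s0_loc hn h)
  have cl : ∀ b, (dat n m hn hm).Closed (X0 n m hn) (AA n m act b) := fun b u v h r e => by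
    obtain ⟨e1, e2, e3⟩ := mem_AA.1 e
    obtain ⟨a1, a2, a3, a4, a5, -⟩ := (arc_of hn hm h r e1.1).2.s0 hn
    refine mem_AA.2 ⟨a1, fun k => ?_, e3.imp_right fun k => ?_⟩
    · have := k.1
      have := k.2.1
      simp only [dat] at *
      omega
    · have := k.1
      have := k.2.1
      have := e2 k
      simp only [dat] at *
      omega
  have pm : ∀ b, IsPM (GG n m hn) (X0 n m hn ∆ (dat n m hn hm).bd (AA n m act b)) := fun b =>
    Dat.closed_pm (D := dat n m hn hm) (x0_pm hn) sI (ψ := psi n)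
      (fun u v h r _ e => ((arc_of hn hm h r e.1).2.s0 hn).2.2.2.2.2) _ _ (s0 b)
      (s0_fin.subset (s0 b)) rfl (cl b)
  have sub : AA n m act false ⊆ AA n m act true := fun f h =>
    mem_AA.2 ⟨(mem_AA.1 h).1, (mem_AA.1 h).2.1, Or.inl rfl⟩
  have mt : ∀ u v, (dat n m hn hm).G.Adj u v → (dat n m hn hm).lf u v ∈ AA n m act true →
      (dat n m hn hm).lf v u ∈ AA n m act true → (dat n m hn hm).Meet u v :=
    fun u v h a b => meet hn hm h (s0 _ a).1 (s0 _ b).1
  rw [← AA_sd] at hk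
  refine ⟨pm, ?_, fun h => ?_⟩
  · rintro ⟨x, hx⟩
    obtain ⟨μ, τ, h1, h2⟩ := pairing_of hn hx
    refine Dat.complete (D := dat n m hn hm) ((s0 _).trans sI) (s0_fin.subset (s0 _)) (cl _) mt
      (μ := μ) (τ := τ) k _ sub hk (cl _) (pm _) ?_
    rw [AA_sd]
    intro f hf
    obtain ⟨a1, a2, a3, a4⟩ := h1 f hf
    refine ⟨a1, a2, ?_, a4, ?_⟩
    · rcases a3 with a | a <;> obtain ⟨u, v, c1, -, c2, c3⟩ := a.dart hn hm
      exacts [⟨u, v, c1, c2, c3⟩, ⟨v, u, (GG n m hn).symm.symm _ _ c1, c3, c2⟩]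
    · rintro u v h r s rfl e
      exact h2 _ _ (arc_of hn hm h r hf.1).2 s hf e
  · obtain ⟨μ, τ, hg⟩ := Dat.sound (D := dat n m hn hm) (z := (0, 0, 19))
      (Or.inl ⟨hn.le, show 0 < m by omega, show fc 0 19 ≠ [] by decide +kernel⟩) (frz hn hm)
      ((s0 _).trans sI) (s0_fin.subset (s0 _)) (fun h => by simpa using (s0 _ h).1) (cl _) mt
      (fun f h => by
        obtain ⟨u, v, a1, a2, a3⟩ := pin hn hm (s0_loc hn (s0 _ h)) (s0 _ h).1
        exact ⟨u, v, a1, a2, fun k => a3.not_gt (s0 _ k).1⟩) k _ sub hk h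
    rw [AA_sd] at hg
    refine Pairing.sat hn (μ := μ) (τ := τ) ⟨fun f hf => ?_, fun f g h s1 s2 e => ?_⟩
    · obtain ⟨a1, a2, ⟨u, v, c1, rfl, c2⟩, a4, -⟩ := hg f hf
      refine ⟨a1, a2, ?_, a4⟩
      rw [← c2] at a1 ⊢
      by_cases r : (dat n m hn hm).Rdy (X0 n m hn) u v
      · exact Or.inl (arc_of hn hm c1 r a1.1).2
      · exact Or.inr (arc_of hn hm c1.symm ((Dat.rdy_symm c1).2 r) hf.1).2
    · obtain ⟨u, v, c1, r, rfl, rfl⟩ := h.dart hn hm
      exact (hg _ s2).2.2.2.2 u v c1 r s1 rfl e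

def evens (n m : ℕ) (act : ℕ → ℕ → Bool → Bool) : List Tr :=
  (List.range (n + 1) ×ˢ (List.range m ×ˢ [0, 2, 4, 6, 8, 10, 12])).filter
    fun f => inA n m act true f

theorem ss_card : {f | SS n m act f}.ncard = 2 * (evens n m act).length := by
  have e : ∀ f, f ∈ evens n m act ↔ SS n m act f ∧ f.2.2 % 2 = 0 := fun ⟨i, j, k⟩ => by
    have := mem_AA (n := n) (m := m) (act := act) (b := true) (f := (i, j, k))
    simp only [AA, mem_ofPred_eq] at this
    simp only [evens, List.mem_filter, List.mem_product, List.mem_range, this, ss_iff, S0,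
      List.mem_cons, List.not_mem_nil]
    by_cases h : off act (i, j, k) <;>
      simp only [h, true_or, or_false, and_true, true_imp_iff, false_imp_iff, not_true, not_false_iff,
        and_false, false_and, iff_false] <;> omega
  have c : {f | f ∈ evens n m act}.ncard = (evens n m act).length := by
    rw [← List.coe_toFinset, ncard_coe_finset]
    exact List.toFinset_card_of_nodup
      ((List.nodup_range.product (List.nodup_range.product (by decide))).filter _)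
  have i : Function.Injective fun f : Tr => ((f.1, f.2.1, f.2.2 + 1) : Tr) := fun f g h => by
    simp only [Prod.mk.injEq] at h
    exact Prod.ext h.1 (Prod.ext h.2.1 (by omega))
  rw [two_mul, ← c]
  conv_rhs => arg 2; rw [← ncard_image_of_injective _ i]
  rw [← ncard_union_eq _ (List.finite_toSet _) ((List.finite_toSet _).image _)]
  · congr 1
    ext ⟨i, j, k⟩
    have t : ∀ k, k % 2 = 0 → (SS n m act (i, j, k + 1) ↔ SS n m act (i, j, k)) := fun k h => by
      simp only [ss_iff, S0, off, show 10 ≤ k + 1 ↔ 10 ≤ k by omega]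
      grind
    simp only [mem_union, mem_image, mem_ofPred_eq, e]
    refine ⟨fun h => ?_, ?_⟩
    · rcases Nat.mod_two_eq_zero_or_one k with a | a
      · exact Or.inl ⟨h, a⟩
      · obtain ⟨k, rfl⟩ : ∃ x, k = x + 1 := ⟨k - 1, by omega⟩
        exact Or.inr ⟨(i, j, k), ⟨(t k (by omega)).1 h, show k % 2 = 0 by omega⟩, rfl⟩
    · rintro (h | ⟨⟨a, b, c⟩, h, k⟩)
      · exact h.1
      · cases k
        exact (t c h.2).2 h.1
  · rw [disjoint_left]
    rintro _ h ⟨g, k, rfl⟩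
    have a := ((e _).1 h).2
    have b := ((e _).1 k).2
    dsimp only at a
    omega

def edges (n m : ℕ) (p : Tr → En → Bool) : List (Tr × Tr) :=
  (List.range (n + 1) ×ˢ (List.range m ×ˢ List.range 34)).flatMap fun u =>
    ((tb (ty n u.1) u.2.2).filter (p u)).map fun e => (u, rel m u e.1)

theorem mem_edges {p : Tr → En → Bool} : (u, v) ∈ edges n m p ↔ u.1 ≤ n ∧ u.2.1 < m ∧
    ∃ e ∈ tb (ty n u.1) u.2.2, p u e = true ∧ v = rel m u e.1 := by
  obtain ⟨i, j, k⟩ := u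
  simp only [edges, List.mem_flatMap, List.mem_map, List.mem_filter, Prod.mk.injEq]
  constructor
  · rintro ⟨_, h, e, ⟨h1, h2⟩, rfl, rfl⟩
    simp only [List.mem_product, List.mem_range] at h
    exact ⟨by omega, h.2.1, e, h1, h2, rfl⟩
  · rintro ⟨h, h', e, h1, h2, rfl⟩
    exact ⟨_, by simpa [Nat.lt_succ_iff, h, h'] using tb_lt (ty_lt _ _) h1, e, ⟨h1, h2⟩, rfl, rfl⟩

theorem graphOf_eq {l : List (Tr × Tr)} {H : SimpleGraph Tr} (h : ∀ u v, (u, v) ∈ l ↔ H.Adj u v) :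
    graphOf l = H := by
  ext u v
  simp only [graphOf, SimpleGraph.fromRel_adj, h]
  exact ⟨fun k => k.2.elim id fun k => k.symm, fun k => ⟨k.ne, Or.inl k⟩⟩

def sel (n m : ℕ) (act : ℕ → ℕ → Bool → Bool) (b : Bool) (u : Tr) (e : En) : Bool :=
  xor e.2.2.2.2 (xor (inA n m act b (relF m u e.2.1)) (inA n m act b (relF m u e.2.2.1)))

theorem edges_G (hn : 0 < n) : graphOf (edges n m fun _ _ => true) = GG n m hn :=
  graphOf_eq fun u v => by simp [mem_edges, GG, adj]

theorem edges_X (hn : 0 < n) (hm : 3 ≤ m) : graphOf (edges n m (sel n m act b)) =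
    X0 n m hn ∆ (dat n m hn hm).bd (AA n m act b) := by
  refine graphOf_eq fun u v => ?_
  have k : ∀ e ∈ tb (ty n u.1) u.2.2, u.1 ≤ n → u.2.1 < m → (sel n m act b u e = true ↔
      (X0 n m hn ∆ (dat n m hn hm).bd (AA n m act b)).Adj u (rel m u e.1)) := fun e he hi hj => by
    have : (dat n m hn hm).G.Adj u (rel m u e.1) := ⟨hi, hj, e, he, rfl⟩
    rw [sd_adj, Dat.bd_adj, x0_iff hn hm hi hj he]
    simp only [this]
    simp only [dat, lf_eq hm hj he, rf_eq hn hm hi hj he, AA, sel, mem_ofPred_eq]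
    grind
  rw [mem_edges]
  refine ⟨?_, fun h => ?_⟩
  · rintro ⟨hi, hj, e, he, h, rfl⟩
    exact (k e he hi hj).1 h
  · obtain ⟨hi, hj, e, he, rfl⟩ : adj n m u v :=
      (symmDiff_le_sup.trans (sup_le (x0_pm hn).1 fun _ _ h => h.1) :
        X0 n m hn ∆ (dat n m hn hm).bd (AA n m act b) ≤ GG n m hn) h
    exact ⟨hi, hj, e, he, (k e he hi hj).2 h, rfl⟩

def vars (φ : CNF) : List ℕ := φ.flatten.map fun l => l.1

def actOf (φ : CNF) (i j : ℕ) (p : Bool) : Bool :=
  decide (j < φ.length) && !(φ.getD j []).any fun l => l.2 == p && (vars φ).idxOf l.1 == i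

theorem sat_iff (φ : CNF) : Sat φ ↔ ∃ x : ℕ → Bool, ∀ j < φ.length + 3,
    ∃ i < (vars φ).length + 1, actOf φ i j (x i) = false := by
  constructor
  · rintro ⟨ν, h⟩
    refine ⟨fun i => ν ((vars φ).getD i 0), fun j _ => ?_⟩
    by_cases hj : j < φ.length
    swap
    · exact ⟨0, by simp, by simp [actOf, hj]⟩
    obtain ⟨l, h1, h2⟩ := h _ (List.getElem_mem hj)
    have a : (vars φ).idxOf l.1 < (vars φ).length := List.idxOf_lt_length_of_mem
      (List.mem_map.2 ⟨l, List.mem_flatten.2 ⟨_, List.getElem_mem hj, h1⟩, rfl⟩)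
    refine ⟨_, Nat.lt_succ_of_lt a, ?_⟩
    dsimp only
    rw [List.getD_eq_getElem _ _ a, List.getElem_idxOf, h2]
    simp only [actOf, hj, decide_true, Bool.true_and, List.getD_eq_getElem _ _ hj,
      Bool.not_eq_false', List.any_eq_true]
    exact ⟨l, h1, by simp⟩
  · rintro ⟨x, h⟩
    refine ⟨fun v => x ((vars φ).idxOf v), fun c hc => ?_⟩
    obtain ⟨j, hj, rfl⟩ := List.getElem_of_mem hc
    obtain ⟨i, -, k⟩ := h j (by omega)
    simp only [actOf, hj, decide_true, Bool.true_and, List.getD_eq_getElem _ _ hj,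
      Bool.not_eq_false', List.any_eq_true, Bool.and_eq_true, beq_iff_eq] at k
    obtain ⟨l, h1, h2, rfl⟩ := k
    exact ⟨l, h1, h2.symm⟩

/-- the reduction -/
def red (φ : CNF) : List (Tr × Tr) × List (Tr × Tr) × List (Tr × Tr) × ℕ :=
  (edges ((vars φ).length + 1) (φ.length + 3) fun _ _ => true,
    edges ((vars φ).length + 1) (φ.length + 3)
      (sel ((vars φ).length + 1) (φ.length + 3) (actOf φ) false),
    edges ((vars φ).length + 1) (φ.length + 3)
      (sel ((vars φ).length + 1) (φ.length + 3) (actOf φ) true),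
    (evens ((vars φ).length + 1) (φ.length + 3) (actOf φ)).length)

variable {α : Type} [N487b59b3 α]

@[fun_prop] theorem pt_vars {φ : α → CNF} (h : H56.PT φ) : H56.PT fun a => vars (φ a) := by
  unfold vars; fun_prop

@[fun_prop] theorem pt_rel {m : α → ℕ} {u d : α → Tr} (hm : H56.PT m) (hu : H56.PT u) (hd : H56.PT d) :
    H56.PT fun a => rel (m a) (u a) (d a) := by
  unfold rel cm; fun_prop

@[fun_prop] theorem pt_relF {m : α → ℕ} {u d : α → Tr} (hm : H56.PT m) (hu : H56.PT u) (hd : H56.PT d) :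
    H56.PT fun a => relF (m a) (u a) (d a) := by
  unfold relF; fun_prop

@[fun_prop] theorem pt_tb {n i k : α → ℕ} (hn : H56.PT n) (hi : H56.PT i) (hk : H56.PT k) :
    H56.PT fun a => tb (ty (n a) (i a)) (k a) := by
  unfold tb ty; fun_prop

@[fun_prop] theorem pt_act {φ : α → CNF} {i j : α → ℕ} {p : α → Bool} (h : H56.PT φ) (hi : H56.PT i)
    (hj : H56.PT j) (hp : H56.PT p) : H56.PT fun a => actOf (φ a) (i a) (j a) (p a) := by
  unfold actOf; fun_prop

@[fun_prop] theorem pt_inA {φ : α → CNF} {n m : α → ℕ} {b : α → Bool} {f : α → Tr} (h : H56.PT φ)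
    (hn : H56.PT n) (hm : H56.PT m) (hb : H56.PT b) (hf : H56.PT f) :
    H56.PT fun a => inA (n a) (m a) (actOf (φ a)) (b a) (f a) := by
  unfold inA offB; fun_prop

theorem pt_red : H56.PT red := by
  obtain ⟨R1, h1, e1⟩ : ∃ R : CNF → List ℕ, H56.PT R ∧ ∀ a, List.range ((vars a).length + 1 + 1) = R a :=
    ⟨_, by fun_prop, fun _ => rfl⟩
  obtain ⟨R2, h2, e2⟩ : ∃ R : CNF → List ℕ, H56.PT R ∧ ∀ a, List.range (a.length + 3) = R a :=
    ⟨_, by fun_prop, fun _ => rfl⟩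
  unfold red edges evens sel
  simp only [e1, e2]
  fun_prop

theorem red_spec (φ : CNF) : (graphOf (red φ).1).IsBipartite ∧ ThreeConn (graphOf (red φ).1) ∧
    IsPM (graphOf (red φ).1) (graphOf (red φ).2.1) ∧
    IsPM (graphOf (red φ).1) (graphOf (red φ).2.2.1) ∧ ∃ Φ, IsFaces (graphOf (red φ).1) Φ ∧
      (Sat φ ↔ DistLE (graphOf (red φ).1) Φ (red φ).2.2.2 (graphOf (red φ).2.1)
        (graphOf (red φ).2.2.1)) := by
  have hn : 0 < (vars φ).length + 1 := by omega
  have hm : 3 ≤ φ.length + 3 := by omega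
  obtain ⟨h1, h2⟩ := main (act := actOf φ) hn hm ss_card
  simp only [red, edges_G hn, edges_X hn hm]
  exact ⟨(SimpleGraph.Coloring.mk _ fun h => (dat _ _ hn hm).bip _ _ h).colorable,
    threeConn hn hm, h1 _, h1 _, _, (dat _ _ hn hm).isFaces, (sat_iff φ).trans h2⟩

end Pool.Agent.MP_f22332_lc.H39
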